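import Pool.Graph.R_seed8.H244R2.GraphFinal
import Pool.Graph.R_seed8.Y349.OC.Final

/-!
# `n`-edge `k`-uniform hypergraphs: the main sum and its asymptotics, `k ≥ 3`
-/

set_option autoImplicit false

namespace Pool.Agent.KS6_8.HG

open Finset Nat Filter Topology Pool.Agent.H244R2

/-- `C(C(m,k),n) / m!` -/
noncomputable def kTerm (k n m : ℕ) : ℝ := ((m.choose k).choose n : ℝ) / (m ! : ℝ)

/-- `∑ C(C(m,k),n) / m!` -/
noncomputable def kSum (k n : ℕ) : ℝ := ∑' m, kTerm k n m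

/-- correction factor -/
noncomputable def hk (k n m : ℕ) : ℝ :=
  ((m.choose k).choose n : ℝ) * (n ! : ℝ) * (k ! : ℝ) ^ n / (m : ℝ) ^ (k * n)

lemma hk_num_eq (k n m : ℕ) :
    ((m.choose k).choose n : ℝ) * (n ! : ℝ) * (k ! : ℝ) ^ n =
      ∏ i ∈ range n, (((m.descFactorial k : ℕ) : ℝ) - i * (k ! : ℝ)) := by
  have h1 : ((m.choose k).choose n : ℝ) * (n ! : ℝ) = (((m.choose k).descFactorial n : ℕ) : ℝ) := by
    rw [Nat.descFactorial_eq_factorial_mul_choose]
    push_cast; ring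
  have h2 : ((m.descFactorial k : ℕ) : ℝ) = (m.choose k : ℝ) * (k ! : ℝ) := by
    rw [Nat.descFactorial_eq_factorial_mul_choose]
    push_cast; ring
  rw [h1, cast_descFactorial_eq_prod, h2]
  rw [← Finset.card_range n, ← Finset.prod_const, Finset.card_range, ← Finset.prod_mul_distrib]
  apply Finset.prod_congr rfl
  intro i _
  ring

lemma hk_nonneg (k n m : ℕ) : 0 ≤ hk k n m := by unfold hk; positivity

lemma hk_le_one (k n m : ℕ) : hk k n m ≤ 1 := by
  unfold hk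
  apply div_le_one_of_le₀ _ (by positivity)
  have h1 : (m.choose k).choose n * n ! * (k !) ^ n ≤ m ^ (k * n) := by
    calc (m.choose k).choose n * n ! * (k !) ^ n = (m.choose k).descFactorial n * (k !) ^ n := by
          rw [Nat.descFactorial_eq_factorial_mul_choose]; ring
      _ ≤ (m.choose k) ^ n * (k !) ^ n := Nat.mul_le_mul_right _ (Nat.descFactorial_le_pow _ _)
      _ = (k ! * m.choose k) ^ n := by rw [mul_pow, mul_comm]
      _ = (m.descFactorial k) ^ n := by rw [Nat.descFactorial_eq_factorial_mul_choose]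
      _ ≤ (m ^ k) ^ n := Nat.pow_le_pow_left (Nat.descFactorial_le_pow _ _) _
      _ = m ^ (k * n) := (pow_mul _ _ _).symm
  exact_mod_cast h1

lemma kTerm_eq {k n : ℕ} (hk0 : 0 < k) (hn : 0 < n) (m : ℕ) :
    kTerm k n m = (1 / ((n ! : ℝ) * (k ! : ℝ) ^ n)) * (hk k n m * dob (k * n) m) := by
  unfold kTerm hk dob
  rcases Nat.eq_zero_or_pos m with rfl | hm
  · have : (0:ℕ).choose n = 0 := Nat.choose_eq_zero_of_lt hn
    have h0 : (0:ℕ).choose k = 0 := Nat.choose_eq_zero_of_lt hk0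
    simp [this, h0]
  have hm' : (m:ℝ) ≠ 0 := by positivity
  have hf : (m ! : ℝ) ≠ 0 := by positivity
  have hn' : (n ! : ℝ) ≠ 0 := by positivity
  have hk' : (k ! : ℝ) ≠ 0 := by positivity
  field_simp

lemma kTerm_nonneg (k n m : ℕ) : 0 ≤ kTerm k n m := by unfold kTerm; positivity

lemma summable_kTerm {k : ℕ} (hk0 : 0 < k) (n : ℕ) : Summable (kTerm k n) := by
  rcases Nat.eq_zero_or_pos n with rfl | hn
  · have : Summable (dob 0) := summable_dob 0
    refine this.congr (fun m => ?_)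
    simp [kTerm, dob]
  · have h1 : Summable (fun m => hk k n m * dob (k * n) m) :=
      Summable.of_nonneg_of_le (fun m => mul_nonneg (hk_nonneg k n m) (dob_nonneg _ m))
        (fun m => mul_le_of_le_one_left (dob_nonneg _ m) (hk_le_one k n m)) (summable_dob _)
    refine (h1.mul_left (1 / ((n ! : ℝ) * (k ! : ℝ) ^ n))).congr (fun m => ?_)
    rw [kTerm_eq hk0 hn]

lemma kSum_eq {k n : ℕ} (hk0 : 0 < k) (hn : 0 < n) :
    kSum k n = (1 / ((n ! : ℝ) * (k ! : ℝ) ^ n)) * ∑' m, hk k n m * dob (k * n) m := by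
  unfold kSum
  rw [← tsum_mul_left]
  exact tsum_congr (kTerm_eq hk0 hn)

lemma kSum_nonneg (k n : ℕ) : 0 ≤ kSum k n := tsum_nonneg (kTerm_nonneg k n)

/-- `1 - ∑ a ≤ ∏ (1 - a)` -/
lemma one_sub_sum_le_prod {n : ℕ} {a : ℕ → ℝ} (h0 : ∀ i < n, 0 ≤ a i) (h1 : ∀ i < n, a i ≤ 1) :
    1 - ∑ i ∈ range n, a i ≤ ∏ i ∈ range n, (1 - a i) := by
  induction n with
  | zero => simp
  | succ n ih =>
    have hi := ih (fun i hi => h0 i (by omega)) (fun i hi => h1 i (by omega))
    rw [Finset.sum_range_succ, Finset.prod_range_succ]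
    have ha := h0 n (by omega)
    have hb := h1 n (by omega)
    have hs : 0 ≤ ∑ i ∈ range n, a i := Finset.sum_nonneg (fun i hi => h0 i (by
      rw [mem_range] at hi; omega))
    calc 1 - (∑ i ∈ range n, a i + a n) ≤ (1 - ∑ i ∈ range n, a i) * (1 - a n) := by
          nlinarith
      _ ≤ _ := mul_le_mul_of_nonneg_right hi (by linarith)

lemma sum_range_cast (k : ℕ) : ∑ j ∈ range k, (j : ℝ) = k * (k - 1) / 2 := by
  induction k with
  | zero => simp
  | succ k ih => rw [Finset.sum_range_succ, ih]; push_cast; ring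

/-- the falling factorial against the power -/
lemma desc_bounds {k m : ℕ} (hm : 0 < m) (hkm : k ≤ m) :
    1 - ((k : ℝ) * (k - 1) / 2) / m ≤ ((m.descFactorial k : ℕ) : ℝ) / (m : ℝ) ^ k ∧
      ((m.descFactorial k : ℕ) : ℝ) / (m : ℝ) ^ k ≤ Real.exp (-(((k : ℝ) * (k - 1) / 2) / m)) := by
  have hm0 : (0 : ℝ) < m := by exact_mod_cast hm
  have h1 : ((m.descFactorial k : ℕ) : ℝ) / (m : ℝ) ^ k = ∏ j ∈ range k, (1 - (j : ℝ) / m) := by
    rw [cast_descFactorial_eq_prod, ← Finset.card_range k, ← Finset.prod_const,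
      Finset.card_range, ← Finset.prod_div_distrib]
    apply Finset.prod_congr rfl
    intro j _
    field_simp
  have h2 : ∑ j ∈ range k, (j : ℝ) / m = ((k : ℝ) * (k - 1) / 2) / m := by
    rw [← Finset.sum_div, sum_range_cast]
  have h01 : ∀ j < k, (j : ℝ) / m ≤ 1 := by
    intro j hj
    rw [div_le_one hm0]
    exact_mod_cast (by omega : j ≤ m)
  rw [h1, ← h2]
  exact ⟨one_sub_sum_le_prod (fun j _ => by positivity) h01, prod_one_sub_le h01⟩

/-- the constant in the error -/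
noncomputable def Ck (k : ℕ) : ℝ :=
  3 * k + 2 ^ k * (k ! : ℝ) + 2 * (2 * (k : ℝ) ^ 2 + 2 ^ k * (k ! : ℝ)) ^ 2

/-- the correction factor in the window -/
lemma hk_window {k n m : ℕ} (hk3 : 3 ≤ k) {w : ℝ} (hw : 16 ≤ w)
    (hwk : 4 * (2 * (k : ℝ) ^ 2 + 2 ^ k * (k ! : ℝ)) ≤ w)
    (hN : w * Real.exp w = ((k * n : ℕ) : ℝ))
    (hm : |(m:ℝ) - Real.exp w| ≤ 3 * (Real.exp w * Real.exp (-(w / 4)))) :
    Real.exp (-(((k : ℝ) - 1) * w / 2)) *
        Real.exp (-(Ck k * (w ^ 3 * Real.exp (-(w / 4))))) ≤ hk k n m ∧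
      hk k n m ≤ Real.exp (-(((k : ℝ) - 1) * w / 2)) *
        Real.exp (Ck k * (w ^ 3 * Real.exp (-(w / 4)))) := by
  set μ := Real.exp w with hμd
  set δ := Real.exp (-(w / 4)) with hδd
  have hμ : 0 < μ := Real.exp_pos _
  have hδ : 0 < δ := Real.exp_pos _
  have hkR : (3 : ℝ) ≤ k := by exact_mod_cast hk3
  have hδ1 : δ ≤ 1 / 50 := by
    have h1 : δ ≤ Real.exp (-4) := Real.exp_le_exp.2 (by linarith)
    have h2 : Real.exp (-4) ≤ 1 / 50 := by
      rw [Real.exp_neg, inv_le_comm₀ (Real.exp_pos _) (by norm_num)]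
      have h3 : (2.7:ℝ) ≤ Real.exp 1 := by linarith [Real.exp_one_gt_d9]
      have h4 : Real.exp 4 = Real.exp 1 ^ 4 := by rw [← Real.exp_nat_mul]; norm_num
      rw [h4]
      calc (1 / 50 : ℝ)⁻¹ ≤ 2.7 ^ 4 := by norm_num
        _ ≤ _ := pow_le_pow_left₀ (by norm_num) h3 4
    exact h1.trans h2
  have hμδ : 1 / μ ≤ δ := by
    rw [one_div, ← Real.exp_neg]
    exact Real.exp_le_exp.2 (by linarith)
  rw [abs_le] at hm
  have hm1 : μ / 2 ≤ m := by nlinarith
  have hm0 : (0:ℝ) < m := by linarith [half_pos hμ]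
  have hm0' : 0 < m := by exact_mod_cast hm0
  have hmk : (m : ℝ) ^ k ≠ 0 := by positivity
  push_cast at hN
  have hk0 : (0 : ℝ) < k := by linarith
  have hn : (n:ℝ) = w * μ / k := by
    field_simp
    linarith
  have hn0 : (0:ℝ) ≤ n := by positivity
  have hnw : (n : ℝ) ≤ w * μ := by
    rw [hn]
    apply _root_.div_le_self (by positivity)
    linarith
  -- the exponential beats `w`
  have hw2 : w ^ 2 / 2 ≤ μ := by
    have := Real.quadratic_le_exp_of_nonneg (x := w) (by linarith)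
    linarith
  set D : ℝ := 2 * (k : ℝ) ^ 2 + 2 ^ k * (k ! : ℝ) with hD
  have hD0 : 0 < D := by positivity
  have hDw : D * (w / μ) ≤ 1 / 2 := by
    rw [← mul_div_assoc, div_le_iff₀ hμ]
    nlinarith
  have hkm : k ≤ m := by
    have h1 : (k : ℝ) ≤ m := by
      have : (k : ℝ) ≤ D := by nlinarith [show (0:ℝ) ≤ 2 ^ k * (k ! : ℝ) by positivity]
      have h3 : D ≤ μ / 2 := by
        have : D * w ≤ 1 / 2 * μ := by
          rw [← mul_div_assoc, div_le_iff₀ hμ] at hDw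
          exact hDw
        nlinarith
      linarith
    exact_mod_cast h1
  obtain ⟨hd1, hd2⟩ := desc_bounds hm0' hkm
  -- `μ / m` is close to one
  have hμm : |μ / m - 1| ≤ 6 * δ := by
    have h1 : μ / m - 1 = (μ - m) / m := by field_simp
    rw [h1, abs_div, abs_of_pos hm0, div_le_iff₀ hm0]
    have h2 : |μ - m| ≤ 3 * (μ * δ) := by rw [abs_le]; constructor <;> linarith
    calc |μ - m| ≤ 3 * (μ * δ) := h2
      _ = 6 * δ * (μ / 2) := by ring
      _ ≤ 6 * δ * m := by gcongr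
  have hmain : (n : ℝ) * (((k : ℝ) * (k - 1) / 2) / m) = ((k : ℝ) - 1) * w / 2 * (μ / m) := by
    rw [hn]; field_simp
  have hmain2 : |(n : ℝ) * (((k : ℝ) * (k - 1) / 2) / m) - ((k : ℝ) - 1) * w / 2| ≤
      3 * k * (w * δ) := by
    rw [hmain]
    have h1 : ((k : ℝ) - 1) * w / 2 * (μ / m) - ((k : ℝ) - 1) * w / 2 =
        (((k : ℝ) - 1) * w / 2) * (μ / m - 1) := by ring
    rw [h1, abs_mul, abs_of_nonneg (by
      have : (0:ℝ) ≤ (k : ℝ) - 1 := by linarith
      positivity : (0:ℝ) ≤ ((k : ℝ) - 1) * w / 2)]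
    calc ((k : ℝ) - 1) * w / 2 * |μ / m - 1| ≤ ((k : ℝ) * w / 2) * (6 * δ) := by
          gcongr
          linarith
      _ = 3 * k * (w * δ) := by ring
  have hwδ3 : w * δ ≤ w ^ 3 * δ := by
    have : w ≤ w ^ 3 := le_self_pow₀ (by linarith) (by norm_num)
    gcongr
  -- the numerator as a product
  have hprod : hk k n m = ∏ i ∈ range n,
      (((m.descFactorial k : ℕ) : ℝ) / (m : ℝ) ^ k - i * (k ! : ℝ) / (m : ℝ) ^ k) := by
    unfold hk
    rw [hk_num_eq, pow_mul, ← Finset.card_range n, ← Finset.prod_const, Finset.card_range,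
      ← Finset.prod_div_distrib]
    apply Finset.prod_congr rfl
    intro i _
    rw [sub_div]
  have hmkl : (μ / 2) ^ k ≤ (m : ℝ) ^ k := pow_le_pow_left₀ (by positivity) hm1 k
  have h2k : (k ! : ℝ) / (m : ℝ) ^ k ≤ 2 ^ k * (k ! : ℝ) / μ ^ 3 := by
    calc (k ! : ℝ) / (m : ℝ) ^ k ≤ (k ! : ℝ) / (μ / 2) ^ k := by gcongr
      _ = 2 ^ k * (k ! : ℝ) / μ ^ k := by rw [div_pow]; field_simp
      _ ≤ 2 ^ k * (k ! : ℝ) / μ ^ 3 := by
          have h1μ : 1 ≤ μ := Real.one_le_exp (by linarith)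
          have : μ ^ 3 ≤ μ ^ k := pow_le_pow_right₀ h1μ hk3
          gcongr
  set a : ℝ := ((k : ℝ) * (k - 1) / 2) / m + n * (k ! : ℝ) / (m : ℝ) ^ k with ha
  have hkk : (0 : ℝ) ≤ (k : ℝ) * (k - 1) / 2 := by
    have : (0:ℝ) ≤ (k : ℝ) - 1 := by linarith
    positivity
  have ha0 : 0 ≤ a := by rw [ha]; positivity
  have h1μ : 1 ≤ μ := Real.one_le_exp (by linarith)
  have hsecond : n * (k ! : ℝ) / (m : ℝ) ^ k ≤ 2 ^ k * (k ! : ℝ) * (w / μ ^ 2) := by
    calc n * (k ! : ℝ) / (m : ℝ) ^ k = n * ((k ! : ℝ) / (m : ℝ) ^ k) := by ring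
      _ ≤ (w * μ) * (2 ^ k * (k ! : ℝ) / μ ^ 3) := by gcongr
      _ = _ := by field_simp
  have haD : a ≤ D * (w / μ) := by
    have e1 : ((k : ℝ) * (k - 1) / 2) / m ≤ 2 * (k : ℝ) ^ 2 * (w / μ) := by
      calc ((k : ℝ) * (k - 1) / 2) / m ≤ ((k : ℝ) * (k - 1) / 2) / (μ / 2) := by gcongr
        _ = ((k : ℝ) * (k - 1)) / μ := by field_simp
        _ ≤ 2 * (k : ℝ) ^ 2 * (w / μ) := by
            rw [← mul_div_assoc]
            apply div_le_div_of_nonneg_right _ hμ.le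
            nlinarith [mul_nonneg (show (0:ℝ) ≤ k by linarith) (show (0:ℝ) ≤ k by linarith)]
    have e2 : n * (k ! : ℝ) / (m : ℝ) ^ k ≤ 2 ^ k * (k ! : ℝ) * (w / μ) := by
      refine hsecond.trans ?_
      have : w / μ ^ 2 ≤ w / μ := by
        have : μ ≤ μ ^ 2 := le_self_pow₀ h1μ (by norm_num)
        gcongr
      gcongr
    rw [ha, hD, add_mul]
    exact _root_.add_le_add e1 e2
  constructor
  · -- lower bound
    set u : ℕ → ℝ := fun i => ((k : ℝ) * (k - 1) / 2) / m + i * (k ! : ℝ) / (m : ℝ) ^ k with hu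
    have hu0 : ∀ i < n, 0 ≤ u i := by intro i _; simp only [hu]; positivity
    have hua : ∀ i < n, u i ≤ a := by
      intro i hi
      have : (i:ℝ) ≤ n := by exact_mod_cast hi.le
      simp only [hu, ha]
      gcongr
    have hu1 : ∀ i < n, u i ≤ 1 / 2 := fun i hi => (hua i hi).trans (haD.trans hDw)
    have h1 : ∏ i ∈ range n, (1 - u i) ≤ hk k n m := by
      rw [hprod]
      apply Finset.prod_le_prod
      · intro i hi
        have := hu1 i (mem_range.1 hi)
        linarith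
      · intro i _
        simp only [hu]
        linarith
    have h2 := prod_one_sub_ge hu0 hu1
    refine le_trans ?_ (h2.trans h1)
    rw [← Real.exp_add]
    apply Real.exp_le_exp.2
    have hs1 : ∑ i ∈ range n, u i ≤ ((k : ℝ) - 1) * w / 2 + 3 * k * (w ^ 3 * δ) +
        2 ^ k * (k ! : ℝ) * (w ^ 3 * δ) := by
      have e1 : ∑ i ∈ range n, u i ≤ n * (((k : ℝ) * (k - 1) / 2) / m) +
          n * (n * (k ! : ℝ) / (m : ℝ) ^ k) := by
        calc ∑ i ∈ range n, u i ≤ ∑ i ∈ range n, a :=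
              Finset.sum_le_sum (fun i hi => hua i (mem_range.1 hi))
          _ = n * a := by rw [sum_const, card_range, nsmul_eq_mul]
          _ = _ := by rw [ha]; ring
      have e2 : (n : ℝ) * (n * (k ! : ℝ) / (m : ℝ) ^ k) ≤ 2 ^ k * (k ! : ℝ) * (w ^ 3 * δ) := by
        calc (n : ℝ) * (n * (k ! : ℝ) / (m : ℝ) ^ k)
            ≤ (w * μ) * (2 ^ k * (k ! : ℝ) * (w / μ ^ 2)) := by gcongr
          _ = 2 ^ k * (k ! : ℝ) * (w ^ 2 * (1 / μ)) := by field_simp
          _ ≤ 2 ^ k * (k ! : ℝ) * (w ^ 3 * δ) := by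
              have : w ^ 2 ≤ w ^ 3 := pow_le_pow_right₀ (by linarith) (by norm_num)
              gcongr
      have e3 := (abs_le.1 hmain2).2
      have e4 : 3 * k * (w * δ) ≤ 3 * k * (w ^ 3 * δ) := by gcongr
      linarith
    have hs2 : ∑ i ∈ range n, u i ^ 2 ≤ D ^ 2 * (w ^ 3 * δ) := by
      calc ∑ i ∈ range n, u i ^ 2 ≤ ∑ i ∈ range n, a ^ 2 := by
            apply Finset.sum_le_sum
            intro i hi
            exact pow_le_pow_left₀ (hu0 i (mem_range.1 hi)) (hua i (mem_range.1 hi)) 2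
        _ = n * a ^ 2 := by rw [sum_const, card_range, nsmul_eq_mul]
        _ ≤ (w * μ) * (D * (w / μ)) ^ 2 := by gcongr
        _ = D ^ 2 * (w ^ 3 * (1 / μ)) := by field_simp
        _ ≤ D ^ 2 * (w ^ 3 * δ) := by gcongr
    have hC : Ck k * (w ^ 3 * δ) = 3 * k * (w ^ 3 * δ) + 2 ^ k * (k ! : ℝ) * (w ^ 3 * δ) +
        2 * (D ^ 2 * (w ^ 3 * δ)) := by unfold Ck; rw [← hD]; ring
    rw [hC]
    linarith
  · -- upper bound
    have h1 : hk k n m ≤ (Real.exp (-(((k : ℝ) * (k - 1) / 2) / m))) ^ n := by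
      rw [hprod, ← Finset.card_range n, ← Finset.prod_const, Finset.card_range]
      have hlow : ∀ i ∈ range n, 0 ≤ ((m.descFactorial k : ℕ) : ℝ) / (m : ℝ) ^ k -
          i * (k ! : ℝ) / (m : ℝ) ^ k := by
        intro i hi
        have hi' : (i:ℝ) ≤ n := by exact_mod_cast (mem_range.1 hi).le
        have e1 : i * (k ! : ℝ) / (m : ℝ) ^ k ≤ n * (k ! : ℝ) / (m : ℝ) ^ k := by gcongr
        have e2 := haD.trans hDw
        rw [ha] at e2
        linarith
      apply Finset.prod_le_prod hlow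
      intro i _
      refine le_trans ?_ hd2
      have : 0 ≤ i * (k ! : ℝ) / (m : ℝ) ^ k := by positivity
      linarith
    refine h1.trans ?_
    rw [← Real.exp_nat_mul, ← Real.exp_add]
    apply Real.exp_le_exp.2
    have e3 := (abs_le.1 hmain2).1
    have e4 : 3 * k * (w * δ) ≤ 3 * k * (w ^ 3 * δ) := by gcongr
    have e5 : 3 * k * (w ^ 3 * δ) ≤ Ck k * (w ^ 3 * δ) := by
      apply mul_le_mul_of_nonneg_right _ (by positivity)
      unfold Ck
      have : 0 ≤ 2 ^ k * (k ! : ℝ) := by positivity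
      have : 0 ≤ 2 * (2 * (k : ℝ) ^ 2 + 2 ^ k * (k ! : ℝ)) ^ 2 := by positivity
      linarith
    linarith

lemma Ck_nonneg (k : ℕ) : 0 ≤ Ck k := by unfold Ck; positivity

/-- asymptotics of the main sum in terms of the Lambert function, with a rate -/
theorem kSum_rate {k : ℕ} (hk3 : 3 ≤ k) : ∀ᶠ n : ℕ in atTop, |kSum k n /
    (Real.exp 1 * ((Nat.bell (k * n) : ℝ) / ((k ! : ℝ) ^ n * (n ! : ℝ)) *
      Real.exp (-(((k : ℝ) - 1) * lamW ((k * n : ℕ) : ℝ) / 2)))) - 1| ≤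
      (2 * Ck k + 1) * ((k * n : ℕ) : ℝ) ^ (-(1 / 10) : ℝ) := by
  have hk0 : 0 < k := by omega
  have hkR : (3 : ℝ) ≤ k := by exact_mod_cast hk3
  have hwt : Tendsto (fun n : ℕ => lamW ((k * n : ℕ) : ℝ)) atTop atTop := by
    apply tendsto_lamW.comp
    apply tendsto_natCast_atTop_atTop.comp
    exact tendsto_id.const_mul_atTop' hk0
  apply Pool.Agent.Y349.OC.ratio_rate (Ck_nonneg k) hwt (N := fun n : ℕ => ((k * n : ℕ) : ℝ))
  · filter_upwards [eventually_gt_atTop 0] with n hn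
    exact ⟨by exact_mod_cast Nat.mul_pos hk0 hn, lamW_eq (by positivity)⟩
  filter_upwards [hwt.eventually_ge_atTop 16,
    hwt.eventually_ge_atTop (4 * (2 * (k : ℝ) ^ 2 + 2 ^ k * (k ! : ℝ))),
    eventually_gt_atTop 0] with n hw hwk hn
  set w := lamW ((k * n : ℕ) : ℝ) with hwdef
  have hN : w * Real.exp w = ((k * n : ℕ) : ℝ) := lamW_eq (by positivity)
  obtain ⟨hδ1, hμδ⟩ := window_params hw
  have htail := window_tail (N := k * n) (by linarith) hN (Real.exp_pos _) hδ1 hμδ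
  set S := ∑' m, dob (k * n) m with hS
  have hSpos : 0 < S := (summable_dob _).tsum_pos (dob_nonneg _) 1 (dob_pos _ one_pos)
  set c := Real.exp (-(((k : ℝ) - 1) * w / 2)) with hc
  have hcpos : 0 < c := Real.exp_pos _
  have havg := avg_bounds (dob (k * n)) (hk k n)
    (fun m : ℕ => |(m:ℝ) - Real.exp w| ≤ 3 * (Real.exp w * Real.exp (-(w / 4))))
    (dob_nonneg _) (summable_dob _) hS.symm (hk_nonneg k n) (hk_le_one k n) hcpos.le htail
    (fun m hm => hk_window hk3 hw hwk hN hm)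
  set η := 4 / Real.exp (-(w / 4)) * Real.exp (-(Real.exp w * Real.exp (-(w / 4)) ^ 2)) with hη
  have hη2 := eta_le (w := w)
  rw [← hη] at hη2
  have hη0 : 0 ≤ η := by rw [hη]; positivity
  have hE0 := tailErr_nonneg w
  have hηE : η ≤ tailErr w := by
    have : Real.exp (-w ^ 2) ≤ 1 := by
      rw [Real.exp_le_one_iff]; nlinarith
    nlinarith
  have hηc : η ≤ tailErr w * c := by
    have h1 : Real.exp (-w ^ 2) ≤ c := by
      rw [hc]; apply Real.exp_le_exp.2
      have : (k : ℝ) ≤ w := by nlinarith [show (0:ℝ) ≤ 2 ^ k * (k ! : ℝ) by positivity]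
      nlinarith
    nlinarith
  have hgs : kSum k n / (Real.exp 1 * ((Nat.bell (k * n) : ℝ) / ((k ! : ℝ) ^ n * (n ! : ℝ)) * c)) =
      (∑' m, hk k n m * dob (k * n) m) / (c * S) := by
    rw [kSum_eq hk0 hn, hS, tsum_dob]
    have hb : (Nat.bell (k * n) : ℝ) ≠ 0 := by exact_mod_cast (bell_pos _).ne'
    have hn' : (n ! : ℝ) ≠ 0 := by positivity
    have hk' : (k ! : ℝ) ≠ 0 := by positivity
    field_simp
  rw [hgs]
  constructor
  · rw [le_div_iff₀ (by positivity)]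
    calc _ ≤ Real.exp (-(Ck k * (w ^ 3 * Real.exp (-(w / 4))))) * (1 - η) * (c * S) := by
          gcongr
      _ = c * Real.exp (-(Ck k * (w ^ 3 * Real.exp (-(w / 4))))) * (1 - η) * S := by ring
      _ ≤ _ := havg.1
  · rw [div_le_iff₀ (by positivity)]
    refine havg.2.trans ?_
    calc (c * Real.exp (Ck k * (w ^ 3 * Real.exp (-(w / 4)))) + η) * S
        ≤ (c * Real.exp (Ck k * (w ^ 3 * Real.exp (-(w / 4)))) + tailErr w * c) * S := by gcongr
      _ = _ := by ring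

end Pool.Agent.KS6_8.HG
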