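import Pool.Agent.KS6_8.HG.Inv

/-!
# Bounds for Bell numbers and for sums over permutations
-/

set_option autoImplicit false

namespace Pool.Agent.KS6_8.HG

open Finset Nat Filter Topology Pool.Agent.H244R2

/-- lower bound for the Bell numbers -/
lemma pow_le_bell : ∀ᶠ n : ℕ in atTop, (tt n ^ 14) ^ n ≤ (Nat.bell n : ℝ) := by
  have h1 : Tendsto (fun n => Real.log (tt n)) atTop atTop := Real.tendsto_log_atTop.comp tt_tendsto
  filter_upwards [tt_tendsto.eventually_ge_atTop 10, h1.eventually_ge_atTop 4,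
    eventually_gt_atTop 0] with n ht hlog hn
  set t := tt n with htd
  have hnt : (n:ℝ) = t ^ 20 := (tt_pow n).symm
  have ht0 : 0 < t := by linarith
  have hn1 : (1:ℝ) ≤ n := by exact_mod_cast hn
  set r := ⌈t ^ 16⌉₊ with hr
  have hr1 : t ^ 16 ≤ r := Nat.le_ceil _
  have ht16 : (1:ℝ) ≤ t ^ 16 := one_le_pow₀ (by linarith)
  have hr2 : (r:ℝ) ≤ 2 * t ^ 16 := by
    have := Nat.ceil_lt_add_one (show 0 ≤ t ^ 16 by positivity)
    linarith
  have hrpos : (0:ℝ) < r := by linarith
  have hfac : (r ! : ℝ) ≤ Real.exp (34 * (t ^ 16 * Real.log t)) := by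
    calc (r ! : ℝ) ≤ (r:ℝ) ^ r := by exact_mod_cast Nat.factorial_le_pow r
      _ = Real.exp (r * Real.log r) := by
          rw [mul_comm, Real.exp_mul, Real.exp_log hrpos, Real.rpow_natCast]
      _ ≤ Real.exp (34 * (t ^ 16 * Real.log t)) := by
          apply Real.exp_le_exp.2
          have h2 : Real.log r ≤ 17 * Real.log t := by
            calc Real.log r ≤ Real.log (t ^ 17) := by
                  apply Real.log_le_log hrpos
                  calc (r:ℝ) ≤ 2 * t ^ 16 := hr2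
                    _ ≤ t * t ^ 16 := by gcongr; linarith
                    _ = t ^ 17 := by ring
              _ = 17 * Real.log t := by rw [Real.log_pow]; norm_num
          calc (r:ℝ) * Real.log r ≤ (2 * t ^ 16) * (17 * Real.log t) := by
                apply mul_le_mul hr2 h2 _ (by positivity)
                apply Real.log_nonneg
                linarith
            _ = _ := by ring
  have hg : dob n r ≤ Real.exp 1 * (Nat.bell n : ℝ) := by
    rw [← tsum_dob]
    exact (summable_dob n).le_tsum r (fun j _ => dob_nonneg n j)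
  have h3 : Real.exp 1 * (t ^ 14) ^ n ≤ dob n r := by
    unfold dob
    rw [le_div_iff₀ (by positivity)]
    have h4 : (t ^ 16) ^ n ≤ (r:ℝ) ^ n := pow_le_pow_left₀ (by positivity) hr1 n
    refine le_trans ?_ h4
    have h5 : (t ^ 14) ^ n = Real.exp (14 * (n * Real.log t)) := by
      have : (14 * (n * Real.log t)) = n * (14 * Real.log t) := by ring
      rw [this, Real.exp_nat_mul]
      congr 1
      rw [← Real.log_rpow ht0, Real.exp_log (by positivity)]
      norm_cast
    have h6 : (t ^ 16) ^ n = Real.exp (16 * (n * Real.log t)) := by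
      have : (16 * (n * Real.log t)) = n * (16 * Real.log t) := by ring
      rw [this, Real.exp_nat_mul]
      congr 1
      rw [← Real.log_rpow ht0, Real.exp_log (by positivity)]
      norm_cast
    rw [h5, h6]
    calc Real.exp 1 * Real.exp (14 * (n * Real.log t)) * (r ! : ℝ)
        ≤ Real.exp 1 * Real.exp (14 * (n * Real.log t)) *
            Real.exp (34 * (t ^ 16 * Real.log t)) := by gcongr
      _ = Real.exp (1 + 14 * (n * Real.log t) + 34 * (t ^ 16 * Real.log t)) := by
          rw [Real.exp_add, Real.exp_add]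
      _ ≤ Real.exp (16 * (n * Real.log t)) := by
          apply Real.exp_le_exp.2
          have h7 : t ^ 16 * 100 ≤ n := by
            rw [hnt]
            have : (100:ℝ) ≤ t ^ 4 := by
              calc (100:ℝ) ≤ 10 ^ 4 := by norm_num
                _ ≤ t ^ 4 := pow_le_pow_left₀ (by norm_num) ht 4
            calc t ^ 16 * 100 ≤ t ^ 16 * t ^ 4 := by gcongr
              _ = _ := by ring
          have h8 : t ^ 16 * 100 * Real.log t ≤ n * Real.log t := by
            apply mul_le_mul_of_nonneg_right h7 (by linarith)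
          have h9 : 4 ≤ n * Real.log t := by nlinarith
          have h10 : 0 ≤ t ^ 16 * Real.log t := by positivity
          linarith
  have h4 := h3.trans hg
  exact le_of_mul_le_mul_left h4 (Real.exp_pos 1)

/-- shifting the index of a Bell number -/
lemma bell_shift : ∀ᶠ n : ℕ in atTop, ∀ d ≤ n,
    (Nat.bell (n - d) : ℝ) ≤ 2 * (Nat.bell n : ℝ) / (tt n ^ 14) ^ d := by
  filter_upwards [pow_le_bell, tt_tendsto.eventually_ge_atTop 10] with n hn ht d hd
  set M := tt n ^ 14 with hM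
  have hM0 : 0 < M := by rw [hM]; positivity
  have hE : Summable (fun k : ℕ => (1:ℝ) / (k ! : ℝ)) := by
    have := Real.summable_pow_div_factorial 1
    refine this.congr (fun k => ?_)
    rw [one_pow]
  have hE1 : ∑' k : ℕ, (1:ℝ) / (k ! : ℝ) = Real.exp 1 := by
    rw [Real.exp_eq_exp_ℝ, NormedSpace.exp_eq_tsum_div]
    simp
  have key : ∀ m : ℕ, dob (n - d) m ≤ (1 / M ^ d) * dob n m + (M ^ n / M ^ d) * (1 / (m ! : ℝ)) := by
    intro m
    unfold dob
    have hm0 : (0 : ℝ) ≤ m := Nat.cast_nonneg _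
    have hnd : n = (n - d) + d := by omega
    rcases le_or_gt (m : ℝ) M with h | h
    · have h1 : (m : ℝ) ^ (n - d) ≤ M ^ n / M ^ d := by
        rw [le_div_iff₀ (by positivity)]
        calc (m : ℝ) ^ (n - d) * M ^ d ≤ M ^ (n - d) * M ^ d := by gcongr
          _ = M ^ n := by rw [← pow_add, ← hnd]
      have h2 : (m : ℝ) ^ (n - d) / (m ! : ℝ) ≤ (M ^ n / M ^ d) * (1 / (m ! : ℝ)) := by
        rw [mul_one_div]; gcongr
      have h3 : 0 ≤ (1 / M ^ d) * ((m : ℝ) ^ n / (m ! : ℝ)) := by positivity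
      linarith
    · have h1 : (m : ℝ) ^ (n - d) ≤ (m : ℝ) ^ n / M ^ d := by
        rw [le_div_iff₀ (by positivity)]
        calc (m : ℝ) ^ (n - d) * M ^ d ≤ (m : ℝ) ^ (n - d) * (m : ℝ) ^ d := by gcongr
          _ = (m : ℝ) ^ n := by rw [← pow_add, ← hnd]
      have h2 : (m : ℝ) ^ (n - d) / (m ! : ℝ) ≤ (1 / M ^ d) * ((m : ℝ) ^ n / (m ! : ℝ)) := by
        calc (m : ℝ) ^ (n - d) / (m ! : ℝ) ≤ ((m : ℝ) ^ n / M ^ d) / (m ! : ℝ) := by gcongr
          _ = _ := by ring
      have h3 : 0 ≤ (M ^ n / M ^ d) * (1 / (m ! : ℝ)) := by positivity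
      linarith
  have h1 : Real.exp 1 * (Nat.bell (n - d) : ℝ) ≤
      (1 / M ^ d) * (Real.exp 1 * (Nat.bell n : ℝ)) + (M ^ n / M ^ d) * Real.exp 1 := by
    rw [← tsum_dob, ← tsum_dob, ← hE1, ← tsum_mul_left, ← tsum_mul_left,
      ← Summable.tsum_add ((summable_dob n).mul_left _) (hE.mul_left _)]
    exact Summable.tsum_le_tsum key (summable_dob _)
      (((summable_dob n).mul_left _).add (hE.mul_left _))
  have h2 : M ^ n / M ^ d ≤ (Nat.bell n : ℝ) / M ^ d := by gcongr
  have h3 : Real.exp 1 * (Nat.bell (n - d) : ℝ) ≤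
      Real.exp 1 * (2 * (Nat.bell n : ℝ) / M ^ d) := by
    calc _ ≤ _ := h1
      _ ≤ (1 / M ^ d) * (Real.exp 1 * (Nat.bell n : ℝ)) + ((Nat.bell n : ℝ) / M ^ d) * Real.exp 1 := by
          gcongr
      _ = _ := by ring
  exact le_of_mul_le_mul_left h3 (Real.exp_pos 1)

/-- the number of invariant set partitions -/
noncomputable def PN {n : ℕ} (σ : Equiv.Perm (Fin n)) : ℕ := Nat.card {p : Setoid (Fin n) // PInv σ p}

/-- the bound for invariant set partitions -/
lemma PN_le : ∀ᶠ n : ℕ in atTop, ∀ σ : Equiv.Perm (Fin n),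
    (PN σ : ℝ) ≤ 2 * (Nat.bell n : ℝ) * (2 / tt n ^ 7) ^ σ.support.card := by
  filter_upwards [bell_shift, tt_tendsto.eventually_ge_atTop 10] with n hn ht σ
  obtain ⟨h1, h2, h3⟩ := card_inv_le σ
  rw [Fintype.card_fin] at h1 h2 h3
  set c := Nat.card (Cyc σ) with hc
  set d := n - c with hd
  have hcd : c = n - d := by omega
  set t := tt n with htd
  have ht0 : 0 < t := by linarith
  have hρ1 : 2 / t ^ 7 ≤ 1 := by
    rw [div_le_one (by positivity)]
    have : t ≤ t ^ 7 := le_self_pow₀ (by linarith) (by norm_num)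
    linarith
  have h4 := hn d (by omega)
  rw [← hcd] at h4
  calc (PN σ : ℝ) ≤ (Nat.bell c : ℝ) * 2 ^ d := by
        unfold PN
        exact_mod_cast h1
    _ ≤ (2 * (Nat.bell n : ℝ) / (t ^ 14) ^ d) * 2 ^ d := by gcongr
    _ = 2 * (Nat.bell n : ℝ) * (2 / t ^ 14) ^ d := by rw [div_pow]; ring
    _ ≤ 2 * (Nat.bell n : ℝ) * ((2 / t ^ 7) ^ 2) ^ d := by
        gcongr
        rw [div_pow, ← pow_mul]
        gcongr
        norm_num
    _ = 2 * (Nat.bell n : ℝ) * (2 / t ^ 7) ^ (2 * d) := by rw [← pow_mul]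
    _ ≤ _ := by
        apply mul_le_mul_of_nonneg_left _ (by positivity)
        exact pow_le_pow_of_le_one (by positivity) hρ1 h2

/-- summing a power of the size of the support -/
lemma sum_pow_support (n : ℕ) {y : ℝ} (hy : 0 ≤ y) :
    ∑ τ ∈ (univ : Finset (Equiv.Perm (Fin n))).erase 1, y ^ τ.support.card ≤
      ∑ s ∈ Finset.Icc 2 n, (n * y) ^ s := by
  have h := sum_perm_le (V := Fin n) (fun s => ((n.descFactorial s : ℕ) : ℝ) * y ^ s)
    (fun s => by positivity)
  rw [Fintype.card_fin] at h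
  have h1 : ∑ τ ∈ (univ : Finset (Equiv.Perm (Fin n))).erase 1,
      ((n - τ.support.card)! : ℝ) * (((n.descFactorial τ.support.card : ℕ) : ℝ) *
        y ^ τ.support.card) = (n ! : ℝ) *
      ∑ τ ∈ (univ : Finset (Equiv.Perm (Fin n))).erase 1, y ^ τ.support.card := by
    rw [Finset.mul_sum]
    apply Finset.sum_congr rfl
    intro τ _
    have h2 : τ.support.card ≤ n := by
      have := card_le_univ τ.support
      rwa [Fintype.card_fin] at this
    have h3 : ((n - τ.support.card)! : ℝ) * ((n.descFactorial τ.support.card : ℕ) : ℝ) = (n ! : ℝ) := by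
      exact_mod_cast Nat.factorial_mul_descFactorial h2
    rw [← mul_assoc, h3]
  rw [h1] at h
  have h2 := le_of_mul_le_mul_left h (by positivity : (0 : ℝ) < (n ! : ℝ))
  refine h2.trans ?_
  apply Finset.sum_le_sum
  intro s _
  rw [mul_pow]
  apply mul_le_mul_of_nonneg_right _ (by positivity)
  exact_mod_cast Nat.descFactorial_le_pow n s

/-- powers of the number of invariant set partitions, `k ≥ 3` -/
lemma sum_PN_pow {k : ℕ} (hk : 3 ≤ k) : ∀ᶠ n : ℕ in atTop,
    ∑ σ ∈ (univ : Finset (Equiv.Perm (Fin n))).erase 1, (PN σ : ℝ) ^ k ≤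
      (Nat.bell n : ℝ) ^ k * (2 ^ k * 128 / tt n ^ 2) := by
  filter_upwards [PN_le, tt_tendsto.eventually_ge_atTop 16] with n hn ht
  set t := tt n with htd
  have ht0 : 0 < t := by linarith
  have hnt : (n:ℝ) = t ^ 20 := (tt_pow n).symm
  set ρ := 2 / t ^ 7 with hρ
  have hρ0 : 0 < ρ := by positivity
  have hρ1 : ρ ≤ 1 := by
    rw [hρ, div_le_one (by positivity)]
    have : t ≤ t ^ 7 := le_self_pow₀ (by linarith) (by norm_num)
    linarith
  have h1 : ∀ σ : Equiv.Perm (Fin n), (PN σ : ℝ) ^ k ≤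
      (2 * (Nat.bell n : ℝ)) ^ k * (ρ ^ 3) ^ σ.support.card := by
    intro σ
    calc (PN σ : ℝ) ^ k ≤ (2 * (Nat.bell n : ℝ) * ρ ^ σ.support.card) ^ k :=
          pow_le_pow_left₀ (by positivity) (hn σ) k
      _ = (2 * (Nat.bell n : ℝ)) ^ k * (ρ ^ k) ^ σ.support.card := by
          rw [mul_pow, ← pow_mul, ← pow_mul, mul_comm k]
      _ ≤ _ := by
          gcongr ?_ * ?_ ^ _
          exact pow_le_pow_of_le_one hρ0.le hρ1 hk
  have h2 : ∑ s ∈ Finset.Icc 2 n, (n * ρ ^ 3) ^ s ≤ 2 * (n * ρ ^ 3) ^ 2 := by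
    apply sum_geom_tail (by positivity)
    rw [hρ, hnt]
    have : t ^ 20 * (2 / t ^ 7) ^ 3 = 8 / t := by field_simp; norm_num
    rw [this, div_le_iff₀ ht0]
    linarith
  have h3 : n * ρ ^ 3 = 8 / t := by
    rw [hρ, hnt]; field_simp; norm_num
  calc ∑ σ ∈ (univ : Finset (Equiv.Perm (Fin n))).erase 1, (PN σ : ℝ) ^ k
      ≤ ∑ σ ∈ (univ : Finset (Equiv.Perm (Fin n))).erase 1,
          (2 * (Nat.bell n : ℝ)) ^ k * (ρ ^ 3) ^ σ.support.card :=
        Finset.sum_le_sum (fun σ _ => h1 σ)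
    _ = (2 * (Nat.bell n : ℝ)) ^ k *
          ∑ σ ∈ (univ : Finset (Equiv.Perm (Fin n))).erase 1, (ρ ^ 3) ^ σ.support.card := by
        rw [Finset.mul_sum]
    _ ≤ (2 * (Nat.bell n : ℝ)) ^ k * (2 * (n * ρ ^ 3) ^ 2) := by
        gcongr
        exact (sum_pow_support n (by positivity)).trans h2
    _ = _ := by
        rw [h3]; field_simp; ring

/-- the sum of the numbers of invariant set partitions -/
lemma sum_PN : ∀ᶠ n : ℕ in atTop,
    ∑ σ : Equiv.Perm (Fin n), (PN σ : ℝ) ≤ (Nat.bell n : ℝ) ^ 2 * (1 / tt n ^ 2) := by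
  filter_upwards [PN_le, pow_le_bell, tt_tendsto.eventually_ge_atTop 16,
    eventually_ge_atTop 4] with n hn hbell ht hn4
  set t := tt n with htd
  have ht0 : 0 < t := by linarith
  have hnt : (n:ℝ) = t ^ 20 := (tt_pow n).symm
  have hn4R : (4:ℝ) ≤ n := by exact_mod_cast hn4
  set ρ := 2 / t ^ 7 with hρ
  have hρ0 : 0 < ρ := by positivity
  set B := (Nat.bell n : ℝ) with hB
  have hnρ : n * ρ = 2 * t ^ 13 := by rw [hρ, hnt]; field_simp
  have hx1 : 1 ≤ 2 * t ^ 13 := by
    have : 1 ≤ t ^ 13 := one_le_pow₀ (by linarith)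
    linarith
  have hpos : 0 < (t ^ 14) ^ n := by positivity
  have hBpos : 0 < B := lt_of_lt_of_le hpos hbell
  have h1 : ∑ s ∈ Finset.Icc 2 n, (n * ρ) ^ s ≤ n * (2 * t ^ 13) ^ n := by
    rw [hnρ]
    calc ∑ s ∈ Finset.Icc 2 n, (2 * t ^ 13) ^ s ≤ ∑ s ∈ Finset.Icc 2 n, (2 * t ^ 13) ^ n := by
          apply Finset.sum_le_sum
          intro s hs
          exact pow_le_pow_right₀ hx1 (mem_Icc.1 hs).2
      _ = ((n + 1 - 2 : ℕ) : ℝ) * (2 * t ^ 13) ^ n := by
          rw [sum_const, Nat.card_Icc, nsmul_eq_mul]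
      _ ≤ _ := by
          apply mul_le_mul_of_nonneg_right _ (by positivity)
          exact_mod_cast (by omega : n + 1 - 2 ≤ n)
  have h2 : ∑ σ : Equiv.Perm (Fin n), (PN σ : ℝ) ≤ 2 * B + 2 * B * (n * (2 * t ^ 13) ^ n) := by
    rw [← Finset.add_sum_erase _ _ (mem_univ (1 : Equiv.Perm (Fin n)))]
    apply _root_.add_le_add
    · have := hn 1
      simpa using this
    · calc ∑ σ ∈ (univ : Finset (Equiv.Perm (Fin n))).erase 1, (PN σ : ℝ)
          ≤ ∑ σ ∈ (univ : Finset (Equiv.Perm (Fin n))).erase 1, 2 * B * ρ ^ σ.support.card :=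
            Finset.sum_le_sum (fun σ _ => hn σ)
        _ = 2 * B * ∑ σ ∈ (univ : Finset (Equiv.Perm (Fin n))).erase 1, ρ ^ σ.support.card := by
            rw [Finset.mul_sum]
        _ ≤ _ := by
            gcongr
            exact (sum_pow_support n hρ0.le).trans h1
  refine h2.trans ?_
  -- compare with the Bell number
  have h3 : 2 + 2 * (n * (2 * t ^ 13) ^ n) ≤ B * (1 / t ^ 2) := by
    have h4 : (t ^ 14) ^ n * (1 / t ^ 2) ≤ B * (1 / t ^ 2) := by gcongr
    refine le_trans ?_ h4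
    have h5 : (t ^ 14) ^ n = (2 * t ^ 13) ^ n * (t / 2) ^ n := by
      rw [← mul_pow]; congr 1; ring
    have h6 : 4 * (n:ℝ) ^ 2 ≤ (t / 2) ^ n := by
      calc 4 * (n:ℝ) ^ 2 ≤ 8 ^ n := by
            have h7 : ∀ m : ℕ, 4 ≤ m → 4 * m ^ 2 ≤ 8 ^ m := by
              intro m hm
              induction m, hm using Nat.le_induction with
              | base => norm_num
              | succ m hm ih =>
                rw [pow_succ 8 m]
                nlinarith
            exact_mod_cast h7 n hn4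
        _ ≤ (t / 2) ^ n := pow_le_pow_left₀ (by norm_num) (by linarith) n
    have h7 : t ^ 2 ≤ n := by
      rw [hnt]
      exact pow_le_pow_right₀ (by linarith) (by norm_num)
    have h8 : 1 ≤ (2 * t ^ 13) ^ n := one_le_pow₀ hx1
    rw [mul_one_div, le_div_iff₀ (by positivity), h5]
    calc (2 + 2 * (n * (2 * t ^ 13) ^ n)) * t ^ 2
        ≤ (2 * (2 * t ^ 13) ^ n + 2 * (n * (2 * t ^ 13) ^ n)) * n := by
          gcongr
          linarith
      _ = (2 * t ^ 13) ^ n * (2 * n + 2 * n ^ 2) := by ring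
      _ ≤ (2 * t ^ 13) ^ n * (4 * (n:ℝ) ^ 2) := by
          gcongr
          nlinarith
      _ ≤ _ := by gcongr
  calc 2 * B + 2 * B * (n * (2 * t ^ 13) ^ n) = B * (2 + 2 * (n * (2 * t ^ 13) ^ n)) := by ring
    _ ≤ B * (B * (1 / t ^ 2)) := by gcongr
    _ = _ := by ring

end Pool.Agent.KS6_8.HG
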