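import Pool.Agent.KS6_8.HG.Asym

set_option autoImplicit false
set_option linter.unusedSectionVars false

namespace Pool.Agent.KS6_8.HG

open Finset Nat Pool.Agent.H244R2

section basics

variable {V : Type*} [DecidableEq V] {q : ℕ}

/-- graphs with `n` edges on the vertex set `S` -/
def KG (q : ℕ) (S : Finset V) (n : ℕ) : Finset (Finset (Finset V)) :=
  (S.powersetCard q).powersetCard n

lemma k_card_GG (S : Finset V) (n : ℕ) : (KG q S n).card = (S.card.choose q).choose n := by
  simp [KG]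

lemma k_mem_GG {S : Finset V} {n : ℕ} {E : Finset (Finset V)} :
    E ∈ KG q S n ↔ (∀ e ∈ E, e ⊆ S ∧ e.card = q) ∧ E.card = n := by
  simp only [KG, mem_powersetCard]
  constructor
  · rintro ⟨h1, h2⟩
    exact ⟨fun e he => mem_powersetCard.1 (h1 he), h2⟩
  · rintro ⟨h1, h2⟩
    exact ⟨fun e he => mem_powersetCard.2 (h1 e he), h2⟩

lemma k_U_subset {S : Finset V} {n : ℕ} {E : Finset (Finset V)} (h : E ∈ KG q S n) : U E ⊆ S := by
  intro v hv
  obtain ⟨e, he, hve⟩ := mem_U.1 hv
  exact ((k_mem_GG.1 h).1 e he).1 hve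

lemma k_card_U_le {E : Finset (Finset V)} (h : ∀ e ∈ E, e.card = q) : (U E).card ≤ q * E.card := by
  unfold U
  calc (E.biUnion id).card ≤ ∑ e ∈ E, (id e).card := card_biUnion_le
    _ = ∑ e ∈ E, q := Finset.sum_congr rfl (fun e he => h e he)
    _ = q * E.card := by rw [sum_const, smul_eq_mul, mul_comm]

lemma k_filter_U_eq {S T : Finset V} {n : ℕ} (hTS : T ⊆ S) :
    (KG q S n).filter (fun E => U E = T) = (KG q T n).filter (fun E => U E = T) := by
  ext E
  simp only [mem_filter, k_mem_GG]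
  constructor
  · rintro ⟨⟨h1, h2⟩, h3⟩
    refine ⟨⟨fun e he => ⟨?_, (h1 e he).2⟩, h2⟩, h3⟩
    intro v hv
    rw [← h3]
    exact mem_U.2 ⟨e, he, hv⟩
  · rintro ⟨⟨h1, h2⟩, h3⟩
    exact ⟨⟨fun e he => ⟨(h1 e he).1.trans hTS, (h1 e he).2⟩, h2⟩, h3⟩

lemma k_sum_GG_eq (S : Finset V) (n : ℕ) (g : ℕ → ℝ) :
    ∑ E ∈ KG q S n, g (U E).card =
      ∑ T ∈ S.powerset, (((KG q T n).filter (fun E => U E = T)).card : ℝ) * g T.card := by
  have hmaps : ∀ E ∈ KG q S n, U E ∈ S.powerset := fun E hE => mem_powerset.2 (k_U_subset hE)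
  rw [← Finset.sum_fiberwise_of_maps_to hmaps]
  apply Finset.sum_congr rfl
  intro T hT
  rw [k_filter_U_eq (mem_powerset.1 hT)]
  rw [Finset.sum_congr rfl (g := fun _ => g T.card)]
  · rw [sum_const, nsmul_eq_mul]
  · intro E hE
    rw [(mem_filter.1 hE).2]

/-- the numbers `C(C(k,2),n)` -/
noncomputable def kc (q n k : ℕ) : ℝ := ((k.choose q).choose n : ℝ)

lemma k_sum_cover (S : Finset V) (n : ℕ) :
    ∑ T ∈ S.powerset, (((KG q T n).filter (fun E => U E = T)).card : ℝ) = kc q n S.card := by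
  have := k_sum_GG_eq (q := q) S n (fun _ => 1)
  simp only [mul_one, sum_const, nsmul_eq_mul] at this
  rw [← this, k_card_GG]
  rfl

lemma k_card_cover (S : Finset V) (n : ℕ) :
    (((KG q S n).filter (fun E => U E = S)).card : ℝ) = Lrec (kc q n) S.card :=
  eq_Lrec (kc q n) (fun S => (((KG q S n).filter (fun E => U E = S)).card : ℝ))
    (fun S => k_sum_cover S n) S

end basics

lemma k_L_nonneg (q n k : ℕ) : 0 ≤ Lrec (kc q n) k := by
  have := k_card_cover (q := q) (univ : Finset (Fin k)) n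
  rw [Finset.card_univ, Fintype.card_fin] at this
  rw [← this]
  positivity

lemma k_L_zero {q n k : ℕ} (h : q * n < k) : Lrec (kc q n) k = 0 := by
  have := k_card_cover (q := q) (univ : Finset (Fin k)) n
  rw [Finset.card_univ, Fintype.card_fin] at this
  rw [← this]
  rw [Nat.cast_eq_zero, Finset.card_eq_zero, filter_eq_empty_iff]
  intro E hE hU
  have h1 := k_card_U_le (fun e he => ((k_mem_GG.1 hE).1 e he).2)
  rw [hU, Finset.card_univ, Fintype.card_fin, (k_mem_GG.1 hE).2] at h1
  exact absurd h (not_lt.2 h1)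

lemma k_gSum_eq_L (q n : ℕ) : kSum q n =
    Real.exp 1 * ∑ k ∈ range (q * n + 1), Lrec (kc q n) k / (k ! : ℝ) := by
  have hz : ∀ k ∉ range (q * n + 1), Lrec (kc q n) k / (k ! : ℝ) = 0 := by
    intro k hk
    rw [mem_range] at hk
    rw [k_L_zero (by omega), zero_div]
  have hs : Summable (fun k => ‖Lrec (kc q n) k / (k ! : ℝ)‖) := by
    apply summable_of_ne_finset_zero (s := range (q * n + 1))
    intro k hk
    rw [hz k hk, norm_zero]
  have := (tsum_c_div_factorial (kc q n) hs).1
  rw [tsum_eq_sum hz] at this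
  rw [← this]
  rfl

section sums

variable {V : Type*} [DecidableEq V] {q : ℕ}

/-- the main sum, exactly -/
lemma k_main_sum (S : Finset V) (n : ℕ) (hS : q * n ≤ S.card) :
    ∑ E ∈ KG q S n, ((S.card - (U E).card)! : ℝ) = (S.card ! : ℝ) * (kSum q n / Real.exp 1) := by
  rw [k_sum_GG_eq S n (fun k => ((S.card - k)! : ℝ))]
  have h1 : ∀ T ∈ S.powerset, (((KG q T n).filter (fun E => U E = T)).card : ℝ) *
      ((S.card - T.card)! : ℝ) = (fun k => Lrec (kc q n) k * ((S.card - k)! : ℝ)) T.card := by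
    intro T _
    rw [k_card_cover]
  rw [Finset.sum_congr rfl h1,
    Finset.sum_powerset_apply_card (fun k => Lrec (kc q n) k * ((S.card - k)! : ℝ)), k_gSum_eq_L,
    mul_div_cancel_left₀ _ (Real.exp_pos 1).ne']
  have h2 : ∑ k ∈ range (q * n + 1), Lrec (kc q n) k / (k ! : ℝ) =
      ∑ k ∈ range (S.card + 1), Lrec (kc q n) k / (k ! : ℝ) := by
    apply Finset.sum_subset
    · intro k hk
      rw [mem_range] at *
      omega
    · intro k _ hk
      rw [mem_range] at hk
      rw [k_L_zero (by omega), zero_div]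
  rw [h2, Finset.mul_sum]
  apply Finset.sum_congr rfl
  intro k hk
  rw [mem_range] at hk
  rw [nsmul_eq_mul]
  have := choose_mul_factorial_div (show k ≤ S.card by omega)
  calc (S.card.choose k : ℝ) * (Lrec (kc q n) k * ((S.card - k)! : ℝ))
      = ((S.card.choose k : ℝ) * ((S.card - k)! : ℝ)) * Lrec (kc q n) k := by ring
    _ = _ := by rw [this]; ring

/-- the same sum, as an inequality without the size condition -/
lemma k_sub_sum (hq : 0 < q) (S : Finset V) (n : ℕ) :
    ∑ E ∈ KG q S n, ((S.card - (U E).card)! : ℝ) ≤ (S.card ! : ℝ) * kSum q n := by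
  rw [k_sum_GG_eq S n (fun k => ((S.card - k)! : ℝ))]
  have h1 : ∀ T ∈ S.powerset, (((KG q T n).filter (fun E => U E = T)).card : ℝ) *
      ((S.card - T.card)! : ℝ) ≤ (fun k => kc q n k * ((S.card - k)! : ℝ)) T.card := by
    intro T _
    have : (((KG q T n).filter (fun E => U E = T)).card : ℝ) ≤ kc q n T.card := by
      unfold kc
      rw [← k_card_GG]
      exact_mod_cast card_filter_le _ _
    simp only
    gcongr
  refine (Finset.sum_le_sum h1).trans ?_
  rw [Finset.sum_powerset_apply_card (fun k => kc q n k * ((S.card - k)! : ℝ))]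
  have h2 : ∑ m ∈ range (S.card + 1), S.card.choose m • (kc q n m * ((S.card - m)! : ℝ)) =
      (S.card ! : ℝ) * ∑ m ∈ range (S.card + 1), kTerm q n m := by
    rw [Finset.mul_sum]
    apply Finset.sum_congr rfl
    intro k hk
    rw [mem_range] at hk
    rw [nsmul_eq_mul]
    have := choose_mul_factorial_div (show k ≤ S.card by omega)
    calc (S.card.choose k : ℝ) * (kc q n k * ((S.card - k)! : ℝ))
        = ((S.card.choose k : ℝ) * ((S.card - k)! : ℝ)) * kc q n k := by ring
      _ = _ := by rw [this]; unfold kc kTerm; ring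
  rw [h2]
  apply mul_le_mul_of_nonneg_left _ (by positivity)
  exact (summable_kTerm hq n).sum_le_tsum _ (fun i _ => kTerm_nonneg q n i)

end sums

end Pool.Agent.KS6_8.HG
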