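import Pool.Agent.KS6_8.HG.Err

set_option autoImplicit false
set_option linter.unusedSectionVars false

namespace Pool.Agent.KS6_8.HG

open Finset Nat Pool.Agent.H244R2

section

variable {V : Type*} [DecidableEq V] [Fintype V] {q : ℕ}

lemma k_QT_image (τ : Equiv.Perm V) :
    (KQ q τ.support).image (Equiv.finsetCongr τ) = KQ q τ.support := by
  ext e
  simp only [KQ, mem_image, mem_filter, mem_powersetCard, Equiv.finsetCongr_apply]
  constructor
  · rintro ⟨f, ⟨⟨_, hf2⟩, hf3⟩, rfl⟩
    refine ⟨⟨subset_univ _, by simpa using hf2⟩, ?_⟩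
    rw [disjoint_map_support]; exact hf3
  · rintro ⟨⟨_, h2⟩, h3⟩
    refine ⟨e.map τ.symm.toEmbedding, ⟨⟨subset_univ _, by simpa using h2⟩, ?_⟩, ?_⟩
    · rw [← disjoint_map_support (τ := τ)]
      convert h3
      rw [Finset.map_map]
      ext v; simp
    · rw [Finset.map_map]
      ext v; simp

lemma choose_le_pow' (K r : ℕ) : K.choose r ≤ K ^ r := by
  refine le_trans ?_ (Nat.descFactorial_le_pow K r)
  rw [Nat.descFactorial_eq_factorial_mul_choose]
  exact Nat.le_mul_of_pos_left _ (Nat.factorial_pos r)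

lemma k_card_fixed_le (hq : 2 ≤ q) (τ : Equiv.Perm V) :
    ((KQ q τ.support).filter (fun e => Equiv.finsetCongr τ e = e)).card ≤
      τ.support.card * Fintype.card V ^ (q - 2) := by
  calc ((KQ q τ.support).filter (fun e => Equiv.finsetCongr τ e = e)).card
      ≤ ((τ.support ×ˢ (univ : Finset V).powersetCard (q - 2)).image
          (fun p => insert p.1 (insert (τ p.1) p.2))).card := by
        apply card_le_card
        intro e he
        rw [mem_filter, KQ, mem_filter, mem_powersetCard, Equiv.finsetCongr_apply] at he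
        obtain ⟨⟨⟨_, h2⟩, h3⟩, h4⟩ := he
        rw [Finset.not_disjoint_iff] at h3
        obtain ⟨v, hv1, hv2⟩ := h3
        have hv3 : τ v ∈ e := by
          rw [← h4]; simpa using hv1
        have hne : v ≠ τ v := fun h => (Equiv.Perm.mem_support.1 hv2) h.symm
        rw [mem_image]
        refine ⟨(v, (e.erase v).erase (τ v)), ?_, ?_⟩
        · rw [mem_product, mem_powersetCard]
          refine ⟨hv2, subset_univ _, ?_⟩
          rw [card_erase_of_mem (mem_erase.2 ⟨hne.symm, hv3⟩), card_erase_of_mem hv1, h2]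
          omega
        · simp only
          rw [insert_erase (mem_erase.2 ⟨hne.symm, hv3⟩), insert_erase hv1]
    _ ≤ (τ.support ×ˢ (univ : Finset V).powersetCard (q - 2)).card := card_image_le
    _ = τ.support.card * (Fintype.card V).choose (q - 2) := by
        rw [card_product, card_powersetCard, Finset.card_univ]
    _ ≤ _ := Nat.mul_le_mul_left _ (choose_le_pow' _ _)

lemma k_card_QT_le (hq : 1 ≤ q) (T : Finset V) :
    (KQ q T).card ≤ T.card * Fintype.card V ^ (q - 1) := by
  calc (KQ q T).card ≤ ((T ×ˢ (univ : Finset V).powersetCard (q - 1)).image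
          (fun p => insert p.1 p.2)).card := by
        apply card_le_card
        intro e he
        simp only [KQ, mem_filter, mem_powersetCard] at he
        obtain ⟨⟨_, h2⟩, h3⟩ := he
        rw [Finset.not_disjoint_iff] at h3
        obtain ⟨v, hv1, hv2⟩ := h3
        rw [mem_image]
        refine ⟨(v, e.erase v), ?_, ?_⟩
        · rw [mem_product, mem_powersetCard]
          refine ⟨hv2, subset_univ _, ?_⟩
          rw [card_erase_of_mem hv1, h2]
        · simp only
          rw [insert_erase hv1]
    _ ≤ (T ×ˢ (univ : Finset V).powersetCard (q - 1)).card := card_image_le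
    _ = T.card * (Fintype.card V).choose (q - 1) := by
        rw [card_product, card_powersetCard, Finset.card_univ]
    _ ≤ _ := Nat.mul_le_mul_left _ (choose_le_pow' _ _)

/-- the exponent of the generating function of invariant edge sets -/
noncomputable def gex (q K : ℕ) (z : ℝ) : ℝ := (K : ℝ) ^ (q - 2) * z + (K : ℝ) ^ (q - 1) * z ^ 2 / 2

/-- generating function of invariant edge sets -/
lemma k_inv_bound (hq : 2 ≤ q) (τ : Equiv.Perm V) {z : ℝ} (hz : 0 ≤ z) :
    ∑ E ∈ invSets (Equiv.finsetCongr τ) (KQ q τ.support), z ^ E.card ≤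
      Real.exp (τ.support.card * gex q (Fintype.card V) z) := by
  refine (invSets_sum_le (Equiv.finsetCongr τ) hz _ (k_QT_image τ)).trans ?_
  unfold gex
  set s := τ.support.card with hs
  set K := Fintype.card V with hK
  have h1 : (1 + z) ^ ((KQ q τ.support).filter (fun e => Equiv.finsetCongr τ e = e)).card ≤
      Real.exp (s * ((K : ℝ) ^ (q - 2) * z)) := by
    calc (1 + z) ^ ((KQ q τ.support).filter (fun e => Equiv.finsetCongr τ e = e)).card
        ≤ (1 + z) ^ (s * K ^ (q - 2)) :=
          pow_le_pow_right₀ (by linarith) (k_card_fixed_le hq τ)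
      _ ≤ (Real.exp z) ^ (s * K ^ (q - 2)) := by
          apply pow_le_pow_left₀ (by linarith)
          linarith [Real.add_one_le_exp z]
      _ = Real.exp (s * ((K : ℝ) ^ (q - 2) * z)) := by
          rw [← Real.exp_nat_mul]; congr 1; push_cast; ring
  have hsq : Real.sqrt (1 + z ^ 2) ≤ Real.exp (z ^ 2 / 2) := by
    rw [Real.sqrt_le_left (Real.exp_pos _).le, ← Real.exp_nat_mul]
    have := Real.add_one_le_exp (z ^ 2)
    have h : ((2:ℕ):ℝ) * (z ^ 2 / 2) = z ^ 2 := by push_cast; ring
    rw [h]; linarith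
  have hsq1 : 1 ≤ Real.sqrt (1 + z ^ 2) := by
    rw [Real.one_le_sqrt]
    nlinarith [sq_nonneg z]
  have h2 : (Real.sqrt (1 + z ^ 2)) ^
      ((KQ q τ.support).filter (fun e => Equiv.finsetCongr τ e ≠ e)).card ≤
      Real.exp (s * ((K : ℝ) ^ (q - 1) * z ^ 2 / 2)) := by
    calc (Real.sqrt (1 + z ^ 2)) ^
          ((KQ q τ.support).filter (fun e => Equiv.finsetCongr τ e ≠ e)).card
        ≤ (Real.sqrt (1 + z ^ 2)) ^ (s * K ^ (q - 1)) :=
          pow_le_pow_right₀ hsq1 ((card_filter_le _ _).trans (k_card_QT_le (by omega) _))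
      _ ≤ (Real.exp (z ^ 2 / 2)) ^ (s * K ^ (q - 1)) := pow_le_pow_left₀ (Real.sqrt_nonneg _) hsq _
      _ = Real.exp (s * ((K : ℝ) ^ (q - 1) * z ^ 2 / 2)) := by
          rw [← Real.exp_nat_mul]; congr 1; push_cast; ring
  calc _ ≤ Real.exp (s * ((K : ℝ) ^ (q - 2) * z)) *
        Real.exp (s * ((K : ℝ) ^ (q - 1) * z ^ 2 / 2)) := by
        apply mul_le_mul h1 h2 (by positivity) (by positivity)
    _ = _ := by rw [← Real.exp_add]; congr 1; ring

/-- the contribution of a permutation, estimated -/
lemma k_CC_sum_le (hq2 : 2 ≤ q) (τ : Equiv.Perm V) (n : ℕ) {z v z₁ : ℝ} (hz : 0 < z) (hv : 1 ≤ v) (hz₁ : 0 < z₁)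
    (hz₁1 : z₁ ≤ 1) (R₀ : ℕ) (hR₀ : ∀ r, R₀ ≤ r → n ≤ r.choose q ∧
      (n : ℝ) ≤ (z / v ^ q) * (((r.choose q : ℕ) : ℝ) - n + 1)) :
    ∑ E ∈ KC q τ n, kSum q (n - E.card) ≤
      (v⁻¹) ^ τ.support.card * Real.exp (τ.support.card * gex q (Fintype.card V) z) * kSum q n +
      Real.exp 1 * ((z₁⁻¹) ^ n * (1 + z₁) ^ (R₀.choose q) *
        Real.exp (τ.support.card * gex q (Fintype.card V) z₁)) := by
  set s := τ.support.card with hs
  set K := Fintype.card V with hK
  set G := Real.exp (s * gex q K z) with hG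
  set G₁ := Real.exp (s * gex q K z₁) with hG₁
  have hq : 0 < q := by omega
  have hv0 : 0 < v := by linarith
  have hx0 : 0 ≤ z / v ^ q := by positivity
  have hCCsub : KC q τ n ⊆ invSets (Equiv.finsetCongr τ) (KQ q τ.support) := filter_subset _ _
  have hinv := k_inv_bound hq2 τ hz.le
  have hinv₁ := k_inv_bound hq2 τ hz₁.le
  -- pointwise in r
  have key : ∀ r : ℕ, ∑ E ∈ KC q τ n, kTerm q (n - E.card) r ≤
      (v⁻¹) ^ s * G * kTerm q n r + ((z₁⁻¹) ^ n * (1 + z₁) ^ (R₀.choose q) * G₁) * (1 / (r ! : ℝ)) := by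
    intro r
    by_cases hr : R₀ ≤ r
    · obtain ⟨h1, h2⟩ := hR₀ r hr
      have h3 : ∑ E ∈ KC q τ n, kTerm q (n - E.card) r ≤ (v⁻¹) ^ s * G * kTerm q n r := by
        calc ∑ E ∈ KC q τ n, kTerm q (n - E.card) r
            ≤ ∑ E ∈ KC q τ n, (kTerm q n r * (v⁻¹) ^ s) * z ^ E.card := by
              apply Finset.sum_le_sum
              intro E hE
              simp only [KC, mem_filter] at hE
              obtain ⟨_, hE2, hE3⟩ := hE
              have h4 := choose_sub_le hx0 h2 h1 E.card hE3
              unfold kTerm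
              have h5 : (z / v ^ q) ^ E.card ≤ (v⁻¹) ^ s * z ^ E.card := by
                rw [div_pow, ← pow_mul, div_eq_mul_inv, mul_comm, inv_pow]
                apply mul_le_mul_of_nonneg_right _ (by positivity)
                apply inv_anti₀ (by positivity)
                exact pow_le_pow_right₀ hv hE2
              calc (((r.choose q).choose (n - E.card) : ℕ) : ℝ) / (r ! : ℝ)
                  ≤ (((r.choose q).choose n : ℝ) * ((v⁻¹) ^ s * z ^ E.card)) / (r ! : ℝ) := by
                    gcongr
                    exact h4.trans (by gcongr)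
                _ = _ := by ring
          _ = (kTerm q n r * (v⁻¹) ^ s) * ∑ E ∈ KC q τ n, z ^ E.card := by rw [Finset.mul_sum]
          _ ≤ (kTerm q n r * (v⁻¹) ^ s) * G := by
              apply mul_le_mul_of_nonneg_left
              · refine le_trans ?_ hinv
                apply Finset.sum_le_sum_of_subset_of_nonneg hCCsub
                intros; positivity
              · have := kTerm_nonneg q n r
                positivity
          _ = _ := by ring
      have h6 : 0 ≤ ((z₁⁻¹) ^ n * (1 + z₁) ^ (R₀.choose q) * G₁) * (1 / (r ! : ℝ)) := by positivity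
      linarith
    · push Not at hr
      have h3 : ∑ E ∈ KC q τ n, kTerm q (n - E.card) r ≤
          ((z₁⁻¹) ^ n * (1 + z₁) ^ (R₀.choose q) * G₁) * (1 / (r ! : ℝ)) := by
        calc ∑ E ∈ KC q τ n, kTerm q (n - E.card) r
            ≤ ∑ E ∈ KC q τ n, ((z₁⁻¹) ^ n * (1 + z₁) ^ (R₀.choose q) * (1 / (r ! : ℝ))) *
                z₁ ^ E.card := by
              apply Finset.sum_le_sum
              intro E hE
              simp only [KC, mem_filter] at hE
              obtain ⟨_, hE2, hE3⟩ := hE
              have h4 := choose_mul_pow_le (r.choose q) (n - E.card) hz₁.le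
              have h5 : (1 + z₁) ^ (r.choose q) ≤ (1 + z₁) ^ (R₀.choose q) :=
                pow_le_pow_right₀ (by linarith) (Nat.choose_le_choose q hr.le)
              have h6 : (((r.choose q).choose (n - E.card) : ℕ) : ℝ) ≤
                  (z₁⁻¹) ^ n * (1 + z₁) ^ (R₀.choose q) * z₁ ^ E.card := by
                have h7 : (z₁⁻¹) ^ n * z₁ ^ E.card = (z₁ ^ (n - E.card))⁻¹ := by
                  rw [inv_pow]
                  have : z₁ ^ n = z₁ ^ (n - E.card) * z₁ ^ E.card := by
                    rw [← pow_add]; congr 1; omega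
                  rw [this]
                  field_simp
                calc (((r.choose q).choose (n - E.card) : ℕ) : ℝ)
                    ≤ (1 + z₁) ^ (R₀.choose q) * (z₁ ^ (n - E.card))⁻¹ := by
                      rw [← div_eq_mul_inv, le_div_iff₀ (by positivity)]
                      exact h4.trans h5
                  _ = _ := by rw [← h7]; ring
              unfold kTerm
              calc (((r.choose q).choose (n - E.card) : ℕ) : ℝ) / (r ! : ℝ)
                  ≤ ((z₁⁻¹) ^ n * (1 + z₁) ^ (R₀.choose q) * z₁ ^ E.card) / (r ! : ℝ) := by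
                    gcongr
                _ = _ := by ring
          _ = ((z₁⁻¹) ^ n * (1 + z₁) ^ (R₀.choose q) * (1 / (r ! : ℝ))) *
                ∑ E ∈ KC q τ n, z₁ ^ E.card := by rw [Finset.mul_sum]
          _ ≤ ((z₁⁻¹) ^ n * (1 + z₁) ^ (R₀.choose q) * (1 / (r ! : ℝ))) * G₁ := by
              apply mul_le_mul_of_nonneg_left
              · refine le_trans ?_ hinv₁
                apply Finset.sum_le_sum_of_subset_of_nonneg hCCsub
                intros; positivity
              · positivity
          _ = _ := by ring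
      have h6 : 0 ≤ (v⁻¹) ^ s * G * kTerm q n r := by
        have := kTerm_nonneg q n r
        positivity
      linarith
  have hE : Summable (fun k : ℕ => (1:ℝ) / (k ! : ℝ)) := by
    have := Real.summable_pow_div_factorial 1
    refine this.congr (fun k => ?_)
    rw [one_pow]
  have hE1 : ∑' k : ℕ, (1:ℝ) / (k ! : ℝ) = Real.exp 1 := by
    rw [Real.exp_eq_exp_ℝ, NormedSpace.exp_eq_tsum_div]
    simp
  have hsum1 : Summable (fun r => ∑ E ∈ KC q τ n, kTerm q (n - E.card) r) :=
    summable_sum (f := fun (E : Finset (Finset V)) r => kTerm q (n - E.card) r)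
      (fun E _ => summable_kTerm hq (n - E.card))
  have hsum2 : Summable (fun r => (v⁻¹) ^ s * G * kTerm q n r +
          ((z₁⁻¹) ^ n * (1 + z₁) ^ (R₀.choose q) * G₁) * (1 / (r ! : ℝ))) :=
    ((summable_kTerm hq n).mul_left _).add (hE.mul_left _)
  calc ∑ E ∈ KC q τ n, kSum q (n - E.card) = ∑' r, ∑ E ∈ KC q τ n, kTerm q (n - E.card) r := by
        exact (Summable.tsum_finsetSum (s := KC q τ n)
          (f := fun (E : Finset (Finset V)) r => kTerm q (n - E.card) r)
          (fun E _ => summable_kTerm hq (n - E.card))).symm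
    _ ≤ ∑' r, ((v⁻¹) ^ s * G * kTerm q n r +
          ((z₁⁻¹) ^ n * (1 + z₁) ^ (R₀.choose q) * G₁) * (1 / (r ! : ℝ))) := by
        exact Summable.tsum_le_tsum key hsum1 hsum2
    _ = _ := by
        rw [Summable.tsum_add ((summable_kTerm hq n).mul_left _) (hE.mul_left _), tsum_mul_left,
          tsum_mul_left, hE1]
        unfold kSum
        ring

end

end Pool.Agent.KS6_8.HG
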