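import Pool.Agent.KS6_8.HG.Err2

/-!
# Choice of the parameters: permutations other than the identity contribute little
-/

set_option autoImplicit false

namespace Pool.Agent.KS6_8.HG

open Finset Nat Filter Topology Pool.Agent.H244R2

lemma choose_lower {q r : ℕ} (h : 2 * q ≤ r) :
    (r : ℝ) ^ q ≤ 2 ^ q * (q ! : ℝ) * (r.choose q : ℝ) := by
  have h1 : r ^ q ≤ 2 ^ q * (q ! * r.choose q) := by
    calc r ^ q ≤ (2 * (r + 1 - q)) ^ q := Nat.pow_le_pow_left (by omega) _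
      _ = 2 ^ q * (r + 1 - q) ^ q := mul_pow _ _ _
      _ ≤ 2 ^ q * r.descFactorial q := Nat.mul_le_mul_left _ (Nat.pow_sub_le_descFactorial r q)
      _ = _ := by rw [Nat.descFactorial_eq_factorial_mul_choose]
  have h2 : ((r ^ q : ℕ) : ℝ) ≤ ((2 ^ q * (q ! * r.choose q) : ℕ) : ℝ) := by exact_mod_cast h1
  push_cast at h2
  linarith

/-- the constants -/
noncomputable def c1 (q : ℕ) : ℝ := 2 ^ (q + 1) * (q ! : ℝ)

noncomputable def Aq (q : ℕ) : ℝ := (q : ℝ) ^ q * c1 q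

/-- the scale -/
noncomputable def LL (q n : ℕ) : ℝ := Real.log n / (4 * q)

lemma c1_pos (q : ℕ) : 0 < c1 q := by unfold c1; positivity

lemma c1_ge {q : ℕ} (hq : 3 ≤ q) : (q : ℝ) ≤ c1 q ∧ 2 ≤ c1 q := by
  have h1 : (q : ℝ) ≤ (q ! : ℝ) := by exact_mod_cast Nat.self_le_factorial q
  have h2 : (2 : ℝ) ≤ 2 ^ (q + 1) := by
    calc (2:ℝ) = 2 ^ 1 := by norm_num
      _ ≤ 2 ^ (q + 1) := pow_le_pow_right₀ (by norm_num) (by omega)
  have h3 : (3 : ℝ) ≤ q := by exact_mod_cast hq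
  unfold c1
  constructor <;> nlinarith

lemma Aq_ge {q : ℕ} (hq : 3 ≤ q) : c1 q * (q : ℝ) ^ (q - 2) ≤ Aq q ∧ c1 q * (q : ℝ) ^ (q - 1) ≤ Aq q ∧
    8 * (q : ℝ) ≤ Aq q ∧ c1 q ≤ Aq q := by
  have h3 : (3 : ℝ) ≤ q := by exact_mod_cast hq
  have hc := c1_pos q
  obtain ⟨hc2, -⟩ := c1_ge hq
  have hp : ∀ a b : ℕ, a ≤ b → (q : ℝ) ^ a ≤ (q : ℝ) ^ b := fun a b hab =>
    pow_le_pow_right₀ (by linarith) hab
  unfold Aq
  refine ⟨?_, ?_, ?_, ?_⟩
  · rw [mul_comm]; exact mul_le_mul_of_nonneg_right (hp _ _ (by omega)) hc.le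
  · rw [mul_comm]; exact mul_le_mul_of_nonneg_right (hp _ _ (by omega)) hc.le
  · have h9 : (9 : ℝ) ≤ (q : ℝ) ^ q := by
      calc (9 : ℝ) ≤ (q : ℝ) ^ 2 := by nlinarith
        _ ≤ _ := hp _ _ (by omega)
    nlinarith
  · have h1 : (1 : ℝ) ≤ (q : ℝ) ^ q := one_le_pow₀ (by linarith)
    nlinarith

lemma LL_tendsto {q : ℕ} (hq : 3 ≤ q) : Tendsto (LL q) atTop atTop := by
  unfold LL
  apply Tendsto.atTop_div_const
  · have : (3 : ℝ) ≤ q := by exact_mod_cast hq
    positivity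
  · exact Real.tendsto_log_atTop.comp tendsto_natCast_atTop_atTop

lemma n_eq_exp {q n : ℕ} (hq : 3 ≤ q) (hn : 0 < n) : (n : ℝ) = Real.exp (4 * q * LL q n) := by
  have h3 : (3 : ℝ) ≤ q := by exact_mod_cast hq
  have hn' : (0 : ℝ) < n := by exact_mod_cast hn
  unfold LL
  rw [mul_div_cancel₀ _ (by positivity), Real.exp_log hn']

/-- lower bound for the main sum -/
lemma kSum_lower {q : ℕ} (hq : 3 ≤ q) : ∀ᶠ n : ℕ in atTop,
    Real.exp ((4 * (q:ℝ) ^ 2 - 5 * q - 2) * (n * LL q n)) ≤ kSum q n := by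
  have hqR : (3 : ℝ) ≤ q := by exact_mod_cast hq
  have hc1 := c1_pos q
  obtain ⟨hcq, hc2⟩ := c1_ge hq
  obtain ⟨-, -, hA8, hAc⟩ := Aq_ge hq
  filter_upwards [(LL_tendsto hq).eventually_ge_atTop (Aq q), eventually_gt_atTop 0] with n hL hn
  have hnR : (0 : ℝ) < n := by exact_mod_cast hn
  have hne := n_eq_exp hq hn
  set L := LL q n with hLd
  have hL1 : 24 ≤ L := by linarith
  have hL0 : 0 ≤ L := by linarith
  have heL : Aq q ≤ Real.exp L := by linarith [Real.add_one_le_exp L]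
  set T := Real.exp ((4 * q - 1) * L) with hT
  have hT0 : 0 < T := Real.exp_pos _
  have hLT : L ≤ (4 * q - 1) * L := by nlinarith
  have hTL : Real.exp L ≤ T := Real.exp_le_exp.2 hLT
  set r := ⌈T⌉₊ with hr
  have hr1 : T ≤ r := Nat.le_ceil _
  have hr2 : (r:ℝ) ≤ 2 * T := by
    have := Nat.ceil_lt_add_one hT0.le
    have : (1 : ℝ) ≤ T := by linarith
    linarith
  have hrpos : (0:ℝ) < r := by linarith
  have h2q : 2 * q ≤ r := by
    have : (2 * q : ℝ) ≤ r := by linarith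
    exact_mod_cast this
  set N := r.choose q with hN
  have hN1 : T ^ q ≤ 2 ^ q * (q ! : ℝ) * (N : ℝ) :=
    (pow_le_pow_left₀ hT0.le hr1 q).trans (choose_lower h2q)
  have hTq : T ^ q = n * Real.exp ((4 * (q:ℝ) ^ 2 - 5 * q) * L) := by
    rw [hT, ← Real.exp_nat_mul, hne, ← Real.exp_add]
    congr 1; ring
  have hexp1 : Real.exp L ≤ Real.exp ((4 * (q:ℝ) ^ 2 - 5 * q) * L) := by
    apply Real.exp_le_exp.2
    have : (1:ℝ) ≤ 4 * (q:ℝ) ^ 2 - 5 * q := by nlinarith
    nlinarith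
  set x := Real.exp ((4 * (q:ℝ) ^ 2 - 5 * q) * L) / c1 q with hx
  have hx1 : 1 ≤ x := by
    rw [hx, one_le_div hc1]; linarith
  have hx0 : 0 < x := by linarith
  have hNx : n * x ≤ (N : ℝ) / 2 := by
    have h1 : n * Real.exp ((4 * (q:ℝ) ^ 2 - 5 * q) * L) ≤ 2 ^ q * (q ! : ℝ) * N := by
      rw [← hTq]; exact hN1
    rw [hx, ← mul_div_assoc, div_le_iff₀ hc1]
    unfold c1
    calc _ ≤ 2 ^ q * (q ! : ℝ) * N := h1
      _ = _ := by ring
  have hnN : (n : ℝ) ≤ (N : ℝ) / 2 := by nlinarith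
  have hnN' : n ≤ N := by
    have : (n : ℝ) ≤ N := by linarith [Nat.cast_nonneg (α := ℝ) N]
    exact_mod_cast this
  have hch : x ^ n ≤ (N.choose n : ℝ) := by
    have h2 : ((N + 1 - n : ℕ) ^ n : ℝ) ≤ (n ! : ℝ) * (N.choose n : ℝ) := by
      have h3 := Nat.pow_sub_le_descFactorial N n
      rw [Nat.descFactorial_eq_factorial_mul_choose] at h3
      exact_mod_cast h3
    have h3 : (N : ℝ) / 2 ≤ ((N + 1 - n : ℕ) : ℝ) := by
      rw [Nat.cast_sub (by omega)]
      push_cast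
      linarith
    have h4 : (n ! : ℝ) ≤ (n:ℝ) ^ n := by exact_mod_cast Nat.factorial_le_pow n
    have h5 : (n * x) ^ n ≤ (n:ℝ) ^ n * (N.choose n : ℝ) := by
      calc (n * x) ^ n ≤ ((N + 1 - n : ℕ) ^ n : ℝ) := by
            apply pow_le_pow_left₀ (by positivity) (hNx.trans h3)
        _ ≤ (n ! : ℝ) * (N.choose n : ℝ) := h2
        _ ≤ _ := by gcongr
    rw [mul_pow] at h5
    exact le_of_mul_le_mul_left h5 (by positivity)
  have hfac : (r ! : ℝ) ≤ Real.exp (n * L) := by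
    calc (r ! : ℝ) ≤ (r:ℝ) ^ r := by exact_mod_cast Nat.factorial_le_pow r
      _ = Real.exp (r * Real.log r) := by
          rw [mul_comm, Real.exp_mul, Real.exp_log hrpos, Real.rpow_natCast]
      _ ≤ Real.exp (n * L) := by
          apply Real.exp_le_exp.2
          have h2 : Real.log r ≤ 4 * q * L := by
            calc Real.log r ≤ Real.log (Real.exp (4 * q * L)) := by
                  apply Real.log_le_log hrpos
                  calc (r:ℝ) ≤ 2 * T := hr2
                    _ ≤ Real.exp L * T := by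
                        apply mul_le_mul_of_nonneg_right _ hT0.le
                        linarith
                    _ = Real.exp (4 * q * L) := by
                        rw [hT, ← Real.exp_add]; congr 1; ring
              _ = 4 * q * L := Real.log_exp _
          have h5 : 0 ≤ Real.log r := Real.log_nonneg (by linarith)
          have h6 : (8 * q) * T ≤ n := by
            calc (8 * q) * T ≤ Real.exp L * T := by
                  apply mul_le_mul_of_nonneg_right _ hT0.le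
                  linarith
              _ = n := by
                  rw [hT, ← Real.exp_add, hne]; congr 1; ring
          calc (r:ℝ) * Real.log r ≤ (2 * T) * (4 * q * L) := by
                apply mul_le_mul hr2 h2 h5 (by positivity)
            _ = ((8 * q) * T) * L := by ring
            _ ≤ n * L := by gcongr
  have hg : (N.choose n : ℝ) / (r ! : ℝ) ≤ kSum q n :=
    (summable_kTerm (by omega) n).le_tsum r (fun j _ => kTerm_nonneg q n j)
  refine le_trans ?_ hg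
  rw [le_div_iff₀ (by positivity)]
  refine le_trans ?_ hch
  have hlog : Real.log (c1 q) ≤ L := by
    have := Real.log_le_sub_one_of_pos hc1
    linarith
  have h8 : x = Real.exp ((4 * (q:ℝ) ^ 2 - 5 * q) * L - Real.log (c1 q)) := by
    rw [Real.exp_sub, Real.exp_log hc1]
  calc Real.exp ((4 * (q:ℝ) ^ 2 - 5 * q - 2) * (n * L)) * (r ! : ℝ)
      ≤ Real.exp ((4 * (q:ℝ) ^ 2 - 5 * q - 2) * (n * L)) * Real.exp (n * L) := by gcongr
    _ = Real.exp ((4 * (q:ℝ) ^ 2 - 5 * q - 2) * (n * L) + n * L) := by rw [Real.exp_add]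
    _ ≤ Real.exp (n * ((4 * (q:ℝ) ^ 2 - 5 * q) * L - Real.log (c1 q))) := by
        apply Real.exp_le_exp.2
        have : (n:ℝ) * Real.log (c1 q) ≤ n * L := by gcongr
        nlinarith
    _ = x ^ n := by rw [h8, ← Real.exp_nat_mul]

/-- the bound on a single permutation -/
noncomputable def YY (q n s : ℕ) : ℝ :=
  (Real.exp 2 * Aq q / Real.exp (LL q n)) ^ s * kSum q n +
    Real.exp 1 * Real.exp ((4 * (q:ℝ) ^ 2 - 7 * q) * (n * LL q n) + 2 ^ q * n + 2 * s)

lemma Aq_pos (q : ℕ) : 0 ≤ Aq q := by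
  unfold Aq
  have := c1_pos q
  positivity

lemma YY_nonneg (q n s : ℕ) : 0 ≤ YY q n s := by
  unfold YY
  have := kSum_nonneg q n
  have h := Aq_pos q
  positivity

lemma KC_le_YY {q : ℕ} (hq : 3 ≤ q) : ∀ᶠ n : ℕ in atTop, ∀ τ : Equiv.Perm (Fin (q * n)),
    ∑ E ∈ KC q τ n, kSum q (n - E.card) ≤ YY q n τ.support.card := by
  have hqR : (3 : ℝ) ≤ q := by exact_mod_cast hq
  have hc1 := c1_pos q
  obtain ⟨hcq, hc2⟩ := c1_ge hq
  obtain ⟨hA2, hA1, hA8, hAc⟩ := Aq_ge hq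
  filter_upwards [(LL_tendsto hq).eventually_ge_atTop (Aq q), eventually_gt_atTop 0] with n hL hn
  intro τ
  have hnR : (0 : ℝ) < n := by exact_mod_cast hn
  have hne := n_eq_exp hq hn
  set L := LL q n with hLd
  have hL1 : 24 ≤ L := by linarith
  have hL0 : 0 ≤ L := by linarith
  have heL : Aq q ≤ Real.exp L := by linarith [Real.add_one_le_exp L]
  have hA0 : 0 < Aq q := by linarith
  have hA1' : 1 ≤ Aq q := by linarith
  set T := Real.exp ((4 * q - 3) * L) with hT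
  have hT0 : 0 < T := Real.exp_pos _
  have hLT : L ≤ (4 * q - 3) * L := by nlinarith
  have hTL : Real.exp L ≤ T := Real.exp_le_exp.2 hLT
  have hTq : T ^ q = n * Real.exp ((4 * (q:ℝ) ^ 2 - 7 * q) * L) := by
    rw [hT, ← Real.exp_nat_mul, hne, ← Real.exp_add]
    congr 1; ring
  have hexp1 : Real.exp L ≤ Real.exp ((4 * (q:ℝ) ^ 2 - 7 * q) * L) := by
    apply Real.exp_le_exp.2
    have : (1:ℝ) ≤ 4 * (q:ℝ) ^ 2 - 7 * q := by nlinarith
    nlinarith
  set K : ℝ := ((q * n : ℕ) : ℝ) with hK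
  have hKe : K = q * Real.exp (4 * q * L) := by rw [hK]; push_cast; rw [← hne]
  have hK1 : 1 ≤ K := by
    rw [hK]; push_cast
    have : (1 : ℝ) ≤ n := by exact_mod_cast hn
    nlinarith
  have hK0 : 0 < K := by linarith
  have hq2c : ((q - 2 : ℕ) : ℝ) = (q : ℝ) - 2 := by rw [Nat.cast_sub (by omega)]; norm_num
  have hq1c : ((q - 1 : ℕ) : ℝ) = (q : ℝ) - 1 := by rw [Nat.cast_sub (by omega)]; norm_num
  have hK2 : K ^ (q - 2) = (q : ℝ) ^ (q - 2) * Real.exp ((4 * (q:ℝ) ^ 2 - 8 * q) * L) := by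
    rw [hKe, mul_pow, ← Real.exp_nat_mul, hq2c]; congr 2; ring
  have hK11 : K ^ (q - 1) = (q : ℝ) ^ (q - 1) * Real.exp ((4 * (q:ℝ) ^ 2 - 4 * q) * L) := by
    rw [hKe, mul_pow, ← Real.exp_nat_mul, hq1c]; congr 2; ring
  have hqp2 : (0 : ℝ) < (q : ℝ) ^ (q - 2) := by positivity
  have hqp1 : (0 : ℝ) < (q : ℝ) ^ (q - 1) := by positivity
  set z₁ := Real.exp (-((4 * (q:ℝ) ^ 2 - 7 * q) * L)) with hz₁
  have hz1 : z₁ ≤ 1 := by
    rw [hz₁, Real.exp_le_one_iff]
    have : (1:ℝ) ≤ 4 * (q:ℝ) ^ 2 - 7 * q := by nlinarith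
    nlinarith
  have h := k_CC_sum_le (q := q) (by omega) τ n (z := (K ^ (q - 2))⁻¹) (v := Real.exp L / Aq q)
    (z₁ := z₁) (by positivity) (by rw [one_le_div hA0]; exact heL) (Real.exp_pos _) hz1 ⌈T⌉₊ (by
      intro r hr
      have hr1 : T ≤ r := (Nat.le_ceil _).trans (by exact_mod_cast hr)
      have h2q : 2 * q ≤ r := by
        have : (2 * q : ℝ) ≤ r := by linarith
        exact_mod_cast this
      set N := r.choose q with hN
      have hN1 : T ^ q ≤ 2 ^ q * (q ! : ℝ) * (N : ℝ) :=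
        (pow_le_pow_left₀ hT0.le hr1 q).trans (choose_lower h2q)
      have hN2 : T ^ q / c1 q ≤ (N : ℝ) / 2 := by
        rw [div_le_iff₀ hc1]
        unfold c1
        calc _ ≤ 2 ^ q * (q ! : ℝ) * N := hN1
          _ = _ := by ring
      have hnN : (n : ℝ) ≤ (N : ℝ) / 2 := by
        refine le_trans ?_ hN2
        rw [le_div_iff₀ hc1, hTq]
        gcongr
        linarith
      have hNn : (0 : ℝ) ≤ N := Nat.cast_nonneg _
      constructor
      · have : (n:ℝ) ≤ N := by linarith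
        exact_mod_cast this
      · have h5 : T ^ q / c1 q ≤ (N:ℝ) - n + 1 := by linarith
        have hAq : c1 q * (q : ℝ) ^ (q - 2) ≤ Aq q ^ q :=
          hA2.trans (le_self_pow₀ hA1' (by omega))
        have h6 : (n : ℝ) ≤ (K ^ (q - 2))⁻¹ / (Real.exp L / Aq q) ^ q * (T ^ q / c1 q) := by
          have e1 : (K ^ (q - 2))⁻¹ / (Real.exp L / Aq q) ^ q * (T ^ q / c1 q) =
              (Aq q ^ q / (c1 q * (q : ℝ) ^ (q - 2))) * n := by
            rw [hTq, hK2, div_pow, ← Real.exp_nat_mul, hne]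
            have e2 : Real.exp ((4 * (q:ℝ) ^ 2 - 7 * q) * L) =
                Real.exp ((4 * (q:ℝ) ^ 2 - 8 * q) * L) * Real.exp ((q : ℝ) * L) := by
              rw [← Real.exp_add]; congr 1; ring
            rw [e2]
            have := (Real.exp_pos ((4 * (q:ℝ) ^ 2 - 8 * q) * L)).ne'
            have := (Real.exp_pos ((q : ℝ) * L)).ne'
            field_simp
          rw [e1]
          have e3 : 1 ≤ Aq q ^ q / (c1 q * (q : ℝ) ^ (q - 2)) := by
            rw [one_le_div (by positivity)]; exact hAq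
          nlinarith
        refine h6.trans ?_
        gcongr)
  refine h.trans ?_
  unfold YY
  rw [← hLd, Fintype.card_fin]
  set s := τ.support.card with hs
  have hs0 : (0:ℝ) ≤ s := by positivity
  apply _root_.add_le_add
  · apply mul_le_mul_of_nonneg_right _ (kSum_nonneg q n)
    have hg : gex q (q * n) ((K ^ (q - 2))⁻¹) ≤ 2 := by
      unfold gex
      rw [← hK]
      have e1 : K ^ (q - 2) * (K ^ (q - 2))⁻¹ = 1 := by
        rw [mul_inv_cancel₀]; positivity
      have e2 : K ^ (q - 1) * ((K ^ (q - 2))⁻¹) ^ 2 ≤ 1 := by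
        rw [inv_pow, ← div_eq_mul_inv, div_le_one (by positivity), ← pow_mul]
        exact pow_le_pow_right₀ hK1 (by omega)
      rw [e1]; linarith
    calc ((Real.exp L / Aq q)⁻¹) ^ s * Real.exp (s * gex q (q * n) ((K ^ (q - 2))⁻¹))
        ≤ ((Real.exp L / Aq q)⁻¹) ^ s * Real.exp (s * 2) := by gcongr
      _ = (Real.exp 2 * Aq q / Real.exp L) ^ s := by
          rw [Real.exp_nat_mul, ← mul_pow]; congr 1
          rw [inv_div]; ring
  · apply mul_le_mul_of_nonneg_left _ (Real.exp_pos 1).le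
    have h8 : (z₁⁻¹) ^ n = Real.exp ((4 * (q:ℝ) ^ 2 - 7 * q) * (n * L)) := by
      rw [hz₁, ← Real.exp_neg, neg_neg, ← Real.exp_nat_mul]; congr 1; ring
    have h9 : (1 + z₁) ^ (⌈T⌉₊.choose q) ≤ Real.exp (2 ^ q * n) := by
      have hR : (⌈T⌉₊ : ℝ) ≤ 2 * T := by
        have := Nat.ceil_lt_add_one hT0.le
        have : (1 : ℝ) ≤ T := by linarith
        linarith
      have hR2 : ((⌈T⌉₊.choose q : ℕ) : ℝ) ≤ 2 ^ q * T ^ q := by
        calc ((⌈T⌉₊.choose q : ℕ) : ℝ) ≤ (⌈T⌉₊ : ℝ) ^ q := by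
              exact_mod_cast choose_le_pow' ⌈T⌉₊ q
          _ ≤ (2 * T) ^ q := pow_le_pow_left₀ (by positivity) hR q
          _ = _ := mul_pow _ _ _
      calc (1 + z₁) ^ (⌈T⌉₊.choose q)
          ≤ (Real.exp z₁) ^ (⌈T⌉₊.choose q) := by
            apply pow_le_pow_left₀ (by positivity)
            linarith [Real.add_one_le_exp z₁]
        _ = Real.exp ((⌈T⌉₊.choose q : ℕ) * z₁) := by rw [← Real.exp_nat_mul]
        _ ≤ Real.exp (2 ^ q * n) := by
            apply Real.exp_le_exp.2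
            calc ((⌈T⌉₊.choose q : ℕ) : ℝ) * z₁ ≤ (2 ^ q * T ^ q) * z₁ := by gcongr
              _ = 2 ^ q * n := by
                  rw [hTq, hz₁]
                  have : Real.exp ((4 * (q:ℝ) ^ 2 - 7 * q) * L) *
                      Real.exp (-((4 * (q:ℝ) ^ 2 - 7 * q) * L)) = 1 := by
                    rw [← Real.exp_add]; simp
                  calc _ = 2 ^ q * n * (Real.exp ((4 * (q:ℝ) ^ 2 - 7 * q) * L) *
                      Real.exp (-((4 * (q:ℝ) ^ 2 - 7 * q) * L))) := by ring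
                    _ = _ := by rw [this, mul_one]
    have h10 : Real.exp (s * gex q (q * n) z₁) ≤ Real.exp (2 * s) := by
      apply Real.exp_le_exp.2
      have hg : gex q (q * n) z₁ ≤ 2 := by
        unfold gex
        rw [← hK, hK2, hK11]
        have e1 : (q : ℝ) ^ (q - 2) * Real.exp ((4 * (q:ℝ) ^ 2 - 8 * q) * L) * z₁ ≤ 1 := by
          have : (q : ℝ) ^ (q - 2) * Real.exp ((4 * (q:ℝ) ^ 2 - 8 * q) * L) * z₁ =
              (q : ℝ) ^ (q - 2) * Real.exp (-(q * L)) := by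
            rw [hz₁, mul_assoc, ← Real.exp_add]; congr 2; ring
          rw [this, Real.exp_neg, ← div_eq_mul_inv, div_le_one (Real.exp_pos _)]
          calc (q : ℝ) ^ (q - 2) ≤ c1 q * (q : ℝ) ^ (q - 2) := by nlinarith
            _ ≤ Real.exp L := hA2.trans heL
            _ ≤ Real.exp (q * L) := Real.exp_le_exp.2 (by nlinarith)
        have e2 : (q : ℝ) ^ (q - 1) * Real.exp ((4 * (q:ℝ) ^ 2 - 4 * q) * L) * z₁ ^ 2 ≤ 1 := by
          have : (q : ℝ) ^ (q - 1) * Real.exp ((4 * (q:ℝ) ^ 2 - 4 * q) * L) * z₁ ^ 2 =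
              (q : ℝ) ^ (q - 1) * Real.exp (-((4 * (q:ℝ) ^ 2 - 10 * q) * L)) := by
            rw [hz₁, ← Real.exp_nat_mul, mul_assoc, ← Real.exp_add]; congr 2; push_cast; ring
          rw [this, Real.exp_neg, ← div_eq_mul_inv, div_le_one (Real.exp_pos _)]
          calc (q : ℝ) ^ (q - 1) ≤ c1 q * (q : ℝ) ^ (q - 1) := by nlinarith
            _ ≤ Real.exp L := hA1.trans heL
            _ ≤ Real.exp ((4 * (q:ℝ) ^ 2 - 10 * q) * L) := by
                apply Real.exp_le_exp.2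
                have : (1:ℝ) ≤ 4 * (q:ℝ) ^ 2 - 10 * q := by nlinarith
                nlinarith
        linarith
      nlinarith
    rw [h8, Real.exp_add, Real.exp_add]
    gcongr

end Pool.Agent.KS6_8.HG
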