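import Pool.Agent.KS6_8.HG.Count

set_option autoImplicit false
set_option linter.unusedSectionVars false

namespace Pool.Agent.KS6_8.HG

open Finset Nat MulAction Pool.Agent.H244R2
open scoped Pointwise

section gen

variable {V : Type} [DecidableEq V] {q : ℕ}

/-- the edge set of an `n`-set of pairs -/
def k_toG {n : ℕ} (A : Set.powersetCard (Set.powersetCard V q) n) : Finset (Finset V) :=
  A.1.map (Function.Embedding.subtype _)

lemma k_mem_toG {n : ℕ} {A : Set.powersetCard (Set.powersetCard V q) n} {e : Finset V} :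
    e ∈ k_toG A ↔ ∃ h : e.card = q, (⟨e, h⟩ : Set.powersetCard V q) ∈ A.1 := by
  simp only [k_toG, Finset.mem_map, Function.Embedding.subtype_apply]
  constructor
  · rintro ⟨a, ha, rfl⟩
    exact ⟨a.2, ha⟩
  · rintro ⟨h, hA⟩
    exact ⟨_, hA, rfl⟩

lemma k_toG_injective {n : ℕ} :
    Function.Injective (k_toG : Set.powersetCard (Set.powersetCard V q) n → Finset (Finset V)) := by
  intro A B h
  apply Subtype.ext
  exact Finset.map_injective _ h

lemma k_toG_card {n : ℕ} (A : Set.powersetCard (Set.powersetCard V q) n) : (k_toG A).card = n := by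
  rw [k_toG, card_map]
  exact A.2

lemma k_toG_two {n : ℕ} (A : Set.powersetCard (Set.powersetCard V q) n) (e : Finset V)
    (he : e ∈ k_toG A) : e.card = q := (k_mem_toG.1 he).1

lemma k_exists_toG {n : ℕ} {E : Finset (Finset V)} (h1 : ∀ e ∈ E, e.card = q) (h2 : E.card = n) :
    ∃ A : Set.powersetCard (Set.powersetCard V q) n, k_toG A = E := by
  classical
  refine ⟨⟨E.subtype (fun e => e ∈ Set.powersetCard V q), ?_⟩, ?_⟩
  · rw [Set.powersetCard.mem_iff, card_subtype, ← h2]
    congr 1
    rw [filter_eq_self]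
    exact h1
  · unfold k_toG
    ext e
    simp only [Finset.mem_map, mem_subtype, Function.Embedding.subtype_apply, Subtype.exists]
    constructor
    · rintro ⟨a, ha, hb, rfl⟩
      exact hb
    · intro he
      exact ⟨e, h1 e he, he, rfl⟩

lemma k_toG_smul {n : ℕ} (σ : Equiv.Perm V) (A : Set.powersetCard (Set.powersetCard V q) n) :
    k_toG (σ • A) = act' σ (k_toG A) := by
  ext e
  rw [mem_act']
  have h1 : ∀ a : Set.powersetCard V q, ((σ • a : Set.powersetCard V q) : Finset V) =
      (a : Finset V).map σ.toEmbedding := by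
    intro a
    rw [Set.powersetCard.coe_smul]
    ext v
    rw [mem_smul_finset, Finset.mem_map]
    rfl
  simp only [k_toG, Finset.mem_map, Function.Embedding.subtype_apply]
  constructor
  · rintro ⟨a, ha, rfl⟩
    rw [Set.powersetCard.coe_smul, mem_smul_finset] at ha
    obtain ⟨b, hb, rfl⟩ := ha
    exact ⟨b.1, ⟨b, hb, rfl⟩, (h1 b).symm⟩
  · rintro ⟨f, ⟨b, hb, rfl⟩, rfl⟩
    refine ⟨σ • b, ?_, h1 b⟩
    rw [Set.powersetCard.coe_smul, mem_smul_finset]
    exact ⟨b, hb, rfl⟩

lemma k_orbit_iff {n : ℕ} (A B : Set.powersetCard (Set.powersetCard V q) n) :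
    (orbitRel (Equiv.Perm V) _ A B) ↔ ∃ σ : Equiv.Perm V, k_toG A = act' σ (k_toG B) := by
  rw [orbitRel_apply, mem_orbit_iff]
  constructor
  · rintro ⟨σ, rfl⟩
    exact ⟨σ, k_toG_smul σ B⟩
  · rintro ⟨σ, h⟩
    refine ⟨σ, ?_⟩
    apply k_toG_injective
    rw [k_toG_smul, h]

end gen

/-- the infinite orbit count equals a finite one -/
theorem k_numOrbits_eq_fin {Ω : Type} [DecidableEq Ω] [Infinite Ω] (q n K : ℕ) (hK : q * n ≤ K) :
    numOrbits (Equiv.Perm Ω) (Set.powersetCard Ω q) n =
      numOrbits (Equiv.Perm (Fin K)) (Set.powersetCard (Fin K) q) n := by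
  symm
  unfold numOrbits
  obtain ⟨ι⟩ : Nonempty (Fin K ↪ Ω) := by
    have h := Infinite.natEmbedding Ω
    exact ⟨Fin.valEmbedding.trans h⟩
  have hpush : ∀ A : Set.powersetCard (Set.powersetCard (Fin K) q) n,
      ∃ B : Set.powersetCard (Set.powersetCard Ω q) n, k_toG B = push ι (k_toG A) := by
    intro A
    apply k_exists_toG
    · intro e he
      obtain ⟨f, hf, rfl⟩ := mem_push.1 he
      rw [card_map]
      exact k_toG_two A f hf
    · rw [push, Finset.card_image_of_injective _ (Finset.map_injective ι), k_toG_card]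
  choose Φ hΦ using hpush
  have hrel : ∀ A B, orbitRel (Equiv.Perm (Fin K)) _ A B ↔
      orbitRel (Equiv.Perm Ω) _ (Φ A) (Φ B) := by
    intro A B
    rw [k_orbit_iff, k_orbit_iff, hΦ, hΦ]
    exact transfer_iff ι _ _
  let f : orbitRel.Quotient (Equiv.Perm (Fin K)) (Set.powersetCard (Set.powersetCard (Fin K) q) n) →
      orbitRel.Quotient (Equiv.Perm Ω) (Set.powersetCard (Set.powersetCard Ω q) n) :=
    Quotient.map' Φ (fun A B h => (hrel A B).1 h)
  apply Nat.card_eq_of_bijective f
  constructor
  · intro a b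
    induction a using Quotient.inductionOn' with
    | h A =>
    induction b using Quotient.inductionOn' with
    | h B =>
    intro h
    simp only [f, Quotient.map'_mk''] at h
    exact Quotient.sound' ((hrel A B).2 (Quotient.exact' h))
  · intro c
    induction c using Quotient.inductionOn' with
    | h C =>
    have hUC : (U (k_toG C)).card ≤ Fintype.card (Fin K) := by
      rw [Fintype.card_fin]
      have := k_card_U_le (k_toG_two C)
      rw [k_toG_card] at this
      omega
    obtain ⟨g, E, hE⟩ := exists_push ι (k_toG C) hUC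
    have hE2 : ∀ e ∈ E, e.card = q := by
      intro e he
      have : e.map ι ∈ act' g (k_toG C) := by
        rw [← hE]; exact mem_push.2 ⟨e, he, rfl⟩
      obtain ⟨f, hf, hfe⟩ := mem_act'.1 this
      have h2 := k_toG_two C f hf
      have h3 := congrArg card hfe
      rw [card_map, card_map, h2] at h3
      exact h3.symm
    have hEc : E.card = n := by
      have h3 := congrArg card hE
      rw [push, Finset.card_image_of_injective _ (Finset.map_injective ι), act',
        Finset.card_image_of_injective _ (Finset.map_injective _), k_toG_card] at h3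
      exact h3
    obtain ⟨A, hA⟩ := k_exists_toG hE2 hEc
    refine ⟨Quotient.mk'' A, ?_⟩
    simp only [f, Quotient.map'_mk'']
    apply Quotient.sound'
    change orbitRel (Equiv.Perm Ω) _ (Φ A) C
    rw [k_orbit_iff]
    exact ⟨g, by rw [hΦ, hA, hE]⟩

/-- Burnside for the finite problem -/
theorem k_burnside_fin {V : Type} [DecidableEq V] [Fintype V] (q n : ℕ) :
    ∑ σ : Equiv.Perm V, ((KG q (univ : Finset V) n).filter (fun E => act σ E = E)).card =
      numOrbits (Equiv.Perm V) (Set.powersetCard V q) n * (Fintype.card V)! := by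
  classical
  have h := MulAction.sum_card_fixedBy_eq_card_orbits_mul_card_group (Equiv.Perm V)
    (Set.powersetCard (Set.powersetCard V q) n)
  unfold numOrbits
  rw [Nat.card_eq_fintype_card]
  rw [Fintype.card_perm] at h
  rw [← h]
  apply Finset.sum_congr rfl
  intro σ _
  symm
  rw [← Fintype.card_coe]
  have hmem : ∀ A : fixedBy (Set.powersetCard (Set.powersetCard V q) n) σ,
      k_toG A.1 ∈ (KG q (univ : Finset V) n).filter (fun E => act σ E = E) := by
    intro A
    rw [mem_filter, k_mem_GG]
    refine ⟨⟨fun e he => ⟨subset_univ _, k_toG_two A.1 e he⟩, k_toG_card A.1⟩, ?_⟩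
    rw [act_eq_act', ← k_toG_smul, A.2]
  apply Fintype.card_of_bijective (f := fun A => ⟨k_toG A.1, hmem A⟩)
  constructor
  · intro A B hAB
    apply Subtype.ext
    apply k_toG_injective
    exact congrArg Subtype.val hAB
  · rintro ⟨E, hE⟩
    have hE' := hE
    rw [mem_filter, k_mem_GG] at hE'
    obtain ⟨⟨h1, h2⟩, h3⟩ := hE'
    obtain ⟨A, rfl⟩ := k_exists_toG (fun e he => (h1 e he).2) h2
    refine ⟨⟨A, ?_⟩, rfl⟩
    rw [mem_fixedBy]
    apply k_toG_injective
    rw [k_toG_smul, ← act_eq_act', h3]

end Pool.Agent.KS6_8.HG
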