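import Pool.Agent.KS6_8.HG.Fin
import Pool.Agent.KS6_8.HG.Orbits

/-!
# The number of `n`-edge `q`-uniform hypergraphs without isolated points, up to isomorphism, `q ≥ 3`
-/

set_option autoImplicit false

namespace Pool.Agent.KS6_8.HG

open Finset Nat Filter Topology Pool.Agent.H244R2

/-- the error term -/
noncomputable def errQ (q n : ℕ) : ℝ :=
  2 * (Real.exp 2 * Aq q / Real.exp (LL q n)) ^ 2 + Real.exp 1 * q * (n * Real.exp (-(1 * n)))

lemma errQ_tendsto {q : ℕ} (hq : 3 ≤ q) : Tendsto (errQ q) atTop (𝓝 0) := by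
  unfold errQ
  have h1 : Tendsto (fun n => Real.exp 2 * Aq q / Real.exp (LL q n)) atTop (𝓝 0) :=
    tendsto_const_nhds.div_atTop (Real.tendsto_exp_atTop.comp (LL_tendsto hq))
  have h2 : Tendsto (fun n : ℕ => (n:ℝ) * Real.exp (-(1 * n))) atTop (𝓝 0) := by
    have h := (Real.tendsto_pow_mul_exp_neg_atTop_nhds_zero 1).comp
      (tendsto_natCast_atTop_atTop (R := ℝ))
    refine h.congr (fun n => ?_)
    simp only [Function.comp, pow_one, one_mul]
  have := ((h1.pow 2).const_mul 2).add (h2.const_mul (Real.exp 1 * q))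
  simpa using this

lemma sum_YY_le {q : ℕ} (hq : 3 ≤ q) : ∀ᶠ n : ℕ in atTop,
    ∑ s ∈ Finset.Icc 2 (q * n), YY q n s ≤ errQ q n * kSum q n := by
  have hqR : (3 : ℝ) ≤ q := by exact_mod_cast hq
  have hc1 := c1_pos q
  obtain ⟨hcq, hc2⟩ := c1_ge hq
  obtain ⟨hA2, hA1, hA8, hAc⟩ := Aq_ge hq
  have hA0 : 0 < Aq q := by linarith
  have hsmall : ∀ᶠ n : ℕ in atTop, Real.exp 2 * Aq q / Real.exp (LL q n) ≤ 1 / 2 := by
    have h1 : Tendsto (fun n => Real.exp 2 * Aq q / Real.exp (LL q n)) atTop (𝓝 0) :=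
      tendsto_const_nhds.div_atTop (Real.tendsto_exp_atTop.comp (LL_tendsto hq))
    exact h1.eventually (ge_mem_nhds (by norm_num))
  filter_upwards [hsmall, (LL_tendsto hq).eventually_ge_atTop (2 ^ q + 2 * q + 1),
    eventually_gt_atTop 0, kSum_lower hq] with n hρ hL hn hlow
  have hn0 : (0:ℝ) < n := by exact_mod_cast hn
  unfold YY errQ
  set L := LL q n with hLd
  rw [Finset.sum_add_distrib, ← Finset.sum_mul, ← Finset.mul_sum, add_mul]
  apply _root_.add_le_add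
  · apply mul_le_mul_of_nonneg_right _ (kSum_nonneg q n)
    exact sum_geom_tail (by positivity) hρ _
  · have h2 : ∑ s ∈ Finset.Icc 2 (q * n),
        Real.exp ((4 * (q:ℝ) ^ 2 - 7 * q) * (n * L) + 2 ^ q * n + 2 * s) ≤
        (q * n) * Real.exp ((4 * (q:ℝ) ^ 2 - 7 * q) * (n * L) + 2 ^ q * n + 2 * (q * n)) := by
      calc _ ≤ ∑ s ∈ Finset.Icc 2 (q * n),
            Real.exp ((4 * (q:ℝ) ^ 2 - 7 * q) * (n * L) + 2 ^ q * n + 2 * (q * n)) := by
            apply Finset.sum_le_sum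
            intro s hs
            rw [mem_Icc] at hs
            apply Real.exp_le_exp.2
            have : (s:ℝ) ≤ q * n := by exact_mod_cast hs.2
            linarith
        _ = ((q * n + 1 - 2 : ℕ) : ℝ) *
            Real.exp ((4 * (q:ℝ) ^ 2 - 7 * q) * (n * L) + 2 ^ q * n + 2 * (q * n)) := by
            rw [sum_const, Nat.card_Icc, nsmul_eq_mul]
        _ ≤ _ := by
            apply mul_le_mul_of_nonneg_right _ (Real.exp_pos _).le
            have : ((q * n + 1 - 2 : ℕ) : ℝ) ≤ ((q * n : ℕ) : ℝ) := by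
              exact_mod_cast (by omega : q * n + 1 - 2 ≤ q * n)
            push_cast at this ⊢
            exact this
    have h3 : Real.exp ((4 * (q:ℝ) ^ 2 - 7 * q) * (n * L) + 2 ^ q * n + 2 * (q * n)) ≤
        Real.exp (-(1 * n)) * kSum q n := by
      calc Real.exp ((4 * (q:ℝ) ^ 2 - 7 * q) * (n * L) + 2 ^ q * n + 2 * (q * n))
          ≤ Real.exp (-(1 * n) + (4 * (q:ℝ) ^ 2 - 5 * q - 2) * (n * L)) := by
            apply Real.exp_le_exp.2
            have h4 : (n:ℝ) * (2 ^ q + 2 * q + 1) ≤ n * L := by gcongr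
            have h5 : 0 ≤ n * L := by
              have : (0:ℝ) ≤ 2 ^ q + 2 * q + 1 := by positivity
              have : 0 ≤ L := this.trans hL
              positivity
            nlinarith
        _ = Real.exp (-(1 * n)) * Real.exp ((4 * (q:ℝ) ^ 2 - 5 * q - 2) * (n * L)) :=
            Real.exp_add _ _
        _ ≤ _ := by gcongr
    calc Real.exp 1 * ∑ s ∈ Finset.Icc 2 (q * n),
          Real.exp ((4 * (q:ℝ) ^ 2 - 7 * q) * (n * L) + 2 ^ q * n + 2 * s)
        ≤ Real.exp 1 * ((q * n) * (Real.exp (-(1 * n)) * kSum q n)) := by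
          gcongr
          exact h2.trans (by gcongr)
      _ = _ := by ring

lemma kSum_pos_eventually {q : ℕ} (hq : 3 ≤ q) : ∀ᶠ n : ℕ in atTop, 0 < kSum q n := by
  filter_upwards [kSum_lower hq] with n hn
  exact (Real.exp_pos _).trans_le hn

/-- `n^(-1/(4q))` against the final rate -/
lemma exp_LL_le {q n : ℕ} (hq : 3 ≤ q) (hn : 1 ≤ n) :
    Real.exp (-(LL q n)) ≤ (n : ℝ) ^ (-(1 / (5 * q)) : ℝ) := by
  have hqR : (3 : ℝ) ≤ q := by exact_mod_cast hq
  have hn0 : (0 : ℝ) < n := by exact_mod_cast hn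
  have hlog : 0 ≤ Real.log n := Real.log_nonneg (by exact_mod_cast hn)
  rw [Real.rpow_def_of_pos hn0]
  apply Real.exp_le_exp.2
  unfold LL
  have h1 : Real.log n / (5 * q) ≤ Real.log n / (4 * q) := by
    apply div_le_div_of_nonneg_left hlog (by positivity) (by linarith)
  calc -(Real.log n / (4 * q)) ≤ -(Real.log n / (5 * q)) := by linarith
    _ = _ := by ring

lemma n_exp_neg_le {q n : ℕ} (hq : 3 ≤ q) (hn : 1 ≤ n) :
    (n : ℝ) * Real.exp (-(1 * n)) ≤ 2 * Real.exp (-(LL q n)) := by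
  have hqR : (3 : ℝ) ≤ q := by exact_mod_cast hq
  have hn0 : (0 : ℝ) < n := by exact_mod_cast hn
  have hn1 : (1 : ℝ) ≤ n := by exact_mod_cast hn
  have hlog : 0 ≤ Real.log n := Real.log_nonneg hn1
  have h1 : (n:ℝ) ^ 2 / 2 ≤ Real.exp (1 * n) := by
    have := Real.quadratic_le_exp_of_nonneg (x := (n:ℝ)) hn0.le
    rw [one_mul]
    linarith
  have h2 : Real.exp (LL q n) ≤ n := by
    calc Real.exp (LL q n) ≤ Real.exp (Real.log n) := by
          apply Real.exp_le_exp.2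
          unfold LL
          exact _root_.div_le_self hlog (by linarith)
      _ = n := Real.exp_log hn0
  rw [Real.exp_neg, Real.exp_neg, ← div_eq_mul_inv, ← div_eq_mul_inv,
    div_le_div_iff₀ (Real.exp_pos _) (Real.exp_pos _)]
  calc (n:ℝ) * Real.exp (LL q n) ≤ n * n := by gcongr
    _ = 2 * ((n:ℝ) ^ 2 / 2) := by ring
    _ ≤ _ := by gcongr

lemma errQ_le {q n : ℕ} (hq : 3 ≤ q) (hn : 1 ≤ n) :
    errQ q n ≤ (2 * (Real.exp 2 * Aq q) ^ 2 + 2 * (Real.exp 1 * q)) * Real.exp (-(LL q n)) := by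
  have h0 : 0 ≤ LL q n := by
    unfold LL
    have hlog : 0 ≤ Real.log n := Real.log_nonneg (by exact_mod_cast hn)
    positivity
  unfold errQ
  have h1 : (Real.exp 2 * Aq q / Real.exp (LL q n)) ^ 2 ≤
      (Real.exp 2 * Aq q) ^ 2 * Real.exp (-(LL q n)) := by
    have : (Real.exp 2 * Aq q / Real.exp (LL q n)) ^ 2 =
        (Real.exp 2 * Aq q) ^ 2 * (Real.exp (-(LL q n)) * Real.exp (-(LL q n))) := by
      rw [Real.exp_neg, div_pow, div_eq_mul_inv]; ring
    rw [this]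
    have h2 : Real.exp (-(LL q n)) ≤ 1 := by rw [Real.exp_le_one_iff]; linarith
    gcongr
    exact mul_le_of_le_one_right (Real.exp_pos _).le h2
  have h2 := n_exp_neg_le hq hn
  have h3 : Real.exp 1 * q * (n * Real.exp (-(1 * n))) ≤
      Real.exp 1 * q * (2 * Real.exp (-(LL q n))) := by gcongr
  nlinarith [Real.exp_pos (-(LL q n))]

/-- the number of orbits against the main sum, with a rate -/
theorem orbits_rate {q : ℕ} (hq : 3 ≤ q) {Ω : Type} [DecidableEq Ω] [Infinite Ω] :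
    ∃ K : ℝ, 0 ≤ K ∧ ∀ᶠ n : ℕ in atTop,
      |(numOrbits (Equiv.Perm Ω) (Set.powersetCard Ω q) n : ℝ) /
        (kSum q n / Real.exp 1) - 1| ≤ K * (n : ℝ) ^ (-(1 / (5 * q)) : ℝ) := by
  have hq0 : 0 < q := by omega
  refine ⟨Real.exp 1 * (2 * (Real.exp 2 * Aq q) ^ 2 + 2 * (Real.exp 1 * q)), by positivity, ?_⟩
  filter_upwards [kSum_pos_eventually hq, KC_le_YY hq, sum_YY_le hq, eventually_ge_atTop 1]
    with n hpos hCC hYb hn
  have hn0 : (0:ℝ) < n := by exact_mod_cast hn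
  rw [k_numOrbits_eq_fin q n (q * n) le_rfl]
  have hb0 : 0 < kSum q n / Real.exp 1 := by positivity
  have h2 := k_burnside_fin (V := Fin (q * n)) q n
  rw [Fintype.card_fin] at h2
  have h3 : ∑ σ : Equiv.Perm (Fin (q * n)),
      (((KG q (univ : Finset (Fin (q * n))) n).filter (fun E => act σ E = E)).card : ℝ) =
      (numOrbits (Equiv.Perm (Fin (q * n))) (Set.powersetCard (Fin (q * n)) q) n : ℝ) *
        ((q * n)! : ℝ) := by exact_mod_cast h2
  have hlow : kSum q n / Real.exp 1 ≤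
      (numOrbits (Equiv.Perm (Fin (q * n))) (Set.powersetCard (Fin (q * n)) q) n : ℝ) := by
    have h1 := k_fixed_pairs_ge (V := Fin (q * n)) (q := q) n (by rw [Fintype.card_fin])
    rw [Fintype.card_fin, h3, mul_comm] at h1
    exact le_of_mul_le_mul_right h1 (by positivity)
  have hup : (numOrbits (Equiv.Perm (Fin (q * n))) (Set.powersetCard (Fin (q * n)) q) n : ℝ) ≤
      kSum q n / Real.exp 1 + errQ q n * kSum q n := by
    have h1 := k_fixed_pairs_le (V := Fin (q * n)) (q := q) hq0 n (by rw [Fintype.card_fin])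
      (YY q n) (YY_nonneg q n) (fun τ _ => hCC τ)
    rw [Fintype.card_fin, h3, mul_comm] at h1
    have h4 := le_of_mul_le_mul_left h1 (by positivity)
    linarith
  have herr : errQ q n ≤ (2 * (Real.exp 2 * Aq q) ^ 2 + 2 * (Real.exp 1 * q)) *
      (n:ℝ) ^ (-(1 / (5 * q)) : ℝ) :=
    (errQ_le hq hn).trans (mul_le_mul_of_nonneg_left (exp_LL_le hq hn) (by positivity))
  rw [abs_le]
  have hpos10 : 0 ≤ (n:ℝ) ^ (-(1 / (5 * q)) : ℝ) := by positivity
  constructor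
  · have h5 : 1 ≤ (numOrbits (Equiv.Perm (Fin (q * n))) (Set.powersetCard (Fin (q * n)) q) n : ℝ) /
        (kSum q n / Real.exp 1) := by
      rw [le_div_iff₀ hb0, one_mul]; exact hlow
    have h6 : 0 ≤ Real.exp 1 * (2 * (Real.exp 2 * Aq q) ^ 2 + 2 * (Real.exp 1 * q)) *
        (n:ℝ) ^ (-(1 / (5 * q)) : ℝ) := by positivity
    linarith
  · have h5 : (numOrbits (Equiv.Perm (Fin (q * n))) (Set.powersetCard (Fin (q * n)) q) n : ℝ) /
        (kSum q n / Real.exp 1) ≤ 1 + Real.exp 1 * errQ q n := by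
      rw [div_le_iff₀ hb0]
      have he : Real.exp 1 ≠ 0 := (Real.exp_pos 1).ne'
      calc _ ≤ kSum q n / Real.exp 1 + errQ q n * kSum q n := hup
        _ = (1 + Real.exp 1 * errQ q n) * (kSum q n / Real.exp 1) := by field_simp
    have h6 : Real.exp 1 * errQ q n ≤ Real.exp 1 *
        ((2 * (Real.exp 2 * Aq q) ^ 2 + 2 * (Real.exp 1 * q)) *
          (n:ℝ) ^ (-(1 / (5 * q)) : ℝ)) := by gcongr
    linarith

/-- the extra term for pairs -/
noncomputable def extra (q : ℕ) (w : ℝ) : ℝ := if q = 2 then w ^ 2 / 4 else 0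

/-- the main term with a Bell number -/
noncomputable def mainB (q n : ℕ) (w : ℝ) : ℝ :=
  (Nat.bell (q * n) : ℝ) / ((q ! : ℝ) ^ n * (n ! : ℝ)) *
    Real.exp (-(((q : ℝ) - 1) * w / 2) - extra q w)

/-- the elementary main term -/
noncomputable def mainE (q n : ℕ) (w : ℝ) : ℝ :=
  Real.exp (q * n * (w - 1 + 1 / w) - ((q : ℝ) - 1) * w / 2 - extra q w - 1) /
    ((q ! : ℝ) ^ n * (n ! : ℝ) * Real.sqrt (w + 1))

lemma rpow_tenth_le {q n : ℕ} (hq : 2 ≤ q) (hn : 1 ≤ n) :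
    ((q * n : ℕ) : ℝ) ^ (-(1 / 10) : ℝ) ≤ (n : ℝ) ^ (-(1 / (5 * q)) : ℝ) := by
  have hqR : (2 : ℝ) ≤ q := by exact_mod_cast hq
  have hn0 : (0 : ℝ) < n := by exact_mod_cast hn
  have hn1 : (1 : ℝ) ≤ n := by exact_mod_cast hn
  calc ((q * n : ℕ) : ℝ) ^ (-(1 / 10) : ℝ) ≤ (n : ℝ) ^ (-(1 / 10) : ℝ) := by
        apply Real.rpow_le_rpow_of_nonpos hn0 _ (by norm_num)
        push_cast
        nlinarith
    _ ≤ _ := by
        apply Real.rpow_le_rpow_of_exponent_le hn1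
        have : 1 / (5 * (q : ℝ)) ≤ 1 / 10 := by
          apply one_div_le_one_div_of_le (by norm_num) (by linarith)
        linarith

lemma rpow_le_one' {q n : ℕ} (hn : 1 ≤ n) : (n : ℝ) ^ (-(1 / (5 * q)) : ℝ) ≤ 1 := by
  apply Real.rpow_le_one_of_one_le_of_nonpos (by exact_mod_cast hn)
  have : (0 : ℝ) ≤ 1 / (5 * q) := by positivity
  linarith

/-- Bell number form, `q ≥ 3` -/
theorem uniform_bell {q : ℕ} (hq : 3 ≤ q) {Ω : Type} [DecidableEq Ω] [Infinite Ω] :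
    ∃ K : ℝ, 0 ≤ K ∧ ∀ᶠ n : ℕ in atTop,
      |(numOrbits (Equiv.Perm Ω) (Set.powersetCard Ω q) n : ℝ) /
        mainB q n (lamW ((q * n : ℕ) : ℝ)) - 1| ≤ K * (n : ℝ) ^ (-(1 / (5 * q)) : ℝ) := by
  obtain ⟨K, hK0, hK⟩ := orbits_rate hq (Ω := Ω)
  have hC0 := Ck_nonneg q
  refine ⟨K + (2 * Ck q + 1) + K * (2 * Ck q + 1), by positivity, ?_⟩
  filter_upwards [hK, kSum_rate hq, kSum_pos_eventually hq, eventually_ge_atTop 1]
    with n h1 h2 hpos hn
  have hn0 : (0:ℝ) < n := by exact_mod_cast hn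
  have h2' := h2.trans (mul_le_mul_of_nonneg_left (rpow_tenth_le (by omega : 2 ≤ q) hn)
    (by positivity))
  have h3 := Pool.Agent.Y349.OC.ratio_mul h1 h2' (by positivity) (rpow_le_one' hn) hK0
    (by positivity)
  have h4 : (numOrbits (Equiv.Perm Ω) (Set.powersetCard Ω q) n : ℝ) /
      mainB q n (lamW ((q * n : ℕ) : ℝ)) =
      (numOrbits (Equiv.Perm Ω) (Set.powersetCard Ω q) n : ℝ) / (kSum q n / Real.exp 1) *
        (kSum q n / (Real.exp 1 * ((Nat.bell (q * n) : ℝ) / ((q ! : ℝ) ^ n * (n ! : ℝ)) *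
      Real.exp (-(((q : ℝ) - 1) * lamW ((q * n : ℕ) : ℝ) / 2))))) := by
    have hb : (Nat.bell (q * n) : ℝ) ≠ 0 := by exact_mod_cast (bell_pos _).ne'
    have hf : (n ! : ℝ) ≠ 0 := by positivity
    have hf2 : (q ! : ℝ) ≠ 0 := by positivity
    have he : Real.exp 1 ≠ 0 := (Real.exp_pos 1).ne'
    have hc : Real.exp (-(((q : ℝ) - 1) * lamW ((q * n : ℕ) : ℝ) / 2)) ≠ 0 := (Real.exp_pos _).ne'
    unfold mainB extra
    rw [if_neg (by omega), sub_zero]
    field_simp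
  rw [h4]
  exact h3

/-- elementary form from the Bell number form -/
theorem elem_of_bell {q : ℕ} (hq : 2 ≤ q) {f : ℕ → ℝ}
    (h : ∃ K : ℝ, 0 ≤ K ∧ ∀ᶠ n : ℕ in atTop,
      |f n / mainB q n (lamW ((q * n : ℕ) : ℝ)) - 1| ≤ K * (n : ℝ) ^ (-(1 / (5 * q)) : ℝ)) :
    ∃ K : ℝ, 0 ≤ K ∧ ∀ᶠ n : ℕ in atTop,
      |f n / mainE q n (lamW ((q * n : ℕ) : ℝ)) - 1| ≤ K * (n : ℝ) ^ (-(1 / (5 * q)) : ℝ) := by
  obtain ⟨K, hK0, hK⟩ := h
  refine ⟨K + 8 + K * 8, by positivity, ?_⟩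
  have hqn : Tendsto (fun n : ℕ => q * n) atTop atTop :=
    tendsto_id.const_mul_atTop' (by omega : 0 < q)
  filter_upwards [hK, hqn.eventually Pool.Agent.Y349.OC.moser_wyman, eventually_ge_atTop 1]
    with n h1 h2 hn
  have hn0 : (0:ℝ) < n := by exact_mod_cast hn
  have h3 := h2.trans (mul_le_mul_of_nonneg_left (rpow_tenth_le hq hn) (by norm_num))
  have h4 := Pool.Agent.Y349.OC.ratio_mul h1 h3 (by positivity) (rpow_le_one' hn) hK0 (by norm_num)
  have hqn0 : (0:ℝ) < ((q * n : ℕ) : ℝ) := by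
    exact_mod_cast Nat.mul_pos (by omega : 0 < q) hn
  set w := lamW ((q * n : ℕ) : ℝ) with hw
  have hw0 : 0 ≤ w := lamW_nonneg _
  have h5 : f n / mainE q n w = f n / mainB q n w *
        (Real.exp 1 * (Nat.bell (q * n) : ℝ) / Pool.Agent.Y349.OC.mwTerm (q * n) w) := by
    have hb : (Nat.bell (q * n) : ℝ) ≠ 0 := by exact_mod_cast (bell_pos _).ne'
    have hf : (n ! : ℝ) ≠ 0 := by positivity
    have hf2 : (q ! : ℝ) ≠ 0 := by positivity
    have h6 : mainE q n w = Real.exp (-(((q : ℝ) - 1) * w / 2) - extra q w) *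
        Pool.Agent.Y349.OC.mwTerm (q * n) w / (Real.exp 1 * ((q ! : ℝ) ^ n * (n ! : ℝ))) := by
      unfold mainE Pool.Agent.Y349.OC.mwTerm
      have h7 : Real.exp (q * n * (w - 1 + 1 / w) - ((q : ℝ) - 1) * w / 2 - extra q w - 1) =
          Real.exp (-(((q : ℝ) - 1) * w / 2) - extra q w) *
            Real.exp (((q * n : ℕ) : ℝ) * w - ((q * n : ℕ) : ℝ) + Real.exp w) / Real.exp 1 := by
        rw [← Real.exp_add, ← Real.exp_sub]
        congr 1
        rw [hw, Pool.Agent.Y349.OC.exp_lam hqn0]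
        push_cast
        ring
      rw [h7]
      have h9 : Real.sqrt (w + 1) ≠ 0 := by
        have : 0 < w + 1 := by linarith
        positivity
      field_simp
    rw [h6]
    unfold mainB
    have hT := (Pool.Agent.Y349.OC.mwTerm_pos (N := q * n) hw0).ne'
    have he : Real.exp 1 ≠ 0 := (Real.exp_pos 1).ne'
    have hc : Real.exp (-(((q : ℝ) - 1) * w / 2) - extra q w) ≠ 0 := (Real.exp_pos _).ne'
    field_simp
  rw [h5]
  exact h4

/-- pairs, from the library -/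
theorem pairs_bell {Ω : Type} [DecidableEq Ω] [Infinite Ω] :
    ∃ K : ℝ, 0 ≤ K ∧ ∀ᶠ n : ℕ in atTop,
      |(numOrbits (Equiv.Perm Ω) (Set.powersetCard Ω 2) n : ℝ) /
        mainB 2 n (lamW ((2 * n : ℕ) : ℝ)) - 1| ≤
          K * (n : ℝ) ^ (-(1 / (5 * ((2 : ℕ) : ℝ))) : ℝ) := by
  obtain ⟨K, hK0, hK⟩ := Pool.Agent.Y349.OC.graph_bell (Ω := Ω)
  refine ⟨K, hK0, ?_⟩
  filter_upwards [hK] with n hn
  have h1 : mainB 2 n (lamW ((2 * n : ℕ) : ℝ)) =
      Pool.Agent.Y349.OC.gP n (lamW ((2 * n : ℕ) : ℝ)) := by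
    unfold mainB extra Pool.Agent.Y349.OC.gP
    rw [if_pos rfl]
    have : ((2 ! : ℕ) : ℝ) = 2 := by norm_num [Nat.factorial]
    rw [this]
    congr 2
    push_cast
    ring
  rw [h1]
  have h2 : (-(1 / (5 * ((2 : ℕ) : ℝ))) : ℝ) = -(1 / 10) := by norm_num
  rw [h2]
  exact hn

/-- all `q ≥ 2`, Bell number form -/
theorem all_bell {q : ℕ} (hq : 2 ≤ q) {Ω : Type} [DecidableEq Ω] [Infinite Ω] :
    ∃ K : ℝ, 0 ≤ K ∧ ∀ᶠ n : ℕ in atTop,
      |(numOrbits (Equiv.Perm Ω) (Set.powersetCard Ω q) n : ℝ) /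
        mainB q n (lamW ((q * n : ℕ) : ℝ)) - 1| ≤ K * (n : ℝ) ^ (-(1 / (5 * q)) : ℝ) := by
  rcases Nat.lt_or_ge 2 q with h | h
  · exact uniform_bell h
  · have : q = 2 := le_antisymm h hq
    subst this
    exact pairs_bell

/-- from eventual bounds to all positive integers -/
lemma all_of_eventually' {R : ℕ → ℝ} {K θ : ℝ}
    (h : ∀ᶠ n : ℕ in atTop, |R n - 1| ≤ K * (n:ℝ) ^ (-θ)) :
    ∃ C : ℝ, ∀ n : ℕ, 1 ≤ n → |R n - 1| ≤ C * (n:ℝ) ^ (-θ) := by
  obtain ⟨n₀, hn₀⟩ := eventually_atTop.1 h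
  refine ⟨|K| + ∑ i ∈ Finset.range n₀, |R i - 1| * (i:ℝ) ^ θ, fun n hn => ?_⟩
  have hn0 : (0:ℝ) < n := by exact_mod_cast hn
  have hpos : 0 < (n:ℝ) ^ (-θ) := Real.rpow_pos_of_pos hn0 _
  have hs0 : 0 ≤ ∑ i ∈ Finset.range n₀, |R i - 1| * (i:ℝ) ^ θ :=
    Finset.sum_nonneg (fun i _ => by positivity)
  rcases le_or_gt n₀ n with h1 | h1
  · refine (hn₀ n h1).trans ?_
    apply mul_le_mul_of_nonneg_right _ hpos.le
    linarith [le_abs_self K]
  · have h2 : |R n - 1| * (n:ℝ) ^ θ ≤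
        ∑ i ∈ Finset.range n₀, |R i - 1| * (i:ℝ) ^ θ :=
      Finset.single_le_sum (f := fun i : ℕ => |R i - 1| * (i:ℝ) ^ θ)
        (fun i _ => by positivity) (Finset.mem_range.2 h1)
    have h3 : (n:ℝ) ^ θ * (n:ℝ) ^ (-θ) = 1 := by
      rw [← Real.rpow_add hn0]; simp
    calc |R n - 1| = (|R n - 1| * (n:ℝ) ^ θ) * (n:ℝ) ^ (-θ) := by
          rw [mul_assoc, h3, mul_one]
      _ ≤ (|K| + ∑ i ∈ Finset.range n₀, |R i - 1| * (i:ℝ) ^ θ) * (n:ℝ) ^ (-θ) := by
          apply mul_le_mul_of_nonneg_right _ hpos.le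
          linarith [abs_nonneg K]

end Pool.Agent.KS6_8.HG
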