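import Pool.Agent.KS6_8.HG.Part

/-!
# The number of set partitions that are invariant under a permutation
-/

set_option autoImplicit false

namespace Pool.Agent.KS6_8.HG

open Finset Nat

variable {α : Type*}

/-- the set partition `p` is invariant under `σ` -/
def PInv (σ : Equiv.Perm α) (p : Setoid α) : Prop := ∀ a b, p a b ↔ p (σ a) (σ b)

lemma PInv.zpow {σ : Equiv.Perm α} {p : Setoid α} (h : PInv σ p) (t : ℤ) :
    ∀ a b : α, p a b ↔ p ((σ ^ t) a) ((σ ^ t) b) := by
  induction t using Int.induction_on with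
  | zero => intro a b; simp
  | succ i ih =>
    intro a b
    rw [zpow_add_one, Equiv.Perm.mul_apply, Equiv.Perm.mul_apply, ← ih, ← h]
  | pred i ih =>
    intro a b
    rw [zpow_sub_one, Equiv.Perm.mul_apply, Equiv.Perm.mul_apply, ← ih, h (σ⁻¹ a) (σ⁻¹ b)]
    simp

/-- the set of cycles -/
abbrev Cyc (σ : Equiv.Perm α) : Type _ := Quotient (Equiv.Perm.SameCycle.setoid σ)

/-- the cycle of an element -/
def cyc (σ : Equiv.Perm α) (a : α) : Cyc σ := Quotient.mk (Equiv.Perm.SameCycle.setoid σ) a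

lemma exists_zpow_out (σ : Equiv.Perm α) (a : α) : ∃ i : ℤ, (σ ^ i) (cyc σ a).out = a := by
  have h : cyc σ (cyc σ a).out = cyc σ a := Quotient.out_eq _
  exact Quotient.exact h

/-- the join with the orbit partition, as a partition of the set of cycles -/
def joinS (σ : Equiv.Perm α) (p : Setoid α) (h : PInv σ p) : Setoid (Cyc σ) where
  r x y := ∃ t : ℤ, p ((σ ^ t) x.out) y.out
  iseqv := by
    refine ⟨fun x => ⟨0, by simp⟩, ?_, ?_⟩
    · rintro x y ⟨t, ht⟩
      refine ⟨-t, ?_⟩
      have := (h.zpow (-t) _ _).1 ht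
      rw [← Equiv.Perm.mul_apply, ← zpow_add, neg_add_cancel, zpow_zero,
        Equiv.Perm.one_apply] at this
      exact p.symm this
    · rintro x y z ⟨t, ht⟩ ⟨s, hs⟩
      refine ⟨s + t, ?_⟩
      have := (h.zpow s _ _).1 ht
      rw [← Equiv.Perm.mul_apply, ← zpow_add] at this
      exact p.trans this hs

/-- the base cycle of a class -/
noncomputable def base {β : Type*} (q : Setoid β) (x : β) : β := (Quotient.mk q x).out

lemma base_rel {β : Type*} (q : Setoid β) (x : β) : q x (base q x) := by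
  have h : Quotient.mk q (base q x) = Quotient.mk q x := Quotient.out_eq _
  exact q.symm (Quotient.exact h)

lemma base_eq {β : Type*} (q : Setoid β) {x y : β} (h : q x y) : base q x = base q y := by
  unfold base
  rw [Quotient.sound h]

lemma base_base {β : Type*} (q : Setoid β) (x : β) : base q (base q x) = base q x :=
  (base_eq q (base_rel q x)).symm

/-- the offset -/
noncomputable def off (σ : Equiv.Perm α) (p : Setoid α) (q : Setoid (Cyc σ)) (x : Cyc σ) : ℕ :=
  sInf {a : ℕ | p ((σ ^ (a + 1 : ℕ)) x.out) (base q x).out}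

/-- the length of a cycle -/
noncomputable def len (σ : Equiv.Perm α) (x : Cyc σ) : ℕ := Nat.card {y : α // cyc σ y = x}

lemma len_pos [Finite α] (σ : Equiv.Perm α) (x : Cyc σ) : 0 < len σ x := by
  unfold len
  have : Nonempty {y : α // cyc σ y = x} := ⟨⟨x.out, Quotient.out_eq _⟩⟩
  exact Nat.card_pos

lemma cyc_zpow (σ : Equiv.Perm α) (t : ℤ) (a : α) : cyc σ ((σ ^ t) a) = cyc σ a :=
  Quotient.sound (s := Equiv.Perm.SameCycle.setoid σ)
    (show σ.SameCycle ((σ ^ t) a) a from ⟨-t, by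
      rw [← Equiv.Perm.mul_apply, ← zpow_add, neg_add_cancel, zpow_zero, Equiv.Perm.one_apply]⟩)

lemma exists_period [Finite α] (σ : Equiv.Perm α) (a : α) :
    ∃ u : ℕ, 1 ≤ u ∧ u ≤ len σ (cyc σ a) ∧ (σ ^ u) a = a := by
  classical
  have : Fintype {y : α // cyc σ y = cyc σ a} := Fintype.ofFinite _
  let f : Fin (len σ (cyc σ a) + 1) → {y : α // cyc σ y = cyc σ a} := fun i =>
    ⟨(σ ^ (i : ℕ)) a, by
      have := cyc_zpow σ ((i : ℕ) : ℤ) a
      rwa [zpow_natCast] at this⟩
  have hcard : Fintype.card {y : α // cyc σ y = cyc σ a} <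
      Fintype.card (Fin (len σ (cyc σ a) + 1)) := by
    rw [Fintype.card_fin, ← Nat.card_eq_fintype_card]
    exact Nat.lt_succ_self _
  obtain ⟨i, j, hij, hf⟩ := Fintype.exists_ne_map_eq_of_card_lt f hcard
  have key : ∀ i j : Fin (len σ (cyc σ a) + 1), (i : ℕ) < j → f i = f j →
      ∃ u : ℕ, 1 ≤ u ∧ u ≤ len σ (cyc σ a) ∧ (σ ^ u) a = a := by
    intro i j hlt h
    refine ⟨j - i, by omega, by omega, ?_⟩
    have h1 : (σ ^ (i : ℕ)) a = (σ ^ (j : ℕ)) a := congrArg Subtype.val h
    have h2 : (j : ℕ) = i + (j - i) := by omega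
    rw [h2, pow_add, Equiv.Perm.mul_apply] at h1
    exact ((σ ^ (i : ℕ)).injective h1).symm
  rcases lt_or_gt_of_ne (fun h => hij (Fin.ext h)) with h | h
  · exact key i j h hf
  · exact key j i h hf.symm

lemma zpow_period {σ : Equiv.Perm α} {a : α} {u : ℕ} (hu : (σ ^ u) a = a) (m : ℤ) :
    (σ ^ (u * m : ℤ)) a = a := by
  have h1 : (σ ^ u) ^ m = σ ^ ((u : ℤ) * m) := by rw [zpow_mul, zpow_natCast]
  rw [← h1]
  exact Equiv.Perm.zpow_apply_eq_self_of_apply_eq_self hu m

lemma off_spec [Finite α] {σ : Equiv.Perm α} {p : Setoid α} (h : PInv σ p) (x : Cyc σ) :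
    p ((σ ^ (off σ p (joinS σ p h) x + 1 : ℕ)) x.out) (base (joinS σ p h) x).out ∧
      off σ p (joinS σ p h) x < len σ x := by
  obtain ⟨t, ht⟩ : ∃ t : ℤ, p ((σ ^ t) x.out) (base (joinS σ p h) x).out :=
    base_rel (joinS σ p h) x
  have hx : cyc σ x.out = x := Quotient.out_eq _
  obtain ⟨u, hu1, hu2, hu3⟩ := exists_period σ x.out
  rw [hx] at hu2
  have huZ : (0 : ℤ) < u := by exact_mod_cast hu1
  set a : ℕ := ((t - 1) % u).toNat with ha
  have ha1 : (a : ℤ) = (t - 1) % u := Int.toNat_of_nonneg (Int.emod_nonneg _ huZ.ne')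
  have ha2 : (a : ℤ) < u := by rw [ha1]; exact Int.emod_lt_of_pos _ huZ
  have hmem : p ((σ ^ (a + 1 : ℕ)) x.out) (base (joinS σ p h) x).out := by
    have h1 : (t : ℤ) = ((a + 1 : ℕ) : ℤ) + u * ((t - 1) / u) := by
      have := Int.emod_add_mul_ediv (t - 1) u
      push_cast
      rw [ha1]
      linarith
    rw [h1, zpow_add, Equiv.Perm.mul_apply, zpow_period hu3, zpow_natCast] at ht
    exact ht
  have hne : {a : ℕ | p ((σ ^ (a + 1 : ℕ)) x.out) (base (joinS σ p h) x).out}.Nonempty := ⟨a, hmem⟩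
  refine ⟨Nat.sInf_mem hne, ?_⟩
  have h1 : off σ p (joinS σ p h) x ≤ a := Nat.sInf_le hmem
  have h2 : a < u := by exact_mod_cast ha2
  omega

/-- the period of the base block -/
lemma period_iff [Finite α] {σ : Equiv.Perm α} {p : Setoid α} (h : PInv σ p) {b : Cyc σ}
    (hb : base (joinS σ p h) b = b) (t : ℤ) :
    p ((σ ^ t) b.out) b.out ↔ ((off σ p (joinS σ p h) b + 1 : ℕ) : ℤ) ∣ t := by
  obtain ⟨hs, -⟩ := off_spec h b
  rw [hb] at hs
  set c : ℕ := off σ p (joinS σ p h) b + 1 with hc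
  have hmul : ∀ m : ℤ, p ((σ ^ ((c : ℤ) * m)) b.out) b.out := by
    intro m
    induction m using Int.induction_on with
    | zero => simp
    | succ i ih =>
      rw [mul_add, mul_one, zpow_add, Equiv.Perm.mul_apply]
      have := (h.zpow ((c : ℤ) * i) _ _).1 hs
      rw [← zpow_natCast] at this
      exact p.trans this ih
    | pred i ih =>
      rw [mul_sub, mul_one]
      have h1 := (h.zpow ((c : ℤ) * (-i) - c) _ _).1 hs
      rw [← zpow_natCast, ← Equiv.Perm.mul_apply, ← zpow_add, sub_add_cancel] at h1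
      exact p.trans (p.symm h1) ih
  constructor
  · intro ht
    have hc0 : (0 : ℤ) < c := by rw [hc]; positivity
    have h1 := Int.emod_add_mul_ediv t c
    by_contra hcon
    have hr : t % c ≠ 0 := fun h0 => hcon (Int.dvd_of_emod_eq_zero h0)
    have hr0 : 0 ≤ t % c := Int.emod_nonneg _ hc0.ne'
    have hr1 : t % c < c := Int.emod_lt_of_pos _ hc0
    obtain ⟨v, hv⟩ : ∃ v : ℕ, t % c = ((v + 1 : ℕ) : ℤ) := by
      refine ⟨(t % c).toNat - 1, ?_⟩
      have : (1 : ℤ) ≤ t % c := by omega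
      omega
    have h2 : p ((σ ^ (v + 1 : ℕ)) b.out) b.out := by
      have h3 := (h.zpow ((v + 1 : ℕ) : ℤ) _ _).1 (hmul (t / c))
      rw [← Equiv.Perm.mul_apply, ← zpow_add, ← hv, h1] at h3
      rw [← zpow_natCast, ← hv]
      exact p.trans (p.symm h3) ht
    have h4 : off σ p (joinS σ p h) b ≤ v := by
      apply Nat.sInf_le
      change p ((σ ^ (v + 1 : ℕ)) b.out) (base (joinS σ p h) b).out
      rw [hb]
      exact h2
    rw [hv] at hr1
    have : v + 1 < c := by exact_mod_cast hr1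
    omega
  · rintro ⟨m, rfl⟩
    exact hmul m

lemma p_char [Finite α] {σ : Equiv.Perm α} {p : Setoid α} (h : PInv σ p) {a b : α} {i j : ℤ}
    (hi : (σ ^ i) (cyc σ a).out = a) (hj : (σ ^ j) (cyc σ b).out = b) :
    p a b ↔ (joinS σ p h) (cyc σ a) (cyc σ b) ∧
      ((off σ p (joinS σ p h) (base (joinS σ p h) (cyc σ a)) + 1 : ℕ) : ℤ) ∣
        (i - off σ p (joinS σ p h) (cyc σ a)) - (j - off σ p (joinS σ p h) (cyc σ b)) := by
  set q := joinS σ p h with hq
  have hrel : p a b → q (cyc σ a) (cyc σ b) := by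
    intro hab
    refine ⟨i - j, ?_⟩
    have h1 := (h.zpow (-j) _ _).1 hab
    have h2 : (σ ^ (-j)) a = (σ ^ (i - j)) (cyc σ a).out := by
      conv_lhs => rw [← hi]
      rw [← Equiv.Perm.mul_apply, ← zpow_add]
      congr 2
      ring
    have h3 : (σ ^ (-j)) b = (cyc σ b).out := by
      conv_lhs => rw [← hj]
      rw [← Equiv.Perm.mul_apply, ← zpow_add, neg_add_cancel, zpow_zero, Equiv.Perm.one_apply]
    rw [h2, h3] at h1
    exact h1
  have key : q (cyc σ a) (cyc σ b) → (p a b ↔
      ((off σ p q (base q (cyc σ a)) + 1 : ℕ) : ℤ) ∣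
        (i - off σ p q (cyc σ a)) - (j - off σ p q (cyc σ b))) := by
    intro hab
    have hbb := base_eq q hab
    set b₀ := base q (cyc σ a) with hb₀
    have hb₀b : base q b₀ = b₀ := base_base q _
    obtain ⟨ha, -⟩ := off_spec h (cyc σ a)
    obtain ⟨hb, -⟩ := off_spec h (cyc σ b)
    rw [← hq, ← hb₀] at ha
    rw [← hq, ← hbb] at hb
    set A := off σ p q (cyc σ a) with hA
    set B := off σ p q (cyc σ b) with hB
    have ha' : p a ((σ ^ (i - (A + 1))) b₀.out) := by
      have h1 := (h.zpow (i - (A + 1)) _ _).1 ha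
      rw [← zpow_natCast, ← Equiv.Perm.mul_apply, ← zpow_add] at h1
      have h2 : (i - (A + 1) + ((A + 1 : ℕ) : ℤ)) = i := by push_cast; ring
      rw [h2, hi] at h1
      exact h1
    have hb' : p b ((σ ^ (j - (B + 1))) b₀.out) := by
      have h1 := (h.zpow (j - (B + 1)) _ _).1 hb
      rw [← zpow_natCast, ← Equiv.Perm.mul_apply, ← zpow_add] at h1
      have h2 : (j - (B + 1) + ((B + 1 : ℕ) : ℤ)) = j := by push_cast; ring
      rw [h2, hj] at h1
      exact h1
    have h3 : p a b ↔ p ((σ ^ (i - (A + 1))) b₀.out) ((σ ^ (j - (B + 1))) b₀.out) :=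
      ⟨fun hab => p.trans (p.symm ha') (p.trans hab hb'),
        fun hab => p.trans ha' (p.trans hab (p.symm hb'))⟩
    rw [h3, h.zpow (-(j - (B + 1))), ← Equiv.Perm.mul_apply, ← Equiv.Perm.mul_apply, ← zpow_add,
      ← zpow_add, neg_add_cancel, zpow_zero, Equiv.Perm.one_apply, period_iff h hb₀b]
    have h4 : -(j - ((B : ℤ) + 1)) + (i - (A + 1)) = (i - A) - (j - B) := by ring
    rw [h4]
  constructor
  · intro hab
    exact ⟨hrel hab, (key (hrel hab)).1 hab⟩
  · rintro ⟨h1, h2⟩
    exact (key h1).2 h2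

/-- the number of invariant set partitions -/
theorem card_inv_le [Fintype α] [DecidableEq α] (σ : Equiv.Perm α) :
    Nat.card {p : Setoid α // PInv σ p} ≤
      Nat.bell (Nat.card (Cyc σ)) * 2 ^ (Fintype.card α - Nat.card (Cyc σ)) ∧
      σ.support.card ≤ 2 * (Fintype.card α - Nat.card (Cyc σ)) ∧
      Nat.card (Cyc σ) ≤ Fintype.card α := by
  classical
  have : Fintype (Cyc σ) := Fintype.ofFinite _
  have hlen : ∀ x : Cyc σ, len σ x = (univ.filter (fun y : α => cyc σ y = x)).card := by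
    intro x
    unfold len
    rw [Nat.card_eq_fintype_card, Fintype.card_subtype]
  have hsum : ∑ x : Cyc σ, len σ x = Fintype.card α := by
    rw [← Finset.card_univ (α := α), Finset.card_eq_sum_card_fiberwise (f := cyc σ) (t := univ)
      (fun _ _ => by simp)]
    exact Finset.sum_congr rfl (fun x _ => hlen x)
  have hQ : Nat.card (Cyc σ) = Fintype.card (Cyc σ) := Nat.card_eq_fintype_card
  have hle : Fintype.card (Cyc σ) ≤ Fintype.card α := by
    calc Fintype.card (Cyc σ) = ∑ x : Cyc σ, 1 := by simp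
      _ ≤ ∑ x : Cyc σ, len σ x := Finset.sum_le_sum (fun x _ => len_pos σ x)
      _ = _ := hsum
  have hsub : ∑ x : Cyc σ, (len σ x - 1) = Fintype.card α - Fintype.card (Cyc σ) := by
    rw [Finset.sum_tsub_distrib _ (fun x _ => len_pos σ x), hsum]
    simp
  refine ⟨?_, ?_, by rw [hQ]; exact hle⟩
  · let F : {p : Setoid α // PInv σ p} → Setoid (Cyc σ) × ((x : Cyc σ) → Fin (len σ x)) := fun p =>
      (joinS σ p.1 p.2, fun x => ⟨off σ p.1 (joinS σ p.1 p.2) x, (off_spec p.2 x).2⟩)
    have hF : Function.Injective F := by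
      intro p p' hpp
      have h1 : joinS σ p.1 p.2 = joinS σ p'.1 p'.2 := congrArg Prod.fst hpp
      have h2 : ∀ x, off σ p.1 (joinS σ p.1 p.2) x = off σ p'.1 (joinS σ p'.1 p'.2) x := by
        intro x
        have h3 := congrArg Prod.snd hpp
        exact congrArg Fin.val (congrFun h3 x)
      apply Subtype.ext
      ext a b
      obtain ⟨i, hi⟩ := exists_zpow_out σ a
      obtain ⟨j, hj⟩ := exists_zpow_out σ b
      rw [p_char p.2 hi hj, p_char p'.2 hi hj, h2, h2, h2, h1]
    have hprod : ∏ x : Cyc σ, len σ x ≤ 2 ^ (Fintype.card α - Fintype.card (Cyc σ)) := by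
      rw [← hsub, ← Finset.prod_pow_eq_pow_sum]
      apply Finset.prod_le_prod' 
      intro x _
      have h1 := len_pos σ x
      have h2 := Nat.lt_two_pow_self (n := len σ x - 1)
      omega
    calc Nat.card {p : Setoid α // PInv σ p}
        ≤ Nat.card (Setoid (Cyc σ) × ((x : Cyc σ) → Fin (len σ x))) :=
          Nat.card_le_card_of_injective F hF
      _ = Nat.bell (Nat.card (Cyc σ)) * ∏ x : Cyc σ, len σ x := by
          rw [Nat.card_prod, card_setoid, Nat.card_pi, hQ]
          simp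
      _ ≤ _ := by
          rw [hQ]
          exact Nat.mul_le_mul_left _ hprod
  · rw [hQ, ← hsub, Finset.mul_sum]
    rw [Finset.card_eq_sum_card_fiberwise (s := σ.support) (f := cyc σ) (t := univ)
      (fun _ _ => by simp)]
    apply Finset.sum_le_sum
    intro x _
    rcases (σ.support.filter (fun y => cyc σ y = x)).eq_empty_or_nonempty with h | ⟨y, hy⟩
    · rw [h]; simp
    · rw [mem_filter] at hy
      have hsubset : (σ.support.filter (fun y => cyc σ y = x)).card ≤ len σ x := by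
        rw [hlen]
        exact Finset.card_le_card (Finset.filter_subset_filter _ (Finset.subset_univ _))
      have h2 : 1 < len σ x := by
        rw [hlen, Finset.one_lt_card]
        refine ⟨y, by simp [hy.2], σ y, ?_, fun h => (Equiv.Perm.mem_support.1 hy.1) h.symm⟩
        rw [mem_filter]
        refine ⟨mem_univ _, ?_⟩
        have := cyc_zpow σ 1 y
        rw [zpow_one] at this
        rw [this, hy.2]
      omega

end Pool.Agent.KS6_8.HG
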