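import Pool.Graph.R_seed8.H244R2.GraphFinal

/-!
# Set partitions: their number, and the number of those that are invariant under a permutation
-/

set_option autoImplicit false

namespace Pool.Agent.KS6_8.HG

open Finset Nat Filter Topology Pool.Agent.H244R2

instance finite_setoid (β : Type*) [Finite β] : Finite (Setoid β) := by
  have h : Function.Injective (fun (s : Setoid β) => (fun a b => s a b : β → β → Prop)) := by
    intro s t h
    ext a b
    exact iff_of_eq (congrFun (congrFun h a) b)
  exact Finite.of_injective _ h

noncomputable instance fintype_setoid (β : Type*) [Finite β] : Fintype (Setoid β) :=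
  Fintype.ofFinite _

/-- functions with a given kernel are embeddings of the quotient -/
noncomputable def kerEquiv {α β : Type*} (p : Setoid α) :
    {f : α → β // Setoid.ker f = p} ≃ (Quotient p ↪ β) where
  toFun f := ⟨Quotient.lift f.1 (fun a b hab => by
      have h : (Setoid.ker f.1) a b := by rw [f.2]; exact hab
      exact h), by
    intro x y
    induction x using Quotient.inductionOn with
    | h a =>
    induction y using Quotient.inductionOn with
    | h b =>
    intro h
    apply Quotient.sound
    have h' : (Setoid.ker f.1) a b := h
    rw [f.2] at h'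
    exact h'⟩
  invFun g := ⟨fun a => g (Quotient.mk p a), by
    ext a b
    rw [Setoid.ker_def]
    constructor
    · intro h
      exact Quotient.exact (g.injective h)
    · intro h
      exact congrArg g (Quotient.sound h)⟩
  left_inv f := by
    apply Subtype.ext
    funext a
    rfl
  right_inv g := by
    ext x
    induction x using Quotient.inductionOn with
    | h a => rfl

lemma pow_card_eq_sum {α : Type*} [Fintype α] (m : ℕ) :
    m ^ Fintype.card α = ∑ p : Setoid α, m.descFactorial (Nat.card (Quotient p)) := by
  classical
  have h1 : Fintype.card (α → Fin m) = m ^ Fintype.card α := by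
    rw [Fintype.card_fun, Fintype.card_fin]
  rw [← h1, ← Finset.card_univ,
    Finset.card_eq_sum_card_fiberwise (f := fun f : α → Fin m => Setoid.ker f) (t := univ)
      (fun _ _ => by simp)]
  apply Finset.sum_congr rfl
  intro p _
  have : Fintype (Quotient p) := Fintype.ofFinite _
  rw [Nat.card_eq_fintype_card, ← Fintype.card_fin m, ← Fintype.card_embedding_eq,
    Fintype.card_fin, ← Fintype.card_congr (kerEquiv p), Fintype.card_subtype]

lemma hasSum_desc (c : ℕ) :
    HasSum (fun m : ℕ => ((m.descFactorial c : ℕ) : ℝ) / (m ! : ℝ)) (Real.exp 1) := by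
  have hinj : Function.Injective (fun j : ℕ => j + c) := add_left_injective c
  rw [← hinj.hasSum_iff]
  · have h : ((fun m : ℕ => ((m.descFactorial c : ℕ) : ℝ) / (m ! : ℝ)) ∘ fun j : ℕ => j + c) =
        fun j : ℕ => (1 : ℝ) ^ j / (j ! : ℝ) := by
      funext j
      simp only [Function.comp, one_pow]
      have h2 : ((j + c) ! : ℝ) = (j ! : ℝ) * (((j + c).descFactorial c : ℕ) : ℝ) := by
        have := Nat.factorial_mul_descFactorial (show c ≤ j + c by omega)
        rw [Nat.add_sub_cancel] at this
        exact_mod_cast this.symm
      have h3 : (((j + c).descFactorial c : ℕ) : ℝ) ≠ 0 := by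
        have := Nat.descFactorial_pos.2 (show c ≤ j + c by omega)
        exact_mod_cast this.ne'
      have h4 : (j ! : ℝ) ≠ 0 := by positivity
      rw [h2]
      field_simp
    rw [h, Real.exp_eq_exp_ℝ]
    exact NormedSpace.expSeries_div_hasSum_exp (1 : ℝ)
  · intro m hm
    have : m < c := by
      by_contra hcon
      push Not at hcon
      exact hm ⟨m - c, by simp only; omega⟩
    rw [Nat.descFactorial_eq_zero_iff_lt.2 this]
    simp

/-- the number of set partitions is the Bell number -/
theorem card_setoid (α : Type*) [Fintype α] :
    Nat.card (Setoid α) = Nat.bell (Fintype.card α) := by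
  have h1 : HasSum (fun m : ℕ => dob (Fintype.card α) m)
      (∑ p : Setoid α, Real.exp 1) := by
    have h2 := hasSum_sum (s := (univ : Finset (Setoid α)))
      (f := fun p m => ((m.descFactorial (Nat.card (Quotient p)) : ℕ) : ℝ) / (m ! : ℝ))
      (a := fun _ => Real.exp 1) (fun p _ => hasSum_desc _)
    refine h2.congr_fun ?_ |> fun h => h
    intro m
    unfold dob
    rw [← Finset.sum_div]
    congr 1
    exact_mod_cast pow_card_eq_sum m
  have h3 := h1.tsum_eq
  rw [tsum_dob, sum_const, nsmul_eq_mul, mul_comm, Finset.card_univ] at h3
  have h4 := mul_right_cancel₀ (Real.exp_pos 1).ne' h3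
  rw [Nat.card_eq_fintype_card]
  exact_mod_cast h4.symm

end Pool.Agent.KS6_8.HG
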