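import Pool.Agent.KS6_8.HG.Tup
import Pool.Agent.KS6_8.HG.Final

/-!
# The power action of `Sym(Ω) Wr S_k`, `k ≥ 3`
-/

set_option autoImplicit false

namespace Pool.Agent.KS6_8.HG

open Finset Nat Filter Topology MulAction Pool.Agent.H244R2

/-- the number of orbits on `n`-sets for the power action -/
noncomputable def powOrb (k : ℕ) (Ω : Type) [DecidableEq (Fin k → Ω)] (n : ℕ) : ℕ :=
  Nat.card (orbitRel.Quotient (wreathPow k Ω) (Set.powersetCard (Fin k → Ω) n))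

lemma PN_le_bell {n : ℕ} (σ : Equiv.Perm (Fin n)) : PN σ ≤ Nat.bell n := by
  unfold PN
  have h : Nat.card (Setoid (Fin n)) = Nat.bell n := by rw [card_setoid, Fintype.card_fin]
  rw [← h]
  exact Nat.card_le_card_of_injective _ Subtype.val_injective

lemma pow_upper {k : ℕ} (hk : 3 ≤ k) (Ω : Type) [DecidableEq (Fin k → Ω)] : ∀ᶠ n : ℕ in atTop,
    (powOrb k Ω n : ℝ) * ((n ! : ℝ) * (k ! : ℝ)) ≤
      (Nat.bell n : ℝ) ^ k * (1 + (2 ^ k * 128 + k ! + 8) / tt n ^ 2) := by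
  filter_upwards [sum_PN_pow hk, sum_PN, tt_tendsto.eventually_ge_atTop 1] with n h1 h2 ht
  set t := tt n with htd
  have ht0 : 0 < t := by linarith
  set B := (Nat.bell n : ℝ) with hB
  have hB0 : 0 ≤ B := Nat.cast_nonneg _
  have h3 : ∀ σ : Equiv.Perm (Fin n), ∑ τ : Equiv.Perm (Fin k),
      (Nat.card (fixedBy (Tup k n) ((σ, τ) : Equiv.Perm (Fin n) × Equiv.Perm (Fin k))) : ℝ) ≤
      (PN σ : ℝ) ^ k + (k ! : ℝ) * ((PN σ : ℝ) * B ^ (k - 2)) := by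
    intro σ
    rw [← Finset.add_sum_erase _ _ (mem_univ (1 : Equiv.Perm (Fin k)))]
    apply _root_.add_le_add
    · exact_mod_cast card_fixed_one (k := k) σ
    · calc ∑ τ ∈ (univ : Finset (Equiv.Perm (Fin k))).erase 1,
            (Nat.card (fixedBy (Tup k n) ((σ, τ) : Equiv.Perm (Fin n) × Equiv.Perm (Fin k))) : ℝ)
          ≤ ∑ τ ∈ (univ : Finset (Equiv.Perm (Fin k))).erase 1, (PN σ : ℝ) * B ^ (k - 2) := by
            apply Finset.sum_le_sum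
            intro τ hτ
            rw [hB]
            exact_mod_cast card_fixed_ne hk σ (mem_erase.1 hτ).1
        _ ≤ ∑ τ : Equiv.Perm (Fin k), (PN σ : ℝ) * B ^ (k - 2) :=
            Finset.sum_le_sum_of_subset_of_nonneg (Finset.erase_subset _ _)
              (fun _ _ _ => by positivity)
        _ = _ := by
            rw [sum_const, Finset.card_univ, Fintype.card_perm, Fintype.card_fin, nsmul_eq_mul]
  have h4 : (powOrb k Ω n : ℝ) * ((n ! : ℝ) * (k ! : ℝ)) ≤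
      ∑ σ : Equiv.Perm (Fin n), ((PN σ : ℝ) ^ k + (k ! : ℝ) * ((PN σ : ℝ) * B ^ (k - 2))) := by
    have h5 := orbits_le (k := k) (n := n) (Ω := Ω)
    have h6 : (powOrb k Ω n : ℝ) * ((n ! : ℝ) * (k ! : ℝ)) ≤
        ∑ h : Equiv.Perm (Fin n) × Equiv.Perm (Fin k), (Nat.card (fixedBy (Tup k n) h) : ℝ) := by
      unfold powOrb
      exact_mod_cast h5
    refine h6.trans ?_
    rw [Fintype.sum_prod_type]
    exact Finset.sum_le_sum (fun σ _ => h3 σ)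
  have h5 : ∑ σ : Equiv.Perm (Fin n), (PN σ : ℝ) ^ k ≤ B ^ k + B ^ k * (2 ^ k * 128 / t ^ 2) := by
    rw [← Finset.add_sum_erase _ _ (mem_univ (1 : Equiv.Perm (Fin n)))]
    apply _root_.add_le_add _ h1
    exact pow_le_pow_left₀ (by positivity) (by rw [hB]; exact_mod_cast PN_le_bell 1) k
  have h6 : ∑ σ : Equiv.Perm (Fin n), (k ! : ℝ) * ((PN σ : ℝ) * B ^ (k - 2)) ≤
      (k ! : ℝ) * (B ^ k * (1 / t ^ 2)) := by
    rw [← Finset.mul_sum, ← Finset.sum_mul]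
    apply mul_le_mul_of_nonneg_left _ (by positivity)
    calc (∑ σ : Equiv.Perm (Fin n), (PN σ : ℝ)) * B ^ (k - 2)
        ≤ (B ^ 2 * (1 / t ^ 2)) * B ^ (k - 2) := by gcongr
      _ = B ^ k * (1 / t ^ 2) := by
          have : B ^ k = B ^ 2 * B ^ (k - 2) := by rw [← pow_add]; congr 1; omega
          rw [this]; ring
  rw [Finset.sum_add_distrib] at h4
  calc (powOrb k Ω n : ℝ) * ((n ! : ℝ) * (k ! : ℝ)) ≤ _ := h4
    _ ≤ (B ^ k + B ^ k * (2 ^ k * 128 / t ^ 2)) + (k ! : ℝ) * (B ^ k * (1 / t ^ 2)) :=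
        _root_.add_le_add h5 h6
    _ = B ^ k * (1 + (2 ^ k * 128 + k !) / t ^ 2) := by ring
    _ ≤ _ := by
        apply mul_le_mul_of_nonneg_left _ (by positivity)
        have h7 : ((2:ℝ) ^ k * 128 + k !) / t ^ 2 ≤ (2 ^ k * 128 + k ! + 8) / t ^ 2 :=
          div_le_div_of_nonneg_right (by linarith) (by positivity)
        linarith

lemma pow_lower {k : ℕ} (hk : 3 ≤ k) (Ω : Type) [Infinite Ω] [DecidableEq (Fin k → Ω)] :
    ∀ᶠ n : ℕ in atTop,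
    (Nat.bell n : ℝ) ^ k * (1 - (2 ^ k * 128 + k ! + 8) / tt n ^ 2) ≤
      (powOrb k Ω n : ℝ) * ((n ! : ℝ) * (k ! : ℝ)) := by
  filter_upwards [bell_shift, tt_tendsto.eventually_ge_atTop 2, eventually_ge_atTop 1]
    with n h1 ht hn
  set t := tt n with htd
  have ht0 : 0 < t := by linarith
  have hnt : (n:ℝ) = t ^ 20 := (tt_pow n).symm
  set B := (Nat.bell n : ℝ) with hB
  have hB0 : 0 ≤ B := Nat.cast_nonneg _
  have h2 : B ^ k ≤ (Nat.card {p : Tup k n // Disc p} : ℝ) +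
      (n : ℝ) ^ 2 * (Nat.bell (n - 1) : ℝ) ^ k := by
    rw [hB]; exact_mod_cast disc_ge (k := k) (n := n)
  have h3 : (Nat.card {p : Tup k n // Disc p} : ℝ) ≤
      (powOrb k Ω n : ℝ) * ((n ! : ℝ) * (k ! : ℝ)) := by
    unfold powOrb
    exact_mod_cast disc_le (k := k) (n := n) (Ω := Ω)
  have h4 : (n : ℝ) ^ 2 * (Nat.bell (n - 1) : ℝ) ^ k ≤ B ^ k * (8 / t ^ 2) := by
    have h5 := h1 1 hn
    rw [pow_one] at h5
    have h6 : 2 / t ^ 14 ≤ 1 := by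
      rw [div_le_one (by positivity)]
      have : t ≤ t ^ 14 := le_self_pow₀ (by linarith) (by norm_num)
      linarith
    calc (n : ℝ) ^ 2 * (Nat.bell (n - 1) : ℝ) ^ k
        ≤ (n : ℝ) ^ 2 * (2 * B / t ^ 14) ^ k := by gcongr
      _ = (n : ℝ) ^ 2 * (B ^ k * (2 / t ^ 14) ^ k) := by rw [← mul_pow]; congr 2; ring
      _ ≤ (n : ℝ) ^ 2 * (B ^ k * (2 / t ^ 14) ^ 3) := by
          gcongr ?_ * (?_ * ?_)
          exact pow_le_pow_of_le_one (by positivity) h6 hk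
      _ = B ^ k * (8 / t ^ 2) := by
          rw [hnt]; field_simp; norm_num
  have h5 : B ^ k * (8 / t ^ 2) ≤ B ^ k * ((2 ^ k * 128 + k ! + 8) / t ^ 2) := by
    gcongr
    have : (0:ℝ) ≤ 2 ^ k * 128 + k ! := by positivity
    linarith
  have h6 : B ^ k * (1 - (2 ^ k * 128 + k ! + 8) / t ^ 2) =
      B ^ k - B ^ k * ((2 ^ k * 128 + k ! + 8) / t ^ 2) := by ring
  rw [h6]
  linarith

/-- Bell number form of the main term -/
noncomputable def powB (k n : ℕ) : ℝ := (Nat.bell n : ℝ) ^ k / ((k ! : ℝ) * (n ! : ℝ))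

/-- elementary form of the main term -/
noncomputable def powE (k n : ℕ) (w : ℝ) : ℝ :=
  (Real.exp (n * (w - 1 + 1 / w) - 1) / Real.sqrt (w + 1)) ^ k / ((k ! : ℝ) * (n ! : ℝ))

theorem pow_bell {k : ℕ} (hk : 3 ≤ k) (Ω : Type) [Infinite Ω] [DecidableEq (Fin k → Ω)] :
    ∃ K : ℝ, 0 ≤ K ∧ ∀ᶠ n : ℕ in atTop, |(powOrb k Ω n : ℝ) / powB k n - 1| ≤
      K * (n : ℝ) ^ (-(1 / 10) : ℝ) := by
  refine ⟨2 ^ k * 128 + k ! + 8, by positivity, ?_⟩
  filter_upwards [pow_upper hk Ω, pow_lower hk Ω, eventually_ge_atTop 1,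
    tt_tendsto.eventually_ge_atTop 2] with n h1 h2 hn ht
  have hn0 : (0:ℝ) < n := by exact_mod_cast hn
  have hB0 : (0 : ℝ) < (Nat.bell n : ℝ) := by exact_mod_cast bell_pos n
  have hBk : (0 : ℝ) < (Nat.bell n : ℝ) ^ k := by positivity
  have h3 : (n : ℝ) ^ (-(1 / 10) : ℝ) = 1 / tt n ^ 2 := by
    rw [Real.rpow_neg hn0.le, ← Pool.Agent.Y349.OC.tt_sq, one_div]
  have h4 : (powOrb k Ω n : ℝ) / powB k n =
      ((powOrb k Ω n : ℝ) * ((n ! : ℝ) * (k ! : ℝ))) / (Nat.bell n : ℝ) ^ k := by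
    unfold powB
    have hf : (n ! : ℝ) ≠ 0 := by positivity
    have hf2 : (k ! : ℝ) ≠ 0 := by positivity
    field_simp
  rw [h4, h3, abs_le]
  constructor
  · have h5 : 1 - (2 ^ k * 128 + k ! + 8) / tt n ^ 2 ≤
        ((powOrb k Ω n : ℝ) * ((n ! : ℝ) * (k ! : ℝ))) / (Nat.bell n : ℝ) ^ k := by
      rw [le_div_iff₀ hBk]
      calc _ = _ := by ring
        _ ≤ _ := h2
    have h6 : ((2:ℝ) ^ k * 128 + k ! + 8) / tt n ^ 2 = (2 ^ k * 128 + k ! + 8) * (1 / tt n ^ 2) := by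
      ring
    rw [h6] at h5
    linarith
  · have h5 : ((powOrb k Ω n : ℝ) * ((n ! : ℝ) * (k ! : ℝ))) / (Nat.bell n : ℝ) ^ k ≤
        1 + (2 ^ k * 128 + k ! + 8) / tt n ^ 2 := by
      rw [div_le_iff₀ hBk]
      calc _ ≤ _ := h1
        _ = _ := by ring
    have h6 : ((2:ℝ) ^ k * 128 + k ! + 8) / tt n ^ 2 = (2 ^ k * 128 + k ! + 8) * (1 / tt n ^ 2) := by
      ring
    rw [h6] at h5
    linarith

/-- powers of ratios -/
lemma ratio_pow {a r K : ℝ} (h : |a - 1| ≤ K * r) (hr0 : 0 ≤ r) (hr1 : r ≤ 1) (hK : 0 ≤ K)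
    (k : ℕ) : |a ^ k - 1| ≤ ((1 + K) ^ k - 1) * r := by
  induction k with
  | zero => simp
  | succ k ih =>
    have h1 : 0 ≤ (1 + K) ^ k - 1 := by
      have : 1 ≤ (1 + K) ^ k := one_le_pow₀ (by linarith)
      linarith
    have h2 := Pool.Agent.Y349.OC.ratio_mul ih h hr0 hr1 h1 hK
    rw [pow_succ]
    refine h2.trans (le_of_eq ?_)
    ring

theorem pow_elem {k : ℕ} (hk : 3 ≤ k) (Ω : Type) [Infinite Ω] [DecidableEq (Fin k → Ω)] :
    ∃ K : ℝ, 0 ≤ K ∧ ∀ᶠ n : ℕ in atTop, |(powOrb k Ω n : ℝ) / powE k n (lamW n) - 1| ≤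
      K * (n : ℝ) ^ (-(1 / 10) : ℝ) := by
  obtain ⟨K, hK0, hK⟩ := pow_bell hk Ω
  have hp : (0:ℝ) ≤ (1 + 8) ^ k - 1 := by
    have : (1:ℝ) ≤ (1 + 8) ^ k := one_le_pow₀ (by norm_num)
    linarith
  refine ⟨K + ((1 + 8) ^ k - 1) + K * ((1 + 8) ^ k - 1), by positivity, ?_⟩
  filter_upwards [hK, Pool.Agent.Y349.OC.moser_wyman, eventually_ge_atTop 1] with n h1 h2 hn
  have hn0 : (0:ℝ) < n := by exact_mod_cast hn
  have h3 := ratio_pow h2 (by positivity) (Pool.Agent.Y349.OC.rpow_le_one_of hn) (by norm_num) k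
  have h4 := Pool.Agent.Y349.OC.ratio_mul h1 h3 (by positivity)
    (Pool.Agent.Y349.OC.rpow_le_one_of hn) hK0 hp
  set w := lamW (n : ℝ) with hw
  have hw0 : 0 ≤ w := lamW_nonneg _
  have h5 : (powOrb k Ω n : ℝ) / powE k n w = (powOrb k Ω n : ℝ) / powB k n *
        (Real.exp 1 * (Nat.bell n : ℝ) / Pool.Agent.Y349.OC.mwTerm n w) ^ k := by
    have hb : (Nat.bell n : ℝ) ≠ 0 := by exact_mod_cast (bell_pos _).ne'
    have hf : (n ! : ℝ) ≠ 0 := by positivity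
    have hf2 : (k ! : ℝ) ≠ 0 := by positivity
    have h6 : powE k n w = (Pool.Agent.Y349.OC.mwTerm n w / Real.exp 1) ^ k /
        ((k ! : ℝ) * (n ! : ℝ)) := by
      unfold powE Pool.Agent.Y349.OC.mwTerm
      have h7 : Real.exp (n * (w - 1 + 1 / w) - 1) =
          Real.exp (n * w - n + Real.exp w) / Real.exp 1 := by
        rw [← Real.exp_sub]
        congr 1
        rw [hw, Pool.Agent.Y349.OC.exp_lam hn0]
        ring
      rw [h7]
      congr 2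
      ring
    rw [h6]
    unfold powB
    have hT := (Pool.Agent.Y349.OC.mwTerm_pos (N := n) hw0).ne'
    have he : Real.exp 1 ≠ 0 := (Real.exp_pos 1).ne'
    rw [div_pow, div_pow, mul_pow]
    field_simp
  rw [h5]
  exact h4

end Pool.Agent.KS6_8.HG
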