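import Pool.Agent.KS6_8.HG.BellB

/-!
# The power action of the wreath product and tuples of set partitions
-/

set_option autoImplicit false

namespace Pool.Agent.KS6_8.HG

open Finset Nat MulAction Pool.Agent.H244R2

lemma perm_apply_inv {β : Type*} (σ : Equiv.Perm β) (a : β) : σ (σ⁻¹ a) = a := by
  rw [← Equiv.Perm.mul_apply, mul_inv_cancel]; rfl

lemma perm_inv_apply {β : Type*} (σ : Equiv.Perm β) (a : β) : σ⁻¹ (σ a) = a := by
  rw [← Equiv.Perm.mul_apply, inv_mul_cancel]; rfl

/-- The wreath product `Sym(Ω) Wr S_k` in its power (product) action on `Ω ^ k`: the group of all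
permutations `x ↦ (i ↦ g_i (x (τ i)))` of `Fin k → Ω`, for `g : Fin k → Sym(Ω)` and
`τ ∈ Sym(k)`. -/
def wreathPow (k : ℕ) (Ω : Type) : Subgroup (Equiv.Perm (Fin k → Ω)) where
  carrier := {σ | ∃ (g : Fin k → Equiv.Perm Ω) (τ : Equiv.Perm (Fin k)),
    ∀ (x : Fin k → Ω) (i : Fin k), σ x i = g i (x (τ i))}
  one_mem' := ⟨fun _ => 1, 1, fun _ _ => rfl⟩
  mul_mem' := by
    rintro a b ⟨g, τ, h⟩ ⟨g', τ', h'⟩
    refine ⟨fun i => g i * g' (τ i), τ' * τ, fun x i => ?_⟩
    rw [Equiv.Perm.mul_apply, h, h']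
    rfl
  inv_mem' := by
    rintro a ⟨g, τ, h⟩
    refine ⟨fun i => (g (τ⁻¹ i))⁻¹, τ⁻¹, fun x i => ?_⟩
    have h1 : a (a⁻¹ x) = x := by rw [← Equiv.Perm.mul_apply, mul_inv_cancel]; rfl
    have h2 := h (a⁻¹ x) (τ⁻¹ i)
    rw [h1] at h2
    have h3 : τ (τ⁻¹ i) = i := by rw [← Equiv.Perm.mul_apply, mul_inv_cancel]; rfl
    rw [h3] at h2
    rw [h2, ← Equiv.Perm.mul_apply, inv_mul_cancel]
    rfl

/-- `k`-tuples of partitions of `Fin n` -/
def Tup (k n : ℕ) : Type := Fin k → Setoid (Fin n)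

instance (k n : ℕ) : Finite (Tup k n) := inferInstanceAs (Finite (Fin k → Setoid (Fin n)))

noncomputable instance (k n : ℕ) : Fintype (Tup k n) := Fintype.ofFinite _

@[ext] lemma Tup.ext' {k n : ℕ} {p q : Tup k n} (h : ∀ i a b, p i a b ↔ q i a b) : p = q := by
  funext i
  ext a b
  exact h i a b

/-- the action of `S_n × S_k` on tuples -/
instance (k n : ℕ) : MulAction (Equiv.Perm (Fin n) × Equiv.Perm (Fin k)) (Tup k n) where
  smul h p := fun i => (p (h.2⁻¹ i)).comap (h.1⁻¹ : Equiv.Perm (Fin n))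
  one_smul p := by
    apply Tup.ext'
    intro i a b
    rfl
  mul_smul h h' p := by
    apply Tup.ext'
    intro i a b
    change p ((h.2 * h'.2)⁻¹ i) ((h.1 * h'.1)⁻¹ a) ((h.1 * h'.1)⁻¹ b) ↔
      p (h'.2⁻¹ (h.2⁻¹ i)) (h'.1⁻¹ (h.1⁻¹ a)) (h'.1⁻¹ (h.1⁻¹ b))
    rw [mul_inv_rev, mul_inv_rev]
    rfl

lemma smul_tup {k n : ℕ} (h : Equiv.Perm (Fin n) × Equiv.Perm (Fin k)) (p : Tup k n) (i : Fin k)
    (a b : Fin n) : (h • p) i a b ↔ p (h.2⁻¹ i) (h.1⁻¹ a) (h.1⁻¹ b) := Iff.rfl

section

variable {k n : ℕ} {Ω : Type}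

/-- an enumeration of an `n`-set -/
noncomputable def enum (A : Set.powersetCard (Fin k → Ω) n) : Fin n → (Fin k → Ω) :=
  fun a => ((Fintype.equivFinOfCardEq (α := A.1) (n := n)
    (by rw [Fintype.card_coe]; exact A.2)).symm a).1

lemma enum_injective (A : Set.powersetCard (Fin k → Ω) n) : Function.Injective (enum A) := by
  intro a b h
  exact (Equiv.injective _) (Subtype.ext h)

lemma mem_enum (A : Set.powersetCard (Fin k → Ω) n) (x : Fin k → Ω) :
    x ∈ A.1 ↔ ∃ a, enum A a = x := by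
  constructor
  · intro hx
    refine ⟨Fintype.equivFinOfCardEq (α := A.1) (n := n)
      (by rw [Fintype.card_coe]; exact A.2) ⟨x, hx⟩, ?_⟩
    unfold enum
    rw [Equiv.symm_apply_apply]
  · rintro ⟨a, rfl⟩
    exact Subtype.property _

/-- the tuple of kernels -/
noncomputable def kerT (A : Set.powersetCard (Fin k → Ω) n) : Tup k n :=
  fun i => Setoid.ker (fun a => enum A a i)

lemma kerT_iff (A : Set.powersetCard (Fin k → Ω) n) (i : Fin k) (a b : Fin n) :
    kerT A i a b ↔ enum A a i = enum A b i := Iff.rfl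

/-- any injective enumeration of `A` differs from `enum A` by a permutation -/
lemma exists_perm_enum (A : Set.powersetCard (Fin k → Ω) n) (x : Fin n → (Fin k → Ω))
    (hx : Function.Injective x) (hA : ∀ a, x a ∈ A.1) :
    ∃ σ : Equiv.Perm (Fin n), ∀ a, enum A (σ a) = x a := by
  choose f hf using fun a => (mem_enum A (x a)).1 (hA a)
  have hinj : Function.Injective f := by
    intro a b h
    apply hx
    rw [← hf a, ← hf b, h]
  exact ⟨Equiv.ofBijective f (Finite.injective_iff_bijective.1 hinj), hf⟩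

/-- two maps from a finite set with the same kernel differ by a permutation of `Ω` -/
lemma exists_perm_of_ker (u v : Fin n → Ω) (h : ∀ a b, u a = u b ↔ v a = v b) :
    ∃ π : Equiv.Perm Ω, ∀ a, π (u a) = v a := by
  classical
  have : Fintype (Set.range u) := Fintype.ofFinite _
  set m := Fintype.card (Set.range u) with hm
  let e : Fin m ≃ Set.range u := (Fintype.equivFin _).symm
  choose r hr using fun y : Set.range u => y.2
  let x : Fin m ↪ Ω := ⟨fun i => (e i).1, fun i j hij => e.injective (Subtype.ext hij)⟩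
  let y : Fin m ↪ Ω := ⟨fun i => v (r (e i)), fun i j hij => by
    have h1 := (h (r (e i)) (r (e j))).2 hij
    rw [hr, hr] at h1
    exact e.injective (Subtype.ext h1)⟩
  have hpre := Equiv.Perm.isMultiplyPretransitive Ω m
  obtain ⟨π, hπ⟩ := hpre.exists_smul_eq x y
  refine ⟨π, fun a => ?_⟩
  have h1 : x (e.symm ⟨u a, a, rfl⟩) = u a := by
    change (e (e.symm ⟨u a, a, rfl⟩)).1 = u a
    rw [Equiv.apply_symm_apply]
  have h2 : y (e.symm ⟨u a, a, rfl⟩) = v a := by
    change v (r (e (e.symm ⟨u a, a, rfl⟩))) = v a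
    rw [Equiv.apply_symm_apply, ← h]
    exact hr _
  have h3 := congrArg (fun z : Fin m ↪ Ω => z (e.symm ⟨u a, a, rfl⟩)) hπ
  rw [h2] at h3
  rw [← h1]
  exact h3

open scoped Pointwise in
/-- orbits of the wreath product against orbits on tuples of partitions, one direction -/
lemma rel_kerT {A B : Set.powersetCard (Fin k → Ω) n}
    [DecidableEq (Fin k → Ω)]
    (h : orbitRel (wreathPow k Ω) (Set.powersetCard (Fin k → Ω) n) A B) :
    orbitRel (Equiv.Perm (Fin n) × Equiv.Perm (Fin k)) (Tup k n) (kerT A) (kerT B) := by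
  rw [orbitRel_apply, mem_orbit_iff] at h ⊢
  obtain ⟨γ', hA⟩ := h
  obtain ⟨g, τ, hγ⟩ := γ'.2
  set γ : Equiv.Perm (Fin k → Ω) := γ'.1 with hγd
  have hA' : γ • B = A := hA
  have hmem : ∀ a, γ (enum B a) ∈ A.1 := by
    intro a
    rw [← hA', Set.powersetCard.coe_smul, mem_smul_finset]
    exact ⟨enum B a, (mem_enum B _).2 ⟨a, rfl⟩, rfl⟩
  obtain ⟨σ, hσ⟩ := exists_perm_enum A (fun a => γ (enum B a))
    (fun a b hab => enum_injective B (γ.injective hab)) hmem
  refine ⟨(σ, τ⁻¹), ?_⟩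
  apply Tup.ext'
  intro i a b
  rw [smul_tup]
  change kerT B (τ⁻¹⁻¹ i) (σ⁻¹ a) (σ⁻¹ b) ↔ kerT A i a b
  rw [inv_inv, kerT_iff, kerT_iff]
  have h1 : ∀ c, enum A c i = g i (enum B (σ⁻¹ c) (τ i)) := by
    intro c
    have := hσ (σ⁻¹ c)
    rw [perm_apply_inv] at this
    rw [this, hγ]
  rw [h1, h1]
  exact ((g i).injective.eq_iff).symm

/-- the permutation of `Ω ^ k` with given coordinates -/
def mkW (g : Fin k → Equiv.Perm Ω) (τ : Equiv.Perm (Fin k)) : Equiv.Perm (Fin k → Ω) where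
  toFun x := fun i => g i (x (τ i))
  invFun x := fun j => (g (τ⁻¹ j))⁻¹ (x (τ⁻¹ j))
  left_inv x := by
    funext j
    simp
  right_inv x := by
    funext i
    simp

open scoped Pointwise in
/-- the other direction -/
lemma rel_of_kerT {A B : Set.powersetCard (Fin k → Ω) n}
    [DecidableEq (Fin k → Ω)]
    (h : orbitRel (Equiv.Perm (Fin n) × Equiv.Perm (Fin k)) (Tup k n) (kerT A) (kerT B)) :
    orbitRel (wreathPow k Ω) (Set.powersetCard (Fin k → Ω) n) A B := by
  rw [orbitRel_apply, mem_orbit_iff] at h ⊢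
  obtain ⟨⟨σ, τ⟩, hA⟩ := h
  have h1 : ∀ i a b, enum B a (τ⁻¹ i) = enum B b (τ⁻¹ i) ↔
      enum A (σ a) i = enum A (σ b) i := by
    intro i a b
    have h2 : kerT A i (σ a) (σ b) ↔ ((σ, τ) • kerT B) i (σ a) (σ b) := by rw [hA]
    rw [smul_tup] at h2
    change kerT A i (σ a) (σ b) ↔ kerT B (τ⁻¹ i) (σ⁻¹ (σ a)) (σ⁻¹ (σ b)) at h2
    rw [perm_inv_apply, perm_inv_apply] at h2
    exact h2.symm
  choose π hπ using fun i => exists_perm_of_ker (fun a => enum B a (τ⁻¹ i))
    (fun a => enum A (σ a) i) (h1 i)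
  have hW : mkW π τ⁻¹ ∈ wreathPow k Ω := ⟨π, τ⁻¹, fun _ _ => rfl⟩
  refine ⟨(⟨mkW π τ⁻¹, hW⟩ : wreathPow k Ω), ?_⟩
  change (mkW π τ⁻¹ • B : Set.powersetCard (Fin k → Ω) n) = A
  have h3 : ∀ a, mkW π τ⁻¹ (enum B a) = enum A (σ a) := by
    intro a
    funext i
    exact hπ i a
  apply Subtype.ext
  rw [Set.powersetCard.coe_smul]
  ext x
  rw [mem_smul_finset, mem_enum A]
  constructor
  · rintro ⟨y, hy, rfl⟩
    obtain ⟨a, rfl⟩ := (mem_enum B y).1 hy
    exact ⟨σ a, (h3 a).symm⟩
  · rintro ⟨a, rfl⟩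
    refine ⟨enum B (σ⁻¹ a), (mem_enum B _).2 ⟨_, rfl⟩, ?_⟩
    change mkW π τ⁻¹ (enum B (σ⁻¹ a)) = _
    rw [h3, perm_apply_inv]

/-- tuples with discrete meet -/
def Disc (p : Tup k n) : Prop := ∀ a b, (∀ i, p i a b) → a = b

/-- every tuple with discrete meet comes from a set -/
lemma exists_kerT [Infinite Ω] (p : Tup k n) (hp : Disc p) :
    ∃ (A : Set.powersetCard (Fin k → Ω) n) (h : Equiv.Perm (Fin n) × Equiv.Perm (Fin k)),
      p = h • kerT A := by
  classical
  let j : Fin n ↪ Ω := Fin.valEmbedding.trans (Infinite.natEmbedding Ω)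
  let x : Fin n → (Fin k → Ω) := fun a i => j (Quotient.mk (p i) a).out
  have hx : ∀ a b i, x a i = x b i ↔ p i a b := by
    intro a b i
    constructor
    · intro h
      have h1 : (Quotient.mk (p i) a).out = (Quotient.mk (p i) b).out := j.injective h
      have h2 : Quotient.mk (p i) a = Quotient.mk (p i) b := by
        rw [← Quotient.out_eq (Quotient.mk (p i) a), h1, Quotient.out_eq]
      exact Quotient.exact h2
    · intro h
      have : Quotient.mk (p i) a = Quotient.mk (p i) b := Quotient.sound h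
      simp only [x, this]
  have hinj : Function.Injective x := by
    intro a b h
    exact hp a b (fun i => (hx a b i).1 (congrFun h i))
  let A : Set.powersetCard (Fin k → Ω) n := ⟨univ.map ⟨x, hinj⟩, by
    rw [Set.powersetCard.mem_iff, card_map, Finset.card_univ, Fintype.card_fin]⟩
  obtain ⟨σ, hσ⟩ := exists_perm_enum A x hinj (fun a => Finset.mem_map.2 ⟨a, mem_univ _, rfl⟩)
  refine ⟨A, (σ⁻¹, 1), ?_⟩
  apply Tup.ext'
  intro i a b
  rw [smul_tup]
  change p i a b ↔ kerT A ((1 : Equiv.Perm (Fin k))⁻¹ i) (σ⁻¹⁻¹ a) (σ⁻¹⁻¹ b)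
  rw [inv_inv, inv_one, kerT_iff, hσ, hσ]
  exact (hx a b _).symm

/-- lower bound for the number of orbits -/
theorem disc_le [Infinite Ω] [DecidableEq (Fin k → Ω)] :
    Nat.card {p : Tup k n // Disc p} ≤
      Nat.card (orbitRel.Quotient (wreathPow k Ω) (Set.powersetCard (Fin k → Ω) n)) *
        (n ! * k !) := by
  classical
  have hfin : Finite (orbitRel.Quotient (wreathPow k Ω) (Set.powersetCard (Fin k → Ω) n)) := by
    let f : orbitRel.Quotient (wreathPow k Ω) (Set.powersetCard (Fin k → Ω) n) →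
        orbitRel.Quotient (Equiv.Perm (Fin n) × Equiv.Perm (Fin k)) (Tup k n) :=
      Quotient.map' kerT (fun A B h => rel_kerT h)
    apply Finite.of_injective f
    intro a b
    induction a using Quotient.inductionOn' with
    | h A =>
    induction b using Quotient.inductionOn' with
    | h B =>
    intro h
    simp only [f, Quotient.map'_mk''] at h
    exact Quotient.sound' (rel_of_kerT (Quotient.exact' h))
  have key : ∀ p : {p : Tup k n // Disc p},
      ∃ (c : orbitRel.Quotient (wreathPow k Ω) (Set.powersetCard (Fin k → Ω) n))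
        (h : Equiv.Perm (Fin n) × Equiv.Perm (Fin k)), p.1 = h • kerT c.out := by
    intro p
    obtain ⟨A, h, hp⟩ := exists_kerT (Ω := Ω) p.1 p.2
    refine ⟨Quotient.mk'' A, ?_⟩
    have h1 : orbitRel (wreathPow k Ω) (Set.powersetCard (Fin k → Ω) n) A
        (Quotient.mk'' A : orbitRel.Quotient (wreathPow k Ω)
          (Set.powersetCard (Fin k → Ω) n)).out := by
      apply Setoid.symm'
      exact Quotient.exact' (Quotient.out_eq' _)
    have h2 := rel_kerT h1
    rw [orbitRel_apply, mem_orbit_iff] at h2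
    obtain ⟨h', hh'⟩ := h2
    exact ⟨h * h', by rw [hp, ← hh', mul_smul]⟩
  choose c h hch using key
  have hinj : Function.Injective (fun p => (c p, h p)) := by
    intro p q hpq
    simp only [Prod.mk.injEq] at hpq
    apply Subtype.ext
    rw [hch p, hch q, hpq.1, hpq.2]
  refine (Nat.card_le_card_of_injective _ hinj).trans (le_of_eq ?_)
  rw [Nat.card_prod, Nat.card_prod, Nat.card_perm, Nat.card_perm, Nat.card_fin, Nat.card_fin]

/-- upper bound for the number of orbits -/
theorem orbits_le [DecidableEq (Fin k → Ω)] :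
    Nat.card (orbitRel.Quotient (wreathPow k Ω) (Set.powersetCard (Fin k → Ω) n)) * (n ! * k !) ≤
      ∑ h : Equiv.Perm (Fin n) × Equiv.Perm (Fin k), Nat.card (fixedBy (Tup k n) h) := by
  classical
  have : Fintype (orbitRel.Quotient (Equiv.Perm (Fin n) × Equiv.Perm (Fin k)) (Tup k n)) :=
    Fintype.ofFinite _
  have : ∀ h : Equiv.Perm (Fin n) × Equiv.Perm (Fin k), Fintype (fixedBy (Tup k n) h) :=
    fun h => Fintype.ofFinite _
  have hb := MulAction.sum_card_fixedBy_eq_card_orbits_mul_card_group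
    (Equiv.Perm (Fin n) × Equiv.Perm (Fin k)) (Tup k n)
  have h1 : ∑ h : Equiv.Perm (Fin n) × Equiv.Perm (Fin k), Nat.card (fixedBy (Tup k n) h) =
      ∑ h : Equiv.Perm (Fin n) × Equiv.Perm (Fin k), Fintype.card (fixedBy (Tup k n) h) :=
    Finset.sum_congr rfl (fun h _ => Nat.card_eq_fintype_card)
  rw [h1, hb, Fintype.card_prod, Fintype.card_perm, Fintype.card_perm, Fintype.card_fin,
    Fintype.card_fin, ← Nat.card_eq_fintype_card]
  apply Nat.mul_le_mul_right
  let f : orbitRel.Quotient (wreathPow k Ω) (Set.powersetCard (Fin k → Ω) n) →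
      orbitRel.Quotient (Equiv.Perm (Fin n) × Equiv.Perm (Fin k)) (Tup k n) :=
    Quotient.map' kerT (fun A B h => rel_kerT h)
  apply Nat.card_le_card_of_injective f
  intro a b
  induction a using Quotient.inductionOn' with
  | h A =>
  induction b using Quotient.inductionOn' with
  | h B =>
  intro h
  simp only [f, Quotient.map'_mk''] at h
  exact Quotient.sound' (rel_of_kerT (Quotient.exact' h))

/-- fixed tuples of `(σ, 1)` -/
lemma card_fixed_one (σ : Equiv.Perm (Fin n)) :
    Nat.card (fixedBy (Tup k n) ((σ, 1) : Equiv.Perm (Fin n) × Equiv.Perm (Fin k))) ≤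
      PN σ ^ k := by
  have hI : ∀ p : fixedBy (Tup k n) ((σ, 1) : Equiv.Perm (Fin n) × Equiv.Perm (Fin k)), ∀ i,
      PInv σ (p.1 i) := by
    intro p i a b
    have h1 : ((σ, 1) : Equiv.Perm (Fin n) × Equiv.Perm (Fin k)) • p.1 = p.1 := p.2
    have h2 : (((σ, 1) : Equiv.Perm (Fin n) × Equiv.Perm (Fin k)) • p.1) i (σ a) (σ b) ↔
        p.1 i (σ a) (σ b) := by rw [h1]
    rw [smul_tup] at h2
    change p.1 ((1 : Equiv.Perm (Fin k))⁻¹ i) (σ⁻¹ (σ a)) (σ⁻¹ (σ b)) ↔ _ at h2
    rw [perm_inv_apply, perm_inv_apply, inv_one] at h2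
    exact h2
  let F : fixedBy (Tup k n) ((σ, 1) : Equiv.Perm (Fin n) × Equiv.Perm (Fin k)) →
      (Fin k → {p : Setoid (Fin n) // PInv σ p}) := fun p i => ⟨p.1 i, hI p i⟩
  have hF : Function.Injective F := by
    intro p q h
    apply Subtype.ext
    funext i
    exact congrArg Subtype.val (congrFun h i)
  refine (Nat.card_le_card_of_injective F hF).trans (le_of_eq ?_)
  rw [Nat.card_fun, Nat.card_fin]
  rfl

/-- fixed tuples of `(σ, τ)`, `τ ≠ 1` -/
lemma card_fixed_ne (hk : 3 ≤ k) (σ : Equiv.Perm (Fin n)) {τ : Equiv.Perm (Fin k)} (hτ : τ ≠ 1) :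
    Nat.card (fixedBy (Tup k n) ((σ, τ) : Equiv.Perm (Fin n) × Equiv.Perm (Fin k))) ≤
      PN σ * Nat.bell n ^ (k - 2) := by
  classical
  set ν := τ⁻¹ with hν
  have hν1 : ν ≠ 1 := fun h => hτ (by rw [hν] at h; exact inv_eq_one.1 h)
  obtain ⟨j₀, hj₀⟩ : ∃ j, ν j ≠ j := by
    by_contra hcon
    push Not at hcon
    exact hν1 (Equiv.ext hcon)
  obtain ⟨i₀, hi₀⟩ : ∃ i : Fin k, i ∉ ({j₀, ν j₀} : Finset (Fin k)) := by
    by_contra hcon
    push Not at hcon
    have h1 : (univ : Finset (Fin k)) ⊆ {j₀, ν j₀} := fun i _ => hcon i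
    have h2 := Finset.card_le_card h1
    rw [Finset.card_univ, Fintype.card_fin] at h2
    have h3 := Finset.card_le_two (a := j₀) (b := ν j₀)
    omega
  rw [mem_insert, mem_singleton, not_or] at hi₀
  -- the relation
  have hfix : ∀ p : fixedBy (Tup k n) ((σ, τ) : Equiv.Perm (Fin n) × Equiv.Perm (Fin k)),
      ∀ i a b, p.1 i a b ↔ p.1 (ν i) (σ⁻¹ a) (σ⁻¹ b) := by
    intro p i a b
    have h1 : ((σ, τ) : Equiv.Perm (Fin n) × Equiv.Perm (Fin k)) • p.1 = p.1 := p.2
    conv_lhs => rw [← h1]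
    rw [smul_tup]
  have hinv : ∀ p : fixedBy (Tup k n) ((σ, τ) : Equiv.Perm (Fin n) × Equiv.Perm (Fin k)),
      ν i₀ = i₀ → PInv σ (p.1 i₀) := by
    intro p h a b
    rw [hfix p i₀ (σ a) (σ b), h, perm_inv_apply, perm_inv_apply]
  have hbot : PInv σ (⊥ : Setoid (Fin n)) := by
    intro a b
    simp only [Setoid.bot_def]
    exact σ.injective.eq_iff.symm
  let R : Type := {i : Fin k // i ≠ i₀ ∧ i ≠ j₀}
  let F : fixedBy (Tup k n) ((σ, τ) : Equiv.Perm (Fin n) × Equiv.Perm (Fin k)) →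
      {p : Setoid (Fin n) // PInv σ p} × (R → Setoid (Fin n)) := fun p =>
    (if h : ν i₀ = i₀ then ⟨p.1 i₀, hinv p h⟩ else ⟨⊥, hbot⟩, fun i => p.1 i.1)
  have hF : Function.Injective F := by
    intro p q h
    have h2 : ∀ i, i ≠ i₀ → i ≠ j₀ → p.1 i = q.1 i := fun i hi hj =>
      congrFun (congrArg Prod.snd h) ⟨i, hi, hj⟩
    have hj : p.1 j₀ = q.1 j₀ := by
      have h3 : p.1 (ν j₀) = q.1 (ν j₀) := h2 _ (fun h => hi₀.2 h.symm) hj₀
      ext a b
      rw [hfix p, hfix q, h3]
    have hi : p.1 i₀ = q.1 i₀ := by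
      by_cases hνi : ν i₀ = i₀
      · have h3 := congrArg Prod.fst h
        simp only [F, dif_pos hνi] at h3
        exact congrArg Subtype.val h3
      · have h3 : p.1 (ν i₀) = q.1 (ν i₀) := by
          by_cases h4 : ν i₀ = j₀
          · rw [h4]; exact hj
          · exact h2 _ hνi h4
        ext a b
        rw [hfix p, hfix q, h3]
    apply Subtype.ext
    funext i
    by_cases h5 : i = i₀
    · rw [h5]; exact hi
    · by_cases h6 : i = j₀
      · rw [h6]; exact hj
      · exact h2 i h5 h6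
  refine (Nat.card_le_card_of_injective F hF).trans (le_of_eq ?_)
  rw [Nat.card_prod, Nat.card_fun, card_setoid, Fintype.card_fin]
  have hR : Nat.card R = k - 2 := by
    rw [Nat.card_eq_fintype_card, Fintype.card_subtype]
    have h7 : (univ.filter (fun i : Fin k => i ≠ i₀ ∧ i ≠ j₀)) = ((univ : Finset (Fin k)).erase i₀).erase j₀ := by
      ext i
      simp only [mem_filter, mem_univ, true_and, mem_erase]
      tauto
    rw [h7, card_erase_of_mem (mem_erase.2 ⟨fun h => hi₀.1 h.symm, mem_univ _⟩),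
      card_erase_of_mem (mem_univ _), Finset.card_univ, Fintype.card_fin]
    omega
  rw [hR]
  rfl

/-- the number of tuples with discrete meet -/
theorem disc_ge :
    Nat.bell n ^ k ≤ Nat.card {p : Tup k n // Disc p} + n ^ 2 * Nat.bell (n - 1) ^ k := by
  classical
  have hall : Nat.card (Tup k n) = Nat.bell n ^ k := by
    change Nat.card (Fin k → Setoid (Fin n)) = _
    rw [Nat.card_fun, card_setoid, Fintype.card_fin, Nat.card_fin]
  have hpair : ∀ a b : Fin n, a ≠ b →
      Nat.card {p : Tup k n // ∀ i, p i a b} ≤ Nat.bell (n - 1) ^ k := by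
    intro a b hab
    let F : {p : Tup k n // ∀ i, p i a b} → (Fin k → Setoid {x : Fin n // x ≠ b}) :=
      fun p i => (p.1 i).comap Subtype.val
    have hF : Function.Injective F := by
      intro p q h
      apply Subtype.ext
      apply Tup.ext'
      have h1 : ∀ i (x y : Fin n), x ≠ b → y ≠ b → (p.1 i x y ↔ q.1 i x y) := by
        intro i x y hx hy
        have h2 := congrFun h i
        have h3 : (F p i) ⟨x, hx⟩ ⟨y, hy⟩ ↔ (F q i) ⟨x, hx⟩ ⟨y, hy⟩ := by rw [h2]
        exact h3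
      have h2 : ∀ i (y : Fin n), y ≠ b → (p.1 i b y ↔ q.1 i b y) := by
        intro i y hy
        have e1 : p.1 i b y ↔ p.1 i a y :=
          ⟨fun h => (p.1 i).trans (p.2 i) h, fun h => (p.1 i).trans ((p.1 i).symm (p.2 i)) h⟩
        have e2 : q.1 i b y ↔ q.1 i a y :=
          ⟨fun h => (q.1 i).trans (q.2 i) h, fun h => (q.1 i).trans ((q.1 i).symm (q.2 i)) h⟩
        rw [e1, e2]
        exact h1 i a y hab hy
      intro i x y
      by_cases hx : x = b
      · by_cases hy : y = b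
        · rw [hx, hy]
          exact ⟨fun _ => (q.1 i).refl b, fun _ => (p.1 i).refl b⟩
        · rw [hx]; exact h2 i y hy
      · by_cases hy : y = b
        · rw [hy]
          have := h2 i x hx
          exact ⟨fun h => (q.1 i).symm (this.1 ((p.1 i).symm h)),
            fun h => (p.1 i).symm (this.2 ((q.1 i).symm h))⟩
        · exact h1 i x y hx hy
    refine (Nat.card_le_card_of_injective F hF).trans (le_of_eq ?_)
    rw [Nat.card_fun, card_setoid, Nat.card_fin]
    congr 2
    rw [Fintype.card_subtype_compl]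
    simp
  have hsplit : Nat.card (Tup k n) ≤ Nat.card {p : Tup k n // Disc p} +
      Nat.card {p : Tup k n // ¬ Disc p} := by
    rw [Nat.card_eq_fintype_card, Nat.card_eq_fintype_card, Nat.card_eq_fintype_card,
      Fintype.card_subtype_compl]
    have := Fintype.card_subtype_le (fun p : Tup k n => Disc p)
    omega
  have hnot : Nat.card {p : Tup k n // ¬ Disc p} ≤ n ^ 2 * Nat.bell (n - 1) ^ k := by
    rw [Nat.card_eq_fintype_card, Fintype.card_subtype]
    have hsub : (univ.filter (fun p : Tup k n => ¬ Disc p)) ⊆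
        ((univ : Finset (Fin n × Fin n)).filter (fun c => c.1 ≠ c.2)).biUnion
          (fun c => univ.filter (fun p : Tup k n => ∀ i, p i c.1 c.2)) := by
      intro p hp
      rw [mem_filter] at hp
      have hp := hp.2
      unfold Disc at hp
      push Not at hp
      obtain ⟨a, b, h1, h2⟩ := hp
      simp only [mem_biUnion, mem_filter, mem_univ, true_and]
      exact ⟨(a, b), h2, h1⟩
    refine (Finset.card_le_card hsub).trans (Finset.card_biUnion_le.trans ?_)
    calc ∑ c ∈ (univ : Finset (Fin n × Fin n)).filter (fun c => c.1 ≠ c.2),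
          (univ.filter (fun p : Tup k n => ∀ i, p i c.1 c.2)).card
        ≤ ∑ c ∈ (univ : Finset (Fin n × Fin n)).filter (fun c => c.1 ≠ c.2),
            Nat.bell (n - 1) ^ k := by
          apply Finset.sum_le_sum
          intro c hc
          have h1 := hpair c.1 c.2 (mem_filter.1 hc).2
          rw [Nat.card_eq_fintype_card, Fintype.card_subtype] at h1
          exact h1
      _ = ((univ : Finset (Fin n × Fin n)).filter (fun c => c.1 ≠ c.2)).card *
            Nat.bell (n - 1) ^ k := by rw [sum_const, smul_eq_mul]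
      _ ≤ n ^ 2 * Nat.bell (n - 1) ^ k := by
          apply Nat.mul_le_mul_right
          refine (Finset.card_filter_le _ _).trans (le_of_eq ?_)
          rw [Finset.card_univ, Fintype.card_prod, Fintype.card_fin, sq]
  rw [← hall]
  omega

end

end Pool.Agent.KS6_8.HG
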